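import Pool.Agent.Lib.MP_2619d0_ag.Q7.T6

/-!
# Theorem Q8, sources of any dimension: definitions

`X` has `m + 2` coordinates, the forms have `N = n + s` variables, divided into `s` blocks (the homogeneous coordinates of
`ℙ^{a_1} × … × ℙ^{a_s}`, of dimension `n`, which has nothing to do with `m`).
-/

set_option autoImplicit false

namespace MP2619.Q6

open scoped NNReal
open IntermediateField MP2619.R MP2619.N Pool.Agent.Lib.MP_2619d0_ag Pool.Agent.Lib.MP_2619d0_ag.T
  MP2619.Q5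

namespace Bk

variable {n N s : ℕ} (K : Bk n N s)

/-- the point `G diag((1 + h)^wt) S` -/
def pS {R M : Type} [Field R] [Field M] [Algebra R M] (G : Fin N → Fin N → R) (S : Fin N → M)
    (h : M) : Fin N → M := pt (K.bd G) (K.dg h S)

theorem pS_zero {R M : Type} [Field R] [Field M] [Algebra R M] (G : Fin N → Fin N → R)
    (S : Fin N → M) : K.pS G S 0 = pt (K.bd G) S := by
  unfold pS
  rw [K.dg_zero]

/-- The source over `B`: a point `p` over the field `Q` generated by its coordinates, and odd degree of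
`(α f(p), β f(p))`, `α`, `β` indeterminates. -/
structure Src {m : ℕ} {k0 B : Type} [Field k0] [Field B] [Algebra k0 B]
    (f : Fin (m + 2) → MvPolynomial (Fin N) k0) (wB : B) {Q : Type} [Field Q] [Algebra k0 Q]
    [Algebra B Q] [IsScalarTower k0 B Q] (p : Fin N → Q) : Prop where
  nz : K.Nz p
  gen : adjoin B (Set.range p) = ⊤
  tr : Algebra.trdeg B Q ≤ m
  tr0 : Algebra.trdeg k0 (K.rt k0 p) ≤ m
  pr : ∀ (O : Type) [Field O] [Algebra Q O] [Algebra B O] [IsScalarTower B Q O] (α β : O),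
    AlgebraicIndependent Q ![α, β] → adjoin Q {α, β} = ⊤ → ∀ a : Fin (m + 2),
      Pr B (zg wB (fun i => α * algebraMap Q O (fe f p i))
        (fun i => β * algebraMap Q O (fe f p i)) (Pi.single a 1))

section

variable {k0 B M L : Type} [Field k0] [Field B] [Field M] [Field L]
  [Algebra k0 B] [Algebra k0 M] [Algebra B M] [Algebra B L]

/-- The torus path, `ε → 0`: a discrete valuation ring `P` of `M` with residue map `φ`, invariant under the symmetry `σ`, which fixes
`S` and exchanges `ε`, `ε'` and `α`, `β`; `(1 + ε) (1 + ε') = 1`, `x = α f(G diag((1 + ε')^wt) S)`, `y = β f(G diag((1 + ε)^wt) S)`. -/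
structure Esc8 {m : ℕ} (f : Fin (m + 2) → MvPolynomial (Fin N) k0)
    (G : Fin N → Fin N → B) (ε ε' : M) (S : Fin N → M) (α β : M) (σ : M ≃ₐ[B] M)
    (P : ValuationSubring M) (φ : P →+* L) (x y : Fin (m + 2) → P) (w : B) (a : Fin (m + 2)) :
    Prop where
  hom : ∃ d, ∀ i, K.MH (f i) d
  indG : AlgebraicIndependent k0 (fun q : Fin N × Fin N => G q.1 q.2)
  rm : RMap B P φ
  dv : DV P
  e0 : ε ≠ 0
  ee : (1 + ε) * (1 + ε') = 1
  a0 : α ≠ 0
  b0 : β ≠ 0
  nz : K.Nz S
  x0 : fe f (pt (K.bd G) S) ≠ 0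
  x_eq : ∀ i, (x i : M) = α * fe f (K.pS G S ε') i
  y_eq : ∀ i, (y i : M) = β * fe f (K.pS G S ε) i
  s_e : σ ε = ε'
  s_S : ∀ j, σ (S j) = S j
  s_a : σ α = β
  s_b : σ β = α
  s_s : ∀ z, σ (σ z) = z
  eps : P.valuation ε < 1
  eps' : P.valuation ε' < 1
  sig : ∀ z : M, σ z ∈ P ↔ z ∈ P
  tr : Algebra.trdeg B (adjoin B (Set.range S)) ≤ m
  ind : AlgebraicIndependent B (zg w (fun i => φ (x i)) (fun i => φ (y i)) (Pi.single a 1))

end

end Bk

end MP2619.Q6
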