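import Pool.Agent.Lib.MP_2619d0_ag.Q5.G1
import Pool.Agent.Lib.MP_2619d0_ag.Q8.TDefs

/-!
Row q8-T0: transcendence degrees; places which are trivial on a subfield
-/

set_option autoImplicit false

namespace MP2619.Q6

open scoped NNReal
open IntermediateField MP2619.R MP2619.N Pool.Agent.Lib.MP_2619d0_ag Pool.Agent.Lib.MP_2619d0_ag.T
  MP2619.Q5

private theorem T0E_add {k K L : Type} [Field k] [Field K] [Field L] [Algebra k K] [Algebra K L]
    [Algebra k L] [IsScalarTower k K L] :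
    Algebra.trdeg k K + Algebra.trdeg K L = Algebra.trdeg k L :=
  trdeg_add_eq k K

/-- One more element. -/
theorem trdeg_insert8 {B M : Type} [Field B] [Field M] [Algebra B M] (X : Set M) (a : M) (D : ℕ)
    (h : Algebra.trdeg B (adjoin B X) ≤ D) :
    Algebra.trdeg B (adjoin B (insert a X)) ≤ (D + 1 : ℕ) := by
  have h1 : adjoin B (insert a X) =
      (adjoin (adjoin B X) ({a} : Set M)).restrictScalars B := by
    rw [adjoin_adjoin_left, Set.union_singleton]
  have h2 : Algebra.trdeg (adjoin B X) (adjoin (adjoin B X) ({a} : Set M)) ≤ 1 := by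
    have h3 := trdeg_adjoin_finset (k := adjoin B X) ({a} : Finset M)
    rw [Finset.coe_singleton, Finset.card_singleton, Nat.cast_one] at h3
    exact h3
  have h4 : Algebra.trdeg B (adjoin B X) +
      Algebra.trdeg (adjoin B X) (adjoin (adjoin B X) ({a} : Set M)) =
      Algebra.trdeg B (adjoin (adjoin B X) ({a} : Set M)) := T0E_add
  have h5 : Algebra.trdeg B (adjoin B (insert a X)) =
      Algebra.trdeg B (adjoin (adjoin B X) ({a} : Set M)) := by
    rw [h1]
    rfl
  rw [h5, ← h4, Nat.cast_add, Nat.cast_one]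
  exact add_le_add h h2

/-- `trdeg_resI_lt` (Q5/G1): no non-zero `p ∈ E` has `P.valuation p < 1`, so (`p⁻¹`) none has
`P.valuation p > 1`. -/
theorem triv8 {B M L : Type} [Field B] [Field M] [Field L] [Algebra B M] [Algebra B L]
    {P : ValuationSubring M} {φ : P →+* L} (rm : RMap B P φ) (E : IntermediateField B M) (D : ℕ)
    (hE : Algebra.trdeg B E ≤ (D + 1 : ℕ)) (h : ¬ Algebra.trdeg B (resI rm E) ≤ D) :
    (∀ p ∈ E, p ∈ P) ∧ ∀ p ∈ E, p ≠ 0 → P.valuation p = 1 := by
  have h1 : ∀ p ∈ E, p ≠ 0 → 1 ≤ P.valuation p := by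
    intro p hp hp0
    by_contra h2
    exact h (trdeg_resI_lt rm E D hE p hp hp0 (not_le.1 h2))
  have h2 : ∀ p ∈ E, p ≠ 0 → P.valuation p = 1 := by
    intro p hp hp0
    refine le_antisymm ?_ (h1 p hp hp0)
    have h3 := h1 p⁻¹ (E.inv_mem hp) (inv_ne_zero hp0)
    rw [map_inv₀] at h3
    have h4 : P.valuation p ≠ 0 := (Valuation.ne_zero_iff _).2 hp0
    exact (one_le_inv₀ (zero_lt_iff.2 h4)).1 h3
  refine ⟨fun p hp => ?_, h2⟩
  by_cases hp0 : p = 0
  · rw [hp0]
    exact P.zero_mem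
  · exact (P.valuation_le_one_iff _).1 (h2 p hp hp0).le

end MP2619.Q6
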