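import Pool.Agent.Lib.MP_2619d0_ag.Q5.G1
import Pool.Agent.Lib.MP_2619d0_ag.Q5.G2
import Pool.Agent.Lib.MP_2619d0_ag.Q6.T21
import Pool.Agent.Lib.MP_2619d0_ag.Q8.T0

/-!
Row q8-T8a: base points, the bound for the vertex
-/

set_option autoImplicit false

namespace MP2619.Q6

open scoped NNReal
open IntermediateField MP2619.R MP2619.N Pool.Agent.Lib.MP_2619d0_ag Pool.Agent.Lib.MP_2619d0_ag.T
  MP2619.Q5

variable {k0 B M L : Type} [Field k0] [Field B] [Field M] [Field L]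
  [Algebra k0 B] [Algebra k0 M] [Algebra k0 L]
  [Algebra B M] [Algebra B L] [IsScalarTower k0 B M] [IsScalarTower k0 B L] {m n N s : ℕ}
  {K : Bk n N s} {f : Fin (m + 2) → MvPolynomial (Fin N) k0} {G : Fin N → Fin N → B} {ε ε' : M}
  {S : Fin N → M} {α β : M} {σ : M ≃ₐ[B] M} {P : ValuationSubring M} {φ : P →+* L}
  {x y : Fin (m + 2) → P} {w : B} {a : Fin (m + 2)}

private theorem T8a8_mono {L : Type} [Field L] [Algebra B L]
    {K0 K1 : IntermediateField B L} (h : K0 ≤ K1) : Algebra.trdeg B K0 ≤ Algebra.trdeg B K1 :=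
  _root_.trdeg_le_of_injective (IntermediateField.inclusion h)
    (IntermediateField.inclusion h).injective

/-- `U = K.nm J S`, `QS = adjoin B (range S)` (`trdeg ≤ m = D + 1`, `E.tr`) contains all `U j`. By `E.x0` some `f i (pt (K.bd G) S) ≠ 0`, so `g = f i (pt (K.bd G) U) ≠ 0` (`K.fe_dg_nm` with
`h = 0`, `K.dg_zero`), `g ∈ QS` (`fe_mem`, `pt_mem`), its residue is `f i (pt (K.bd G) τ) = 0` (`fe_res`, `pt_res`), so its value is `< 1`: `trdeg_resI_lt` for `QS`. The `τ j` are in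
`resI rm QS`, so are all `dv f i0 (pt (K.bd G) τ) i` (`aeval_mem`). (Model: Q6/T8a.lean, Q7/T8a.lean.) -/
theorem esc_tr1_8 (D : ℕ) (hm : m = D + 1) (E : K.Esc8 f G ε ε' S α β σ P φ x y w a)
    (J : Fin s → Fin N) (hJ : ∀ i, K.bl (J i) = i) (hJ0 : ∀ i, S (J i) ≠ 0)
    (hT : ∀ j, K.nm J S j ∈ P)
    (hz : fe f (pt (K.bd G) (fun j => φ ⟨_, hT j⟩)) = 0) (i0 : Fin N) :
    Algebra.trdeg B (rat B (dv f i0 (pt (K.bd G) (fun j => φ ⟨_, hT j⟩)))) ≤ D := by
  obtain ⟨d, hd⟩ := E.hom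
  have rm0 : RMap k0 P φ := RMap.restrict E.rm
  -- some value is not zero
  obtain ⟨i, hi⟩ := Function.ne_iff.1 E.x0
  rw [Pi.zero_apply] at hi
  have hnm := K.fe_dg_nm f hd G J S hJ0 0 i
  rw [K.dg_zero, K.dg_zero] at hnm
  rw [hnm] at hi
  have hg0 : fe f (pt (K.bd G) (K.nm J S)) i ≠ 0 := right_ne_zero_of_mul hi
  -- membership
  set QS : IntermediateField B M := adjoin B (Set.range S) with hQS
  have hSm : ∀ j, S j ∈ QS := fun j => subset_adjoin _ _ ⟨j, rfl⟩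
  have hUm : ∀ j, K.nm J S j ∈ QS := fun j => div_mem (hSm _) (hSm _)
  have hpm : ∀ j, pt (K.bd G) (K.nm J S) j ∈ QS := pt_mem QS (K.bd G) _ hUm
  have hgm : fe f (pt (K.bd G) (K.nm J S)) i ∈ QS := by
    have h1 := fe_mem f (QS.restrictScalars k0) (pt (K.bd G) (K.nm J S))
      (fun j => (IntermediateField.mem_restrictScalars k0).2 (hpm j)) i
    exact (IntermediateField.mem_restrictScalars k0).1 h1
  -- the value is less than one
  choose p hp1 hp2 using fun i => pt_res E.rm (K.bd G) (fun j => (⟨K.nm J S j, hT j⟩ : P)) i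
  obtain ⟨g, hg1, hg2⟩ := fe_res f rm0 p i
  have hg3 : (g : M) = fe f (pt (K.bd G) (K.nm J S)) i := by
    rw [hg1]
    congr 2
    funext j
    exact hp1 j
  have hg4 : φ g = 0 := by
    rw [hg2]
    have h1 : (fun j => φ (p j)) = pt (K.bd G) (fun j => φ ⟨K.nm J S j, hT j⟩) := funext hp2
    rw [h1, hz]
    rfl
  have hg5 : P.valuation (fe f (pt (K.bd G) (K.nm J S)) i) < 1 := by
    rw [← hg3]
    exact (E.rm.zero g).1 hg4
  have htr : Algebra.trdeg B QS ≤ (D + 1 : ℕ) := by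
    rw [← hm]
    exact E.tr
  have hres := trdeg_resI_lt E.rm QS D htr _ hgm hg0 hg5
  refine le_trans (T8a8_mono ?_) hres
  have hτ : ∀ j, φ ⟨K.nm J S j, hT j⟩ ∈ resI E.rm QS := fun j =>
    (mem_resI E.rm _ _).2 ⟨_, hUm j, rfl⟩
  have hpτ : ∀ j, pt (K.bd G) (fun j => φ ⟨K.nm J S j, hT j⟩) j ∈ resI E.rm QS :=
    pt_mem _ (K.bd G) _ hτ
  have hdv : ∀ i, dv f i0 (pt (K.bd G) (fun j => φ ⟨K.nm J S j, hT j⟩)) i ∈ resI E.rm QS := by
    intro i
    have h1 := aeval_mem ((resI E.rm QS).restrictScalars k0)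
      (MvPolynomial.pderiv i0 (f i)) (pt (K.bd G) (fun j => φ ⟨K.nm J S j, hT j⟩))
      (fun j => (IntermediateField.mem_restrictScalars k0).2 (hpτ j))
    exact (IntermediateField.mem_restrictScalars k0).1 h1
  rw [rat, adjoin_le_iff]
  rintro _ ⟨i, j, rfl⟩
  exact div_mem (hdv i) (hdv j)

end MP2619.Q6
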