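import Pool.Agent.Lib.MP_2619d0_ag.Q5.G1
import Pool.Agent.Lib.MP_2619d0_ag.Q5.G2
import Pool.Agent.Lib.MP_2619d0_ag.Q6.T21
import Pool.Agent.Lib.MP_2619d0_ag.Q8.T0

/-!
Row q8-T8b: the bound for the three points
-/

set_option autoImplicit false

namespace MP2619.Q6

open scoped NNReal
open IntermediateField MP2619.R MP2619.N Pool.Agent.Lib.MP_2619d0_ag Pool.Agent.Lib.MP_2619d0_ag.T
  MP2619.Q5

variable {k0 B M L : Type} [Field k0] [Field B] [Field M] [Field L]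
  [Algebra k0 B] [Algebra k0 M] [Algebra k0 L]
  [Algebra B M] [Algebra B L] [IsScalarTower k0 B M] [IsScalarTower k0 B L] {m n N s : ℕ}
  {K : Bk n N s} {f : Fin (m + 2) → MvPolynomial (Fin N) k0} {G : Fin N → Fin N → B} {ε ε' : M}
  {S : Fin N → M} {α β : M} {σ : M ≃ₐ[B] M} {P : ValuationSubring M} {φ : P →+* L}
  {x y : Fin (m + 2) → P} {w : B} {a : Fin (m + 2)}

private theorem T8b8_le {K : Bk n N s} {f : Fin (m + 2) → MvPolynomial (Fin N) k0} {d : Fin s → ℕ}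
    (hd : ∀ i, K.MH (f i) d) (G : Fin N → Fin N → B) (S : Fin N → M)
    (L0 : IntermediateField B M) (hL : ∀ j, S j ∈ L0)
    (h c : M) (hh : h ∈ L0) : rat B (fun i => c * fe f (K.pS G S h) i) ≤ L0 := by
  refine (rat_smul_le _ _).trans ?_
  have h4 : ∀ j, K.dg h S j ∈ L0 := by
    intro j
    unfold Bk.dg
    exact L0.mul_mem (pow_mem (L0.add_mem L0.one_mem hh) _) (hL j)
  have h5 : ∀ i, fe f (K.pS G S h) i ∈ L0 := by
    intro i
    have h6 : fe f (K.pS G S h) i ∈ L0.restrictScalars k0 :=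
      fe_mem f (L0.restrictScalars k0) _ (fun j => pt_mem L0 _ _ h4 j) i
    exact h6
  conv_lhs => unfold rat
  rw [IntermediateField.adjoin_le_iff]
  rintro _ ⟨i, l, rfl⟩
  exact L0.div_mem (h5 i) (h5 l)

/-- `L0 = adjoin B (insert ε (range S))`: `trdeg ≤ m + 1` (`E.tr`, `trdeg_insert8`); `ε ∈ L0` is small and not zero: `trdeg_resI_lt`: `trdeg B (resI rm L0) ≤ m`. `ε' ∈ L0`
(`E.ee`: `1 + ε' = (1 + ε)⁻¹`). It contains `rat B x̄`, `rat B ȳ` (`rat_resI`, `rat_smul_le`: the `f(K.pS G S h) i` are in `L0` for `h ∈ L0`) and the `τ j`, so `rat B (dv ..)`.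
(Model: Q6/T8b.lean, Q7/T8b.lean.) -/
theorem esc_tr2_8 (E : K.Esc8 f G ε ε' S α β σ P φ x y w a)
    (J : Fin s → Fin N) (hJ : ∀ i, K.bl (J i) = i) (hJ0 : ∀ i, S (J i) ≠ 0)
    (hT : ∀ j, K.nm J S j ∈ P) (i0 : Fin N) :
    Algebra.trdeg B (rat B (dv f i0 (pt (K.bd G) (fun j => φ ⟨_, hT j⟩))) ⊔
      rat B (fun i => φ (x i)) ⊔ rat B (fun i => φ (y i)) : IntermediateField B L) ≤ m := by
  classical
  obtain ⟨d, hd⟩ := E.hom
  set L0 : IntermediateField B M := adjoin B (insert ε (Set.range S)) with hLdef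
  have hLtr : Algebra.trdeg B L0 ≤ (m + 1 : ℕ) := trdeg_insert8 (Set.range S) ε m E.tr
  have hε : ε ∈ L0 := subset_adjoin B _ (Set.mem_insert _ _)
  have hε' : ε' ∈ L0 := by
    have h2 : ε' = (1 + ε)⁻¹ - 1 := by
      rw [eq_sub_iff_add_eq, add_comm]
      exact eq_inv_of_mul_eq_one_right E.ee
    rw [h2]
    exact sub_mem (inv_mem (add_mem (one_mem _) hε)) (one_mem _)
  have hS : ∀ j, S j ∈ L0 := fun j => subset_adjoin B _ (Set.mem_insert_of_mem _ ⟨j, rfl⟩)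
  have hL : ∀ j, K.nm J S j ∈ L0 := fun j => div_mem (hS _) (hS _)
  have htr := trdeg_resI_lt E.rm L0 m hLtr ε hε E.e0 E.eps
  have hx : rat B (fun i => φ (x i)) ≤ resI E.rm L0 := by
    refine rat_resI E.rm x L0 ?_
    have h1 : (fun i => (x i : M)) = fun i => α * fe f (K.pS G S ε') i := funext E.x_eq
    rw [h1]
    exact T8b8_le hd G S L0 hS ε' α hε'
  have hy : rat B (fun i => φ (y i)) ≤ resI E.rm L0 := by
    refine rat_resI E.rm y L0 ?_
    have h1 : (fun i => (y i : M)) = fun i => β * fe f (K.pS G S ε) i := funext E.y_eq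
    rw [h1]
    exact T8b8_le hd G S L0 hS ε β hε
  have hdv : rat B (dv f i0 (pt (K.bd G) (fun j => φ ⟨_, hT j⟩))) ≤ resI E.rm L0 := by
    have h1 : ∀ j, φ ⟨_, hT j⟩ ∈ resI E.rm L0 := fun j =>
      (mem_resI E.rm L0 _).2 ⟨⟨_, hT j⟩, hL j, rfl⟩
    have h2 : ∀ j, pt (K.bd G) (fun j => φ ⟨_, hT j⟩) j ∈ resI E.rm L0 := fun j =>
      pt_mem _ _ _ h1 j
    have h3 : ∀ i, dv f i0 (pt (K.bd G) (fun j => φ ⟨_, hT j⟩)) i ∈ resI E.rm L0 := by
      intro i
      have h4 : dv f i0 (pt (K.bd G) (fun j => φ ⟨_, hT j⟩)) i ∈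
          (resI E.rm L0).restrictScalars k0 :=
        aeval_mem ((resI E.rm L0).restrictScalars k0) _ _ h2
      exact h4
    conv_lhs => unfold rat
    rw [IntermediateField.adjoin_le_iff]
    rintro _ ⟨i, l, rfl⟩
    exact (resI E.rm L0).div_mem (h3 i) (h3 l)
  have hle : (rat B (dv f i0 (pt (K.bd G) (fun j => φ ⟨_, hT j⟩))) ⊔
      rat B (fun i => φ (x i)) ⊔ rat B (fun i => φ (y i)) : IntermediateField B L) ≤
      resI E.rm L0 := sup_le (sup_le hdv hx) hy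
  exact (_root_.trdeg_le_of_injective (IntermediateField.inclusion hle)
    (IntermediateField.inclusion hle).injective).trans htr

end MP2619.Q6
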