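import Pool.Agent.Lib.MP_2619d0_ag.Q5.G1
import Pool.Agent.Lib.MP_2619d0_ag.Q5.G2
import Pool.Agent.Lib.MP_2619d0_ag.Q6.T21
import Pool.Agent.Lib.MP_2619d0_ag.Q6.C10b
import Pool.Agent.Lib.MP_2619d0_ag.Q8.T0

/-!
Row q8-T8c: the automorphism of the residue field
-/

set_option autoImplicit false

namespace MP2619.Q6

open scoped NNReal
open IntermediateField MP2619.R MP2619.N Pool.Agent.Lib.MP_2619d0_ag Pool.Agent.Lib.MP_2619d0_ag.T
  MP2619.Q5

variable {k0 B M L : Type} [Field k0] [Field B] [Field M] [Field L]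
  [Algebra k0 B] [Algebra k0 M] [Algebra k0 L]
  [Algebra B M] [Algebra B L] [IsScalarTower k0 B M] [IsScalarTower k0 B L] {m n N s : ℕ}
  {K : Bk n N s} {f : Fin (m + 2) → MvPolynomial (Fin N) k0} {G : Fin N → Fin N → B} {ε ε' : M}
  {S : Fin N → M} {α β : M} {σ : M ≃ₐ[B] M} {P : ValuationSubring M} {φ : P →+* L}
  {x y : Fin (m + 2) → P} {w : B} {a : Fin (m + 2)}

private theorem T8cE_aeval {k' B' M' : Type} [Field k'] [Field B'] [Field M'] [Algebra k' B']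
    [Algebra k' M'] [Algebra B' M'] [IsScalarTower k' B' M'] {s : ℕ} (σ' : M' ≃ₐ[B'] M')
    (q : MvPolynomial (Fin s) k') (p : Fin s → M') :
    σ' (MvPolynomial.aeval p q) = MvPolynomial.aeval (fun j => σ' (p j)) q := by
  have h := MvPolynomial.comp_aeval_apply (R := k') p
    ((σ'.toAlgHom : M' →ₐ[B'] M').restrictScalars k') q
  exact h

omit [Algebra k0 L] [IsScalarTower k0 B M] [IsScalarTower k0 B L] in
private theorem T8cE_pS (E : K.Esc8 f G ε ε' S α β σ P φ x y w a) (i : Fin N) :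
    σ (K.pS G S ε' i) = K.pS G S ε i := by
  have he : σ ε' = ε := by rw [← E.s_e, E.s_s]
  unfold Bk.pS Bk.dg pt
  rw [map_sum]
  refine Finset.sum_congr rfl fun j _ => ?_
  rw [map_mul, σ.commutes, map_mul, map_pow, map_add, map_one, he, E.s_S]

omit [Algebra k0 L] [IsScalarTower k0 B L] in
private theorem T8cE_x (E : K.Esc8 f G ε ε' S α β σ P φ x y w a) (i : Fin (m + 2)) :
    σ (x i : M) = y i := by
  have h1 : (fun j => σ (K.pS G S ε' j)) = K.pS G S ε := by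
    funext j
    exact T8cE_pS E j
  have h2 := T8cE_aeval (k' := k0) σ (f i) (K.pS G S ε')
  rw [h1] at h2
  rw [E.x_eq, E.y_eq, map_mul, E.s_a]
  congr 1

/-- `θ` = `exists_res_aut` (C10b) for `σ`: `θ (φ z) = φ (σ z)`. `σ (S j) = S j`, so `σ (K.nm J S j) = K.nm J S j` and `θ (τ j) = τ j`; `σ ε' = ε` (`E.s_e`, `E.s_s`), so
`σ (x i) = y i`; `σ (y i) = x i` by `E.s_s`. (Model: Q6/T8c.lean; simpler.) -/
theorem esc_theta8 (E : K.Esc8 f G ε ε' S α β σ P φ x y w a)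
    (J : Fin s → Fin N) (hT : ∀ j, K.nm J S j ∈ P) :
    ∃ θ : L ≃ₐ[B] L, (∀ i, θ (φ (x i)) = φ (y i)) ∧ (∀ i, θ (φ (y i)) = φ (x i)) ∧
      (∀ z, θ (θ z) = z) ∧ ∀ j, θ (φ ⟨_, hT j⟩) = φ ⟨_, hT j⟩ := by
  obtain ⟨θ, hθ⟩ := exists_res_aut σ P E.sig φ E.rm
  refine ⟨θ, fun i => ?_, fun i => ?_, fun z => ?_, fun j => ?_⟩
  · rw [hθ]
    congr 1
    exact Subtype.ext (T8cE_x E i)
  · rw [hθ]
    congr 1
    refine Subtype.ext ?_
    change σ (y i : M) = x i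
    rw [← T8cE_x E i, E.s_s]
  · obtain ⟨b, rfl⟩ := E.rm.surj z
    rw [hθ, hθ]
    congr 1
    exact Subtype.ext (E.s_s _)
  · rw [hθ]
    congr 1
    refine Subtype.ext ?_
    change σ (K.nm J S j) = K.nm J S j
    unfold Bk.nm
    rw [map_div₀, E.s_S, E.s_S]

end MP2619.Q6
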