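import Pool.Agent.Lib.MP_2619d0_ag.Q5.G1
import Pool.Agent.Lib.MP_2619d0_ag.Q8.TDefs

/-!
# Theorem Q8, base points in the closure of the point `p`
-/

set_option autoImplicit false

namespace MP2619.Q6

open scoped NNReal
open IntermediateField MP2619.R MP2619.N Pool.Agent.Lib.MP_2619d0_ag Pool.Agent.Lib.MP_2619d0_ag.T
  MP2619.Q5

namespace Bk

variable {n N s : ℕ} (K : Bk n N s)

/-- `P0` satisfies all multihomogeneous equations over `k` which `p` satisfies -/
def Sp (k : Type) {M κ : Type} [Field k] [Field M] [Algebra k M] [Field κ] [Algebra k κ]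
    (p : Fin N → M) (P0 : Fin N → κ) : Prop :=
  ∀ (g : MvPolynomial (Fin N) k) (d : Fin s → ℕ), K.MH g d → MvPolynomial.aeval p g = 0 →
    MvPolynomial.aeval P0 g = 0

/-- at every point of the closure of `p` some derivative of order at most one of some `f i` is not zero -/
def Mult1V {k M : Type} [Field k] [Field M] [Algebra k M] {r : ℕ}
    (f : Fin r → MvPolynomial (Fin N) k) (p : Fin N → M) : Prop :=
  ∀ (κ : Type) [Field κ] [Algebra k κ] (P0 : Fin N → κ), K.Nz P0 → K.Sp k p P0 →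
    ∃ (i : Fin r) (d : Fin N →₀ ℕ), d.degree ≤ 1 ∧
      MvPolynomial.coeff d (MvPolynomial.aeval
        (fun j => MvPolynomial.C (P0 j) + MvPolynomial.X j : Fin N → MvPolynomial (Fin N) κ)
        (f i)) ≠ 0

/-- `exists_dv` at one point -/
theorem exists_dv' {k κ : Type} [Field k] [Field κ] [Algebra k κ] {r : ℕ}
    {f : Fin r → MvPolynomial (Fin N) k} (P0 : Fin N → κ)
    (hm : ∃ (i : Fin r) (d : Fin N →₀ ℕ), d.degree ≤ 1 ∧
      MvPolynomial.coeff d (MvPolynomial.aeval
        (fun j => MvPolynomial.C (P0 j) + MvPolynomial.X j : Fin N → MvPolynomial (Fin N) κ)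
        (f i)) ≠ 0)
    (hz : fe f P0 = 0) : ∃ i0, dv f i0 P0 ≠ 0 := by
  obtain ⟨i, d, hd, hc⟩ := hm
  rw [← MvPolynomial.aeval_map_algebraMap κ] at hc
  obtain ⟨h0, h1⟩ := coeff_shift P0 (MvPolynomial.map (algebraMap k κ) (f i))
  have hd' : d = 0 ∨ ∃ i0, d = Finsupp.single i0 1 := by
    by_cases h : d = 0
    · exact Or.inl h
    · right
      obtain ⟨i0, hi0⟩ := Finsupp.ne_iff.1 h
      rw [Finsupp.coe_zero, Pi.zero_apply] at hi0
      refine ⟨i0, ?_⟩
      have h2 : d.degree = ∑ j, d j := by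
        rw [Finsupp.degree_eq_sum]
      rw [h2] at hd
      ext j
      rw [Finsupp.single_apply]
      have h3 := Finset.add_sum_erase Finset.univ (fun j => d j) (Finset.mem_univ i0)
      split_ifs with h4
      · subst h4
        omega
      · have h5 : d j ≤ ∑ x ∈ Finset.univ.erase i0, d x :=
          Finset.single_le_sum (f := fun x => d x) (fun _ _ => Nat.zero_le _)
            (Finset.mem_erase.2 ⟨fun h6 => h4 h6.symm, Finset.mem_univ j⟩)
        omega
  rcases hd' with rfl | ⟨i0, rfl⟩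
  · exfalso
    apply hc
    rw [h0, MvPolynomial.aeval_map_algebraMap]
    exact congrFun hz i
  · refine ⟨i0, fun h2 => hc ?_⟩
    rw [h1 i0, MvPolynomial.pderiv_map, MvPolynomial.aeval_map_algebraMap]
    exact congrFun h2 i

/-- the residue of the normalised point is in the closure -/
theorem sp_res {k0 B M L : Type} [Field k0] [Field B] [Field M] [Field L]
    [Algebra k0 B] [Algebra k0 M] [Algebra k0 L]
    [Algebra B M] [Algebra B L] [IsScalarTower k0 B M] [IsScalarTower k0 B L]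
    {P : ValuationSubring M} {φ : P →+* L} (rm : RMap B P φ) (G : Fin N → Fin N → B)
    (S : Fin N → M) (J : Fin s → Fin N) (hJ0 : ∀ i, S (J i) ≠ 0) (hT : ∀ j, K.nm J S j ∈ P) :
    K.Sp k0 (pt (K.bd G) S) (pt (K.bd G) (fun j => φ ⟨_, hT j⟩)) := by
  intro g d hg h0
  have rm0 : RMap k0 P φ := rm.restrict
  -- the form at the normalised point
  have h1 := K.fe_dg_nm (fun _ : Fin 1 => g) (fun _ => hg) G J S hJ0 0 0
  rw [K.dg_zero, K.dg_zero] at h1
  have h2 : fe (fun _ : Fin 1 => g) (pt (K.bd G) (K.nm J S)) 0 = 0 := by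
    have h3 : fe (fun _ : Fin 1 => g) (pt (K.bd G) S) 0 = 0 := h0
    rw [h3] at h1
    exact (mul_eq_zero.1 h1.symm).resolve_left
      (Finset.prod_ne_zero_iff.2 fun l _ => pow_ne_zero _ (hJ0 l))
  choose q hq1 hq2 using fun i => pt_res rm (K.bd G) (fun j => (⟨K.nm J S j, hT j⟩ : P)) i
  obtain ⟨b, hb1, hb2⟩ := fe_res (fun _ : Fin 1 => g) rm0 q 0
  have h4 : (b : M) = 0 := by
    rw [hb1]
    have h5 : (fun j => (q j : M)) = pt (K.bd G) (K.nm J S) := funext hq1
    rw [h5]
    exact h2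
  have h5 : b = 0 := Subtype.ext h4
  rw [h5, map_zero] at hb2
  have h6 : (fun j => φ (q j)) = pt (K.bd G) (fun j => φ ⟨_, hT j⟩) := funext hq2
  rw [h6] at hb2
  exact hb2.symm

theorem Mult1V.map {k Q M : Type} [Field k] [Field Q] [Field M] [Algebra k Q] [Algebra k M] {r : ℕ}
    {f : Fin r → MvPolynomial (Fin N) k} {p : Fin N → Q} (h : K.Mult1V f p) (g : Q →ₐ[k] M) :
    K.Mult1V f (fun j => g (p j)) := by
  intro κ _ _ P0 hP0 hs
  refine h κ P0 hP0 fun F d hF h0 => hs F d hF ?_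
  have h1 := MvPolynomial.comp_aeval_apply (R := k) p g F
  rw [← h1, h0, map_zero]

end Bk

end MP2619.Q6
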