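import Pool.Agent.Lib.MP_2619d0_ag.Q8.T7
import Pool.Agent.Lib.MP_2619d0_ag.Q8.T8a
import Pool.Agent.Lib.MP_2619d0_ag.Q8.T8b
import Pool.Agent.Lib.MP_2619d0_ag.Q8.T8c
import Pool.Agent.Lib.MP_2619d0_ag.Q7.T21
import Pool.Agent.Lib.MP_2619d0_ag.Q6.T10
import Pool.Agent.Lib.MP_2619d0_ag.Q8.V0

/-!
Row q8-V20: the places over zero which are invariant under the symmetry
-/

set_option autoImplicit false

namespace MP2619.Q6

open scoped NNReal
open IntermediateField MP2619.R MP2619.N Pool.Agent.Lib.MP_2619d0_ag Pool.Agent.Lib.MP_2619d0_ag.T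
  MP2619.Q5

variable {k0 B M L : Type} [Field k0] [Field B] [Field M] [Field L]
  [Algebra k0 B] [Algebra k0 M] [Algebra k0 L]
  [Algebra B M] [Algebra B L] [IsScalarTower k0 B M] [IsScalarTower k0 B L] {m n N s : ℕ}
  {K : Bk n N s} {f : Fin (m + 2) → MvPolynomial (Fin N) k0} {G : Fin N → Fin N → B} {ε ε' : M}
  {S : Fin N → M} {α β : M} {σ : M ≃ₐ[B] M} {P : ValuationSubring M} {φ : P →+* L}
  {x y : Fin (m + 2) → P} {w : B} {a : Fin (m + 2)}

/-- a value of a polynomial over `k0` at fixed points is fixed -/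
private theorem V20E_fix (θ : L ≃ₐ[B] L) {n : ℕ} (p : Fin n → L) (hp : ∀ j, θ (p j) = p j)
    (g : MvPolynomial (Fin n) k0) : θ (MvPolynomial.aeval p g) = MvPolynomial.aeval p g := by
  induction g using MvPolynomial.induction_on with
  | C c =>
    rw [MvPolynomial.aeval_C, IsScalarTower.algebraMap_apply k0 B L, AlgEquiv.commutes]
  | add p q hp hq => rw [map_add, map_add, hp, hq]
  | mul_X p i ih => rw [map_mul, MvPolynomial.aeval_X, map_mul, ih, hp]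

/-- Copy of `esc` (Q6/T20.lean; see also Q7/T20.lean). `K.exists_nm` for `S` (`E.nz`): `J`, `U = K.nm J S ∈ P`, residues `τ`. `f(pt (K.bd G) τ) ≠ 0`: `esc_main8`. Otherwise `K.exists_dv`
for `P0 = pt (K.bd G) τ` (`pt_neB`, Q7/T21; `τ (J i) = 1`, `K.nm_J`): `i0`, `av = dv f i0 P0 ≠ 0`. `x i = α' f i (pt (K.bd G) (K.dg ε' U))`, `α' = α ∏ S(J l)^(d l)` (`K.fe_dg_nm`, `h = ε'`; the
residue of `pt (K.bd G) (K.dg ε' U)` is `P0`). `x̄ ≠ 0` (as in Q6), so `P.valuation α'⁻¹ < 1`: `translate` (Q6/T10; `q` = `pt (K.bd G) (K.dg ε' U)`).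
`θ` = `esc_theta8`, `θ (av i) = av i`. `tr1`: `esc_tr1_8`, `tr2`: `esc_tr2_8`. -/
theorem esc8V [CharZero L] (D : ℕ) (hm : m = D + 1) (E : K.Esc8 f G ε ε' S α β σ P φ x y w a)
    (hmu : K.Mult1V f (pt (K.bd G) S)) (F0 : MvPolynomial (Fin (m + 2)) k0) (h3 : F0.IsHomogeneous 3)
    (h0 : MvPolynomial.aeval f F0 = 0) :
    (∀ b ∈ adjoin B (Set.range S ∪ {α, β}), b ∈ P) ∨
      ∃ (av : Fin (m + 2) → L) (θ : L ≃ₐ[B] L),
        LN (MvPolynomial.map (algebraMap k0 B) F0) (fun i => φ (x i)) (fun i => φ (y i)) av θ := by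
  classical
  have rm0 : RMap k0 P φ := E.rm.restrict
  obtain ⟨J, hJ, hJ0, hT⟩ := K.exists_nm P S E.nz
  by_cases hne : fe f (pt (K.bd G) (fun j => φ ⟨_, hT j⟩)) ≠ 0
  · exact Or.inl (esc_main8 D hm E J hJ hJ0 hT hne)
  right
  rw [not_not] at hne
  obtain ⟨d, hd⟩ := E.hom
  have hτ0 : K.Nz (fun j => φ ⟨_, hT j⟩ : Fin N → L) := by
    intro i
    refine ⟨J i, hJ i, ?_⟩
    have h2 : (⟨K.nm J S (J i), hT (J i)⟩ : P) = 1 :=
      Subtype.ext (K.nm_J J hJ S hJ0 i)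
    show φ ⟨K.nm J S (J i), hT (J i)⟩ ≠ 0
    rw [h2, map_one]
    exact one_ne_zero
  have hP0 : K.Nz (pt (K.bd G) (fun j => φ ⟨_, hT j⟩)) := pt_neB K G E.indG _ hτ0
  obtain ⟨i0, hi0⟩ := Bk.exists_dv' _ (hmu L _ hP0 (K.sp_res E.rm G S J hJ0 hT)) hne
  obtain ⟨θ, hθx, hθy, hθθ, hθτ⟩ := esc_theta8 E J hT
  have hεP' : ε' ∈ P := (P.valuation_le_one_iff _).1 E.eps'.le
  have hφε' : φ ⟨ε', hεP'⟩ = 0 := (E.rm.zero _).2 E.eps'
  choose q hq1 hq2 using fun i => pt_res E.rm (K.bd G)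
    (fun j => (1 + (⟨ε', hεP'⟩ : P)) ^ (K.wt j) * (⟨_, hT j⟩ : P)) i
  have hqφ : (fun j => φ (q j)) = pt (K.bd G) (fun j => φ ⟨_, hT j⟩) := by
    funext i
    rw [hq2 i]
    congr 1
    funext j
    rw [map_mul, map_pow, map_add, map_one, hφε', add_zero, one_pow, one_mul]
  have hqM : (fun j => (q j : M)) = pt (K.bd G) (K.dg ε' (K.nm J S)) := funext hq1
  have hX : ∀ i, (x i : M) = α * (∏ l, S (J l) ^ d l) *
      fe f (fun j => (q j : M)) i := by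
    intro i
    rw [E.x_eq, mul_assoc, hqM]
    unfold Bk.pS
    rw [K.fe_dg_nm f hd G J S hJ0 ε' i]
  have hα0 : α * (∏ l, S (J l) ^ d l) ≠ 0 :=
    mul_ne_zero E.a0 (Finset.prod_ne_zero_iff.2 fun l _ => pow_ne_zero _ (hJ0 l))
  -- some residue of `x` is not zero
  have hx0 : ∃ i, φ (x i) ≠ 0 := by
    by_contra hcon
    push Not at hcon
    have hy : ∀ i, φ (y i) = 0 := by
      intro i
      rw [← hθx, hcon, map_zero]
    have h1 := E.ind.ne_zero 0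
    apply h1
    show algebraMap B L _ * φ (x 0) + φ (y 0) = 0
    rw [hcon, hy, mul_zero, add_zero]
  have hα : P.valuation (α * (∏ l, S (J l) ^ d l))⁻¹ < 1 := by
    obtain ⟨i, hi⟩ := hx0
    obtain ⟨b, hb1, hb2⟩ := fe_res f rm0 q i
    have hb3 : φ b = 0 := by
      rw [hb2, hqφ, hne]
      rfl
    have hb4 := (rm0.zero b).1 hb3
    have hxi : P.valuation (x i : M) = 1 :=
      le_antisymm ((P.valuation_le_one_iff _).2 (x i).2) (not_lt.1 fun h => hi ((rm0.zero _).2 h))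
    have hbe : (b : M) = (x i : M) * (α * (∏ l, S (J l) ^ d l))⁻¹ := by
      rw [hX i, hb1, mul_comm, ← mul_assoc, inv_mul_cancel₀ hα0, one_mul]
    rw [hbe, map_mul, hxi, one_mul] at hb4
    exact hb4
  have htr := translate rm0 f F0 h3 h0 q _ hα0 hα x hX i0
  rw [hqφ] at htr
  refine ⟨dv f i0 (pt (K.bd G) (fun j => φ ⟨_, hT j⟩)), θ, ?_⟩
  exact {
    x_y := hθx
    y_x := hθy
    a_a := by
      intro i
      have h1 : ∀ j, θ (pt (K.bd G) (fun j => φ ⟨_, hT j⟩) j) =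
          pt (K.bd G) (fun j => φ ⟨_, hT j⟩) j := by
        intro j
        unfold pt
        rw [map_sum]
        refine Finset.sum_congr rfl fun l _ => ?_
        rw [map_mul, hθτ l, AlgEquiv.commutes]
      exact V20E_fix θ _ h1 _
    inv := hθθ
    ne := hi0
    line := by
      intro r s
      rw [MvPolynomial.aeval_map_algebraMap]
      exact htr r s
    tr1 := ⟨D, by omega, esc_tr1_8 D hm E J hJ hJ0 hT hne i0⟩
    tr2 := ⟨m, le_rfl, esc_tr2_8 E J hJ hJ0 hT i0⟩ }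

end MP2619.Q6
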