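import Pool.Agent.Lib.MP_2619d0_ag.Q6.M6b
import Pool.Agent.Lib.MP_2619d0_ag.Q8.TDefs

/-!
Row q8-M0: the field of the path
-/

set_option autoImplicit false

namespace MP2619.Q6

open scoped NNReal
open IntermediateField MP2619.R MP2619.N Pool.Agent.Lib.MP_2619d0_ag Pool.Agent.Lib.MP_2619d0_ag.T
  MP2619.Q5

/-- the three generators -/
def g3 {M : Type} (e α β : M) : Fin 3 → M :=
  Fin.cons e (Fin.cons α (Fin.cons β (Fin.elim0 : Fin 0 → M)))

/-- the rational function field in `n` variables -/
private theorem M0E_pure (n : ℕ) (k : Type) [Field k] :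
    ∃ (M : Type) (_ : Field M) (_ : Algebra k M) (v : Fin n → M),
      AlgebraicIndependent k v ∧ adjoin k (Set.range v) = ⊤ := by
  classical
  refine ⟨FractionRing (MvPolynomial (Fin n) k), inferInstance, inferInstance,
    fun i => algebraMap (MvPolynomial (Fin n) k) (FractionRing (MvPolynomial (Fin n) k))
      (MvPolynomial.X i), ?_, ?_⟩
  · exact (MvPolynomial.algebraicIndependent_X (Fin n) k).map'
      (f := IsScalarTower.toAlgHom k (MvPolynomial (Fin n) k)
        (FractionRing (MvPolynomial (Fin n) k)))
      (IsFractionRing.injective (MvPolynomial (Fin n) k)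
        (FractionRing (MvPolynomial (Fin n) k)))
  · set v : Fin n → FractionRing (MvPolynomial (Fin n) k) :=
      fun i => algebraMap (MvPolynomial (Fin n) k) (FractionRing (MvPolynomial (Fin n) k))
        (MvPolynomial.X i) with hv
    have key : ∀ a : MvPolynomial (Fin n) k,
        algebraMap (MvPolynomial (Fin n) k) (FractionRing (MvPolynomial (Fin n) k)) a ∈
          adjoin k (Set.range v) := by
      intro a
      induction a using MvPolynomial.induction_on with
      | C c =>
        have h2 : algebraMap (MvPolynomial (Fin n) k) (FractionRing (MvPolynomial (Fin n) k))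
            (MvPolynomial.C c) = algebraMap k _ c := by
          rw [IsScalarTower.algebraMap_apply k (MvPolynomial (Fin n) k)
            (FractionRing (MvPolynomial (Fin n) k))]
          rfl
        rw [h2]
        exact IntermediateField.algebraMap_mem _ c
      | add a b ha hb => rw [map_add]; exact add_mem ha hb
      | mul_X a i ha =>
        rw [map_mul]
        exact mul_mem ha (subset_adjoin k _ ⟨i, rfl⟩)
    rw [eq_top_iff]
    intro z _
    obtain ⟨a, b, hb, rfl⟩ := IsFractionRing.div_surjective (A := MvPolynomial (Fin n) k) z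
    exact div_mem (key a) (key b)

private theorem M0E_frac {B M : Type} [Field B] [Field M] [Algebra B M] {n : ℕ} (r : Fin n → M)
    (hr : AlgebraicIndependent B r) (h : adjoin B (Set.range r) = ⊤) :
    ∃ g : FractionRing (MvPolynomial (Fin n) B) ≃ₐ[B] M,
      ∀ i, g (algebraMap (MvPolynomial (Fin n) B) _ (MvPolynomial.X i)) = r i := by
  refine ⟨(hr.aevalEquivField.trans (IntermediateField.equivOfEq h)).trans
    IntermediateField.topEquiv, fun i => ?_⟩
  have h1 : ((hr.aevalEquivField (algebraMap (MvPolynomial (Fin n) B) _ (MvPolynomial.X i)) :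
      IntermediateField.adjoin B (Set.range r)) : M) = MvPolynomial.aeval r (MvPolynomial.X i) :=
    hr.aevalEquivField_algebraMap_apply_coe (MvPolynomial.X i)
  rw [MvPolynomial.aeval_X] at h1
  exact h1

/-- a purely transcendental extension of degree one maps to every extension with a transcendental
element -/
private theorem M0E_emb {B k1 M : Type} [Field B] [Field k1] [Field M] [Algebra B k1]
    [Algebra B M] (e : k1) (he : Transcendental B e) (hgen : adjoin B {e} = ⊤) (v : M)
    (hv : Transcendental B v) : ∃ φ : k1 →ₐ[B] M, φ e = v := by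
  have h1 : AlgebraicIndependent B (fun _ : Fin 1 => e) :=
    algebraicIndependent_unique_type_iff.2 he
  have h2 : AlgebraicIndependent B (fun _ : Fin 1 => v) :=
    algebraicIndependent_unique_type_iff.2 hv
  have h3 : adjoin B (Set.range (fun _ : Fin 1 => e)) = ⊤ := by
    rw [Set.range_const]; exact hgen
  obtain ⟨g, hg⟩ := M0E_frac _ h1 h3
  refine ⟨((IntermediateField.val _).comp h2.aevalEquivField.toAlgHom).comp g.symm.toAlgHom, ?_⟩
  have h4 : g.symm e = algebraMap (MvPolynomial (Fin 1) B) _ (MvPolynomial.X 0) := by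
    rw [← hg 0, AlgEquiv.symm_apply_apply]
  have h5 := h2.aevalEquivField_algebraMap_apply_coe (MvPolynomial.X 0)
  rw [MvPolynomial.aeval_X] at h5
  change ((h2.aevalEquivField (g.symm e) : _) : M) = v
  rw [h4]
  exact h5

/-- `M = FractionRing (MvPolynomial (Fin 3) Q)`, `v = X 0, X 1, X 2`. `k1 = B(e)`, `e` transcendental over `B`: `v 0 = X 0` is transcendental over `B` too, so there is a `B`-embedding
`k1 → M` with `e ↦ v 0`: compose the inverse of `aevalEquivField` for `![e]` (`adjoin B {e} = ⊤`, see `M6b_frac` in Q6/M6b.lean) with `aevalEquivField` for `![v 0]`. -/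
theorem exists_M8 {B Q k1 : Type} [Field B] [Field Q] [Field k1] [Algebra B Q] [Algebra B k1]
    (e : k1) (he : Transcendental B e) (hgen : adjoin B {e} = ⊤) :
    ∃ (M : Type) (_ : Field M) (_ : Algebra Q M) (_ : Algebra k1 M) (α β : M),
      (∀ b : B, algebraMap Q M (algebraMap B Q b) = algebraMap k1 M (algebraMap B k1 b)) ∧
      AlgebraicIndependent Q (g3 (algebraMap k1 M e) α β) ∧
      adjoin Q (Set.range (g3 (algebraMap k1 M e) α β)) = ⊤ := by
  obtain ⟨M, fM, aM, v, hv, hvgen⟩ := M0E_pure 3 Q
  letI aB : Algebra B M := ((algebraMap Q M).comp (algebraMap B Q)).toAlgebra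
  haveI tB : IsScalarTower B Q M := IsScalarTower.of_algebraMap_eq' rfl
  have h0 : Transcendental B (v 0) :=
    (hv.transcendental 0).restrictScalars (algebraMap B Q).injective
  obtain ⟨φ, hφ⟩ := M0E_emb e he hgen (v 0) h0
  letI ak : Algebra k1 M := φ.toRingHom.toAlgebra
  have hak : algebraMap k1 M e = v 0 := hφ
  have hg : g3 (algebraMap k1 M e) (v 1) (v 2) = v := by
    rw [hak]
    funext i
    fin_cases i <;> rfl
  refine ⟨M, fM, aM, ak, v 1, v 2, fun b => (φ.commutes b).symm, ?_, ?_⟩
  · rw [hg]; exact hv
  · rw [hg]; exact hvgen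

end MP2619.Q6
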