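import Pool.Agent.Lib.MP_2619d0_ag.Q6.M6c
import Pool.Agent.Lib.MP_2619d0_ag.Q8.M0

/-!
Row q8-M6: the field of the path, the residue field at the main place
-/

set_option autoImplicit false

namespace MP2619.Q6

open scoped NNReal
open IntermediateField MP2619.R MP2619.N Pool.Agent.Lib.MP_2619d0_ag Pool.Agent.Lib.MP_2619d0_ag.T
  MP2619.Q5

/-- `v = g3 e α β`, `v' = Fin.cons α (Fin.cons β Fin.elim0)`, `Set.range v' = {α, β}`. `ind_cons` (R/A8): `v'` is algebraically independent over `Q` and `e` is transcendental over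
`adjoin Q (range v')`. `adjoin_adjoin_left` (see the end of `ind7`, Q6/M6c.lean) for the second claim. `a`, `b` = `α`, `β` as elements of `adjoin Q {α, β}`: `AlgebraicIndependent.of_comp`
(the inclusion), and `adjoin Q {a, b} = ⊤`: its image under the inclusion is `adjoin Q {α, β}`. -/
theorem facts8 {Q M : Type} [Field Q] [Field M] [Algebra Q M] (e α β : M)
    (hind : AlgebraicIndependent Q (g3 e α β)) (hgen : adjoin Q (Set.range (g3 e α β)) = ⊤) :
    Transcendental (adjoin Q ({α, β} : Set M)) e ∧
    adjoin (adjoin Q ({α, β} : Set M)) ({e} : Set M) = ⊤ ∧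
    ∀ a b : adjoin Q ({α, β} : Set M), (a : M) = α → (b : M) = β →
      AlgebraicIndependent Q ![a, b] ∧ adjoin Q {a, b} = ⊤ := by
  have hr : Set.range (Fin.cons α (Fin.cons β (Fin.elim0 : Fin 0 → M)) : Fin 2 → M) =
      ({α, β} : Set M) := by
    rw [Fin.range_cons, Fin.range_cons]
    simp
  have h1 := (ind_cons (k := Q) e (Fin.cons α (Fin.cons β (Fin.elim0 : Fin 0 → M)) : Fin 2 → M)).1
    hind
  rw [hr] at h1
  refine ⟨h1.2, ?_, ?_⟩
  · have h2 : Set.range (g3 e α β) = insert e ({α, β} : Set M) := by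
      unfold g3
      rw [Fin.range_cons, hr]
    have h3 : adjoin Q (Set.range (g3 e α β)) =
        (adjoin (adjoin Q ({α, β} : Set M)) ({e} : Set M)).restrictScalars Q := by
      rw [adjoin_adjoin_left, h2, Set.union_singleton]
    rw [hgen] at h3
    rw [eq_top_iff]
    intro y _
    have hy : y ∈ (⊤ : IntermediateField Q M) := mem_top
    rw [h3] at hy
    exact hy
  · intro a b ha hb
    constructor
    · refine AlgebraicIndependent.of_comp (adjoin Q ({α, β} : Set M)).val ?_
      have h4 : ((adjoin Q ({α, β} : Set M)).val ∘ ![a, b] : Fin 2 → M) =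
          (Fin.cons α (Fin.cons β (Fin.elim0 : Fin 0 → M)) : Fin 2 → M) := by
        funext i
        fin_cases i
        · exact ha
        · exact hb
      rw [h4]
      exact h1.1
    · apply IntermediateField.map_injective (adjoin Q ({α, β} : Set M)).val
      rw [adjoin_map, Set.image_pair, ← AlgHom.fieldRange_eq_map, IntermediateField.fieldRange_val]
      have ha' : (adjoin Q ({α, β} : Set M)).val a = α := ha
      have hb' : (adjoin Q ({α, β} : Set M)).val b = β := hb
      rw [ha', hb']

/-- `Q = B(T)`: everything in `Q(α, β)` is in `B(T, α, β)`. `adjoin_induction` for `Q`; for the constants: `algebraMap Q M q` is in the image of `adjoin B (range T) = ⊤`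
(`adjoin_map`, `IsScalarTower.toAlgHom B Q M`). -/
theorem adj8 {B Q M : Type} [Field B] [Field Q] [Field M] [Algebra B Q] [Algebra Q M]
    [Algebra B M] [IsScalarTower B Q M] {N : ℕ} (T : Fin N → Q)
    (hg : adjoin B (Set.range T) = ⊤) (α β : M) (b : M) (hb : b ∈ adjoin Q ({α, β} : Set M)) :
    b ∈ adjoin B (Set.range (fun j => algebraMap Q M (T j)) ∪ {α, β}) := by
  set L : IntermediateField B M :=
    adjoin B (Set.range (fun j => algebraMap Q M (T j)) ∪ {α, β}) with hL
  have hk : ∀ x : Q, algebraMap Q M x ∈ L := by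
    intro x
    have hx : x ∈ adjoin B (Set.range T) := by
      rw [hg]
      exact mem_top
    have hm : algebraMap Q M x ∈ (adjoin B (Set.range T)).map (IsScalarTower.toAlgHom B Q M) :=
      ⟨x, hx, rfl⟩
    rw [adjoin_map] at hm
    refine adjoin.mono B _ _ ?_ hm
    rintro _ ⟨_, ⟨j, rfl⟩, rfl⟩
    exact Or.inl ⟨j, rfl⟩
  let L' : IntermediateField Q M := { L.toSubfield with algebraMap_mem' := hk }
  have hle : adjoin Q ({α, β} : Set M) ≤ L' := by
    rw [adjoin_le_iff]
    intro y hy
    exact subset_adjoin B _ (Or.inr hy)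
  exact hle hb

/-- `adjoin B (range T)` in `M` is the image of `Q`, isomorphic to `Q` over `B`. -/
theorem trdeg_img8 {B Q M : Type} [Field B] [Field Q] [Field M] [Algebra B Q] [Algebra Q M]
    [Algebra B M] [IsScalarTower B Q M] {N : ℕ} (T : Fin N → Q) {m : ℕ}
    (h : Algebra.trdeg B Q ≤ m) :
    Algebra.trdeg B (adjoin B (Set.range fun j => algebraMap Q M (T j))) ≤ m := by
  have hle : adjoin B (Set.range fun j => algebraMap Q M (T j)) ≤
      (IsScalarTower.toAlgHom B Q M).fieldRange := by
    rw [adjoin_le_iff]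
    rintro _ ⟨j, rfl⟩
    exact ⟨T j, rfl⟩
  let g : adjoin B (Set.range fun j => algebraMap Q M (T j)) →ₐ[B] Q :=
    ((AlgEquiv.ofInjectiveField (IsScalarTower.toAlgHom B Q M)).symm.toAlgHom).comp
      (IntermediateField.inclusion hle)
  exact (_root_.trdeg_le_of_injective g g.injective).trans h

end MP2619.Q6
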