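import Pool.Agent.Lib.MP_2619d0_ag.Q8.TDefs

/-!
Row q8-M1: coordinates in which the torus is diagonal
-/

set_option autoImplicit false

namespace MP2619.Q6

open scoped NNReal
open IntermediateField MP2619.R MP2619.N Pool.Agent.Lib.MP_2619d0_ag Pool.Agent.Lib.MP_2619d0_ag.T
  MP2619.Q5

/-- `T = A⁻¹ p`, `A = Matrix.of (K.bd G)` mapped to `Q`: `T j = ∑ i, algebraMap B Q ((Matrix.of (K.bd G))⁻¹ j i) * p i`. The coordinates of `p` are `B`-linear combinations of those of
`T` and conversely. If the block `i` of `T` is zero then the block `i` of `pt (K.bd G) T = p` is zero (`K.bd G a j = 0` for `j` outside the block of `a`). -/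
theorem exists_S8 {n N s : ℕ} (K : Bk n N s) {B Q : Type} [Field B] [Field Q] [Algebra B Q]
    (G : Fin N → Fin N → B) (hdet : (Matrix.of (K.bd G)).det ≠ 0) (p : Fin N → Q) (hp : K.Nz p) :
    ∃ T : Fin N → Q, pt (K.bd G) T = p ∧ K.Nz T ∧
      adjoin B (Set.range T) = adjoin B (Set.range p) := by
  obtain ⟨T, hT⟩ : ∃ T : Fin N → Q,
      T = fun j => ∑ i, algebraMap B Q ((Matrix.of (K.bd G))⁻¹ j i) * p i := ⟨_, rfl⟩
  have h1 : ∀ v : Fin N → Q, pt (K.bd G) v =
      ((Matrix.of (K.bd G)).map (algebraMap B Q)).mulVec v := fun v => rfl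
  have h2 : T = (((Matrix.of (K.bd G))⁻¹).map (algebraMap B Q)).mulVec p := by
    rw [hT]
    rfl
  have h3 : pt (K.bd G) T = p := by
    rw [h1, h2, Matrix.mulVec_mulVec, ← Matrix.map_mul,
      Matrix.mul_nonsing_inv _ (Ne.isUnit hdet), Matrix.map_one _ (map_zero _) (map_one _),
      Matrix.one_mulVec]
  have hmem : ∀ i, p i = ∑ j, algebraMap B Q (K.bd G i j) * T j := fun i => by
    have h4 := congrFun h3 i
    rw [← h4]
    rfl
  refine ⟨T, h3, ?_, ?_⟩
  · intro i
    by_contra hcon
    push Not at hcon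
    obtain ⟨a, ha, hpa⟩ := hp i
    apply hpa
    rw [hmem a]
    refine Finset.sum_eq_zero fun j _ => ?_
    by_cases hj : K.bl j = i
    · rw [hcon j hj, mul_zero]
    · have h5 : K.bd G a j = 0 := by
        unfold Bk.bd
        rw [if_neg]
        intro h6
        exact hj (by rw [← h6, ha])
      rw [h5, map_zero, zero_mul]
  · apply le_antisymm
    · rw [adjoin_le_iff]
      rintro x ⟨j, rfl⟩
      rw [hT]
      exact sum_mem fun i _ => mul_mem (IntermediateField.algebraMap_mem _ _)
        (subset_adjoin B _ ⟨i, rfl⟩)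
    · rw [adjoin_le_iff]
      rintro x ⟨i, rfl⟩
      rw [hmem i]
      exact sum_mem fun j _ => mul_mem (IntermediateField.algebraMap_mem _ _)
        (subset_adjoin B _ ⟨j, rfl⟩)

end MP2619.Q6
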