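import Pool.Agent.Lib.MP_2619d0_ag.Q6.M11
import Pool.Agent.Lib.MP_2619d0_ag.Q8.M6

/-!
Row q8-M11: the data of the path
-/

set_option autoImplicit false

namespace MP2619.Q6

open scoped NNReal
open IntermediateField MP2619.R MP2619.N Pool.Agent.Lib.MP_2619d0_ag Pool.Agent.Lib.MP_2619d0_ag.T
  MP2619.Q5

private theorem M11E_mem {B M k1 : Type} [Field B] [Field M] [Field k1] [Algebra B M] [Algebra B k1]
    [Algebra k1 M] [IsScalarTower B k1 M] (e : k1) (hgk : adjoin B {e} = ⊤) (x : k1) :
    algebraMap k1 M x ∈ adjoin B ({algebraMap k1 M e} : Set M) := by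
  have hx : x ∈ adjoin B {e} := by
    rw [hgk]
    exact mem_top
  have hm : algebraMap k1 M x ∈ (adjoin B {e}).map (IsScalarTower.toAlgHom B k1 M) :=
    ⟨x, hx, rfl⟩
  rw [adjoin_map, Set.image_singleton] at hm
  exact hm

private theorem M11E_ind {n : ℕ} {B M k1 E : Type} [Field B] [Field M] [Field k1] [Field E]
    [Algebra B M] [Algebra B k1] [Algebra k1 M] [IsScalarTower B k1 M] [Algebra B E] [Algebra E M]
    [IsScalarTower B E M] (e : k1) (hgk : adjoin B {e} = ⊤)
    (ht : Transcendental E (algebraMap k1 M e)) (z0 : Fin n → E) (hz : AlgebraicIndependent B z0) :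
    AlgebraicIndependent k1 (fun i => algebraMap E M (z0 i)) := by
  have h1 : AlgebraicIndependent E (fun _ : PUnit.{1} => algebraMap k1 M e) := by
    rw [algebraicIndependent_unique_type_iff]
    exact ht
  have h2 : AlgebraicIndependent B (Sum.elim (fun _ : PUnit.{1} => algebraMap k1 M e)
      (algebraMap E M ∘ z0)) := AlgebraicIndependent.sumElim_comp hz h1
  have h3 : AlgebraicIndependent B (Sum.elim (algebraMap E M ∘ z0)
      (fun _ : PUnit.{1} => algebraMap k1 M e)) := by
    have h := h2.comp (Equiv.sumComm (Fin n) PUnit.{1}) (Equiv.sumComm (Fin n) PUnit.{1}).injective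
    have hfun : Sum.elim (fun _ : PUnit.{1} => algebraMap k1 M e) (algebraMap E M ∘ z0) ∘
        (Equiv.sumComm (Fin n) PUnit.{1}) =
        Sum.elim (algebraMap E M ∘ z0) (fun _ : PUnit.{1} => algebraMap k1 M e) := by
      funext i
      rcases i with i | i
      · rfl
      · rfl
    rwa [hfun] at h
  have h4 := (AlgebraicIndependent.sumElim_iff.1 h3).2
  rw [Set.range_const, ← IntermediateField.algebraicIndependent_adjoin_iff] at h4
  let f : k1 →+* adjoin B ({algebraMap k1 M e} : Set M) :=
    (algebraMap k1 M).codRestrict (adjoin B ({algebraMap k1 M e} : Set M)).toSubfield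
      (M11E_mem e hgk)
  exact AlgebraicIndependent.of_ringHom_of_comp_eq f (RingHom.id M) h4 f.injective (by
    ext x
    rfl)

private theorem M11E_fin {n : ℕ} {B M k1 E : Type} [Field B] [Field M] [Field k1] [Field E]
    [Algebra B M] [Algebra B k1] [Algebra k1 M] [IsScalarTower B k1 M] [Algebra B E] [Algebra E M]
    [IsScalarTower B E M] (e : k1) (hge : adjoin E ({algebraMap k1 M e} : Set M) = ⊤)
    (z0 : Fin n → E) (hz : Module.finrank (adjoin B (Set.range z0)) E ≠ 0) :
    Module.finrank (adjoin k1 (Set.range fun i => algebraMap E M (z0 i))) M ≠ 0 := by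
  set N : IntermediateField B E := adjoin B (Set.range z0) with hN
  set K : IntermediateField k1 M := adjoin k1 (Set.range fun i => algebraMap E M (z0 i)) with hK
  have hfd : FiniteDimensional N E := Module.finite_of_finrank_pos (Nat.pos_of_ne_zero hz)
  -- finitely generated
  have i1 : Algebra.EssFiniteType B N :=
    essFiniteType_iff.mpr (fg_adjoin_of_finite (Set.finite_range z0))
  have i2 : Algebra.EssFiniteType B E := Algebra.EssFiniteType.comp B N E
  have i4 : Algebra.EssFiniteType E M := by
    rw [← fg_top_iff, ← hge]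
    exact fg_adjoin_of_finite (Set.finite_singleton _)
  have i5 : Algebra.EssFiniteType B M := Algebra.EssFiniteType.comp B E M
  have i5' : Algebra.EssFiniteType k1 M := Algebra.EssFiniteType.of_comp B k1 M
  have i6 : Algebra.EssFiniteType K M := Algebra.EssFiniteType.of_comp k1 K M
  -- the elements of `N` are in `K`
  have hNK : ∀ x : N, algebraMap E M (x : E) ∈ K := by
    let T : IntermediateField B E := (K.toSubfield.comap (algebraMap E M)).toIntermediateField
      (fun b => by
        change algebraMap E M (algebraMap B E b) ∈ K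
        rw [← IsScalarTower.algebraMap_apply B E M, IsScalarTower.algebraMap_apply B k1 M]
        exact K.algebraMap_mem _)
    have hT : N ≤ T := by
      rw [hN, adjoin_le_iff]
      rintro _ ⟨i, rfl⟩
      change algebraMap E M (z0 i) ∈ K
      exact subset_adjoin k1 _ ⟨i, rfl⟩
    intro x
    exact hT x.2
  let g : N →+* K := ((algebraMap E M).comp (algebraMap N E)).codRestrict K.toSubfield hNK
  have hE : ∀ x : E, IsAlgebraic K (algebraMap E M x) := by
    intro x
    obtain ⟨p, hp0, hp⟩ := Algebra.IsAlgebraic.isAlgebraic (R := N) x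
    refine ⟨p.map g, (Polynomial.map_ne_zero_iff g.injective).2 hp0, ?_⟩
    rw [Polynomial.aeval_def, Polynomial.eval₂_map]
    have h : (algebraMap K M).comp g = (algebraMap E M).comp (algebraMap N E) := rfl
    rw [h, ← Polynomial.hom_eval₂, ← Polynomial.aeval_def, hp, map_zero]
  have halg : ∀ x : M, IsAlgebraic K x := by
    let A : IntermediateField K M := algebraicClosure K M
    let T : IntermediateField E M := A.toSubfield.toIntermediateField (fun x => by
      change algebraMap E M x ∈ algebraicClosure K M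
      rw [mem_algebraicClosure_iff]
      exact hE x)
    have hT : adjoin E ({algebraMap k1 M e} : Set M) ≤ T := by
      rw [adjoin_le_iff, Set.singleton_subset_iff]
      change algebraMap k1 M e ∈ algebraicClosure K M
      rw [mem_algebraicClosure_iff]
      exact isAlgebraic_algebraMap (⟨algebraMap k1 M e, K.algebraMap_mem e⟩ : K)
    intro x
    rw [hge] at hT
    have hx : x ∈ T := hT mem_top
    exact mem_algebraicClosure_iff.1 hx
  have : Algebra.IsAlgebraic K M := ⟨halg⟩
  have hfd2 : Module.Finite K M := Algebra.finite_of_essFiniteType_of_isAlgebraic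
  exact (Module.finrank_pos).ne'

/-- `E = adjoin Q {α, β}`; `e` is transcendental over `E`, `M = E(e)` (`facts8`); `hz`: `z0` is algebraically independent over `B` and `E` is finite over `B(z0)`. (1) `e` is transcendental
over `E ⊇ B(z0)`, so `(e, z0)` is algebraically independent over `B` (`ind_cons`), so `z0` is algebraically independent over `B(e)`, which is the image of `k1`.
(2) A finite basis `b` of `E` over `B(z0)`: its span `W` over `k1(z0)` is closed under multiplication (products of the `b i` are in `E`), contains `E` and `e`, so it is a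
finite-dimensional domain over a field, a field, `W = M` (see step (4) of `pr_descend`, Q5/L1c.lean, or Mathlib `LinearDisjoint`/`adjoin_rank` as in Q5/E5d). -/
theorem fg8 {n : ℕ} {B Q M k1 : Type} [Field B] [Field Q] [Field M] [Field k1] [Algebra B Q]
    [Algebra Q M] [Algebra B M] [IsScalarTower B Q M] [Algebra B k1] [Algebra k1 M]
    [IsScalarTower B k1 M] (e : k1) (hgk : adjoin B {e} = ⊤) (α β : M)
    (hind : AlgebraicIndependent Q (g3 (algebraMap k1 M e) α β))
    (hgen : adjoin Q (Set.range (g3 (algebraMap k1 M e) α β)) = ⊤)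
    (z0 : Fin n → adjoin Q ({α, β} : Set M)) (hz : Pr B z0) :
    AlgebraicIndependent k1 (fun i => (z0 i : M)) ∧
      Module.finrank (adjoin k1 (Set.range fun i => (z0 i : M))) M ≠ 0 := by
  obtain ⟨ht, hge, -⟩ := facts8 (algebraMap k1 M e) α β hind hgen
  obtain ⟨hz1, hz2⟩ := hz
  have hz3 : Module.finrank (adjoin B (Set.range z0)) (adjoin Q ({α, β} : Set M)) ≠ 0 := by
    intro h
    rw [h] at hz2
    exact absurd hz2 (by decide)
  have hst : IsScalarTower B (adjoin Q ({α, β} : Set M)) M :=
    IsScalarTower.of_algebraMap_eq fun b => rfl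
  exact ⟨M11E_ind e hgk ht z0 hz1, M11E_fin e hge z0 hz3⟩

/-- as `dat_path` (Q6/M11), with `fg8` -/
theorem dat8 {m : ℕ} {F : MvPolynomial (Fin (m + 2)) ℂ} {J : Type} {z : Exp3 (m + 2) ⊕ J → ℂ}
    (k1 : IntermediateField (Qz z) ℂ) (hk1 : FiniteDimensional (Qz z) k1) (w : k1)
    (hw : w ^ 2 + w + 1 = 0) {k0 B Q M : Type} [Field k0] [Field B] [Field Q] [Field M]
    [Algebra k0 k1] [Algebra k1 M] [Algebra k0 M] [IsScalarTower k0 k1 M] [Algebra B Q]
    [Algebra Q M] [Algebra B M] [IsScalarTower B Q M] [Algebra B k1] [IsScalarTower B k1 M]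
    (F0 : MvPolynomial (Fin (m + 2)) k0)
    (hF0 : MvPolynomial.map ((algebraMap k1 ℂ).comp (algebraMap k0 k1)) F0 = F)
    (e : k1) (hgk : adjoin B {e} = ⊤) (α β : M)
    (hind : AlgebraicIndependent Q (g3 (algebraMap k1 M e) α β))
    (hgen : adjoin Q (Set.range (g3 (algebraMap k1 M e) α β)) = ⊤)
    (z0 : Fin (m + 2) → adjoin Q ({α, β} : Set M)) (hz : Pr B z0)
    (x y : Fin (m + 2) → M) (hx : MvPolynomial.aeval x F0 = 0)
    (hy : MvPolynomial.aeval y F0 = 0) : Dat F z k1 w x y where
  fin := hk1
  om := hw
  eqs := ⟨MvPolynomial.map (algebraMap k0 k1) F0, by rw [MvPolynomial.map_map, hF0],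
    by rw [MvPolynomial.aeval_map_algebraMap, hx], by rw [MvPolynomial.aeval_map_algebraMap, hy]⟩
  fg := ⟨fun i => (z0 i : M), fg8 e hgk α β hind hgen z0 hz⟩

end MP2619.Q6
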