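import Pool.Agent.Lib.MP_2619d0_ag.Q7.T5

/-!
Row q8-U2: the three supports
-/

set_option autoImplicit false

namespace MP2619.Q6

open scoped NNReal
open IntermediateField MP2619.R MP2619.N Pool.Agent.Lib.MP_2619d0_ag Pool.Agent.Lib.MP_2619d0_ag.T
  MP2619.Q5

private theorem U2_eq {n N s : ℕ} (K : Bk n N s) (r : Fin s → ℕ) :
    (Finset.univ.filter fun j => K.wt j = r (K.bl j)).card ≤ s := by
  classical
  have h4 : (Finset.univ.filter fun j => K.wt j = r (K.bl j)).card ≤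
      (Finset.univ : Finset (Fin s)).card := by
    refine Finset.card_le_card_of_injOn K.bl (fun _ _ => Finset.mem_coe.2 (Finset.mem_univ _)) ?_
    intro a ha b hb hab
    rw [Finset.mem_coe, Finset.mem_filter] at ha hb
    refine K.inj a b hab ?_
    rw [ha.2, hb.2, hab]
  rwa [Finset.card_univ, Fintype.card_fin] at h4

/-- `|{wt ≤ r1}| + |{r1 ≤ wt ≤ r2}| + |{r2 ≤ wt}| ≤ N + |{wt = r1}| + |{wt = r2}| ≤ N + 2 s`. -/
theorem supp_card3 {n N s m : ℕ} (K : Bk n N s) (r1 r2 : Fin s → ℕ) (h12 : ∀ i, r1 i ≤ r2 i)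
    (h0 : N ≤ (Finset.univ.filter fun j => r1 (K.bl j) ≤ K.wt j ∧ K.wt j ≤ r2 (K.bl j)).card + m)
    (E : ℕ) (hE : m ≤ 2 * E) :
    (Finset.univ.filter fun j => K.wt j ≤ r1 (K.bl j)).card ≤ E + s ∨
      (Finset.univ.filter fun j => r2 (K.bl j) ≤ K.wt j).card ≤ E + s := by
  classical
  have h1 := U2_eq K r1
  have h2 := U2_eq K r2
  have h3 : (Finset.univ.filter fun j => K.wt j ≤ r1 (K.bl j)).card +
      (Finset.univ.filter fun j => r1 (K.bl j) ≤ K.wt j ∧ K.wt j ≤ r2 (K.bl j)).card +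
      (Finset.univ.filter fun j => r2 (K.bl j) ≤ K.wt j).card ≤
      N + (Finset.univ.filter fun j => K.wt j = r1 (K.bl j)).card +
        (Finset.univ.filter fun j => K.wt j = r2 (K.bl j)).card := by
    have hN : (∑ _j : Fin N, 1) = N := by simp
    have h5 : ∑ j : Fin N, ((if K.wt j ≤ r1 (K.bl j) then 1 else 0) +
        (if r1 (K.bl j) ≤ K.wt j ∧ K.wt j ≤ r2 (K.bl j) then 1 else 0) +
        (if r2 (K.bl j) ≤ K.wt j then 1 else 0)) ≤
        ∑ j : Fin N, (1 + (if K.wt j = r1 (K.bl j) then 1 else 0) +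
        (if K.wt j = r2 (K.bl j) then 1 else 0)) := by
      refine Finset.sum_le_sum fun j _ => ?_
      have h4 := h12 (K.bl j)
      split_ifs <;> omega
    simp only [Finset.sum_add_distrib, hN] at h5
    simp only [Finset.card_filter]
    exact h5
  omega

end MP2619.Q6
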