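import Pool.Agent.Lib.MP_2619d0_ag.Q5.G1
import Pool.Agent.Lib.MP_2619d0_ag.Q7.T21
import Pool.Agent.Lib.MP_2619d0_ag.Q7.T22a
import Pool.Agent.Lib.MP_2619d0_ag.Q8.U1
import Pool.Agent.Lib.MP_2619d0_ag.Q8.U2

/-!
Row q8-U3: the torus path at infinity
-/

set_option autoImplicit false

namespace MP2619.Q6

open scoped NNReal
open IntermediateField MP2619.R MP2619.N Pool.Agent.Lib.MP_2619d0_ag Pool.Agent.Lib.MP_2619d0_ag.T
  MP2619.Q5

variable {k0 B M L : Type} [Field k0] [Field B] [Field M] [Field L] [Algebra k0 B] [Algebra k0 M]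
  [Algebra k0 L] [Algebra B M] [Algebra B L] [IsScalarTower k0 B M] [IsScalarTower k0 B L]
  {P : ValuationSubring M} {φ : P →+* L} {m n N s : ℕ}

private theorem U3_mono {B L : Type} [Field B] [Field L] [Algebra B L]
    {E F : IntermediateField B L} (h : E ≤ F) : Algebra.trdeg B E ≤ Algebra.trdeg B F :=
  trdeg_le_of_injective (IntermediateField.inclusion h)
    (IntermediateField.inclusion_injective h)

/-- the quotient of residues is a residue of the quotient -/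
private theorem U3_quot {k M L : Type} [Field k] [Field M] [Field L] [Algebra k M] [Algebra k L]
    {P : ValuationSubring M} {φ : P →+* L} (rm : RMap k P φ) (a b : P) (hb : φ b ≠ 0) :
    ∃ c : P, (c : M) = (a : M) / (b : M) ∧ φ c = φ a / φ b := by
  have hb1 : P.valuation (b : M) = 1 :=
    le_antisymm (P.valuation_le_one b) (not_lt.1 fun h => hb ((rm.zero b).2 h))
  have hb0 : (b : M) ≠ 0 := by
    intro h
    rw [h, map_zero] at hb1
    exact zero_ne_one hb1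
  have hm : (a : M) / (b : M) ∈ P := by
    rw [← ValuationSubring.valuation_le_one_iff, map_div₀, hb1, div_one]
    exact P.valuation_le_one a
  refine ⟨⟨(a : M) / (b : M), hm⟩, rfl, ?_⟩
  rw [eq_div_iff hb, ← map_mul]
  congr 1
  apply Subtype.ext
  exact div_mul_cancel₀ (a : M) hb0

private theorem U3_cnt (K : Bk n N s) (G : Fin N → Fin N → B)
    (hG : AlgebraicIndependent k0 (fun q : Fin N × Fin N => G q.1 q.2))
    (rm0 : RMap k0 P φ) (rm : RMap B P φ) (T : Fin N → M) (l : Fin s → M) (hl : ∀ i, l i ≠ 0)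
    (U : Fin N → P) (hT : ∀ j, T j = l (K.bl j) * (U j : M)) (J : Fin s → Fin N)
    (hJb : ∀ i, K.bl (J i) = i)
    (hJ : ∀ i, φ (U (J i)) ≠ 0) (dd : ℕ)
    (htr : Algebra.trdeg k0 (K.rt k0 (pt (K.bd G) T)) ≤ dd) (S : Finset (Fin N))
    (h0 : ∀ j, j ∉ S → φ (U j) = 0) :
    ∃ δ : ℕ, Algebra.trdeg B
      (adjoin B ((resI rm0 (K.rt k0 (pt (K.bd G) T)) : IntermediateField k0 L) : Set L)) ≤ δ ∧
      δ + N ≤ S.card + dd := by
  obtain ⟨q, hqM, hqN⟩ : ∃ q : Fin N → P,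
      (∀ i, (q i : M) = pt (K.bd G) (fun j => (U j : M)) i) ∧
      ∀ i, φ (q i) = pt (K.bd G) (fun j => φ (U j)) i := by
    choose q h1 h2 using fun i => pt_res rm (K.bd G) U i
    exact ⟨q, h1, h2⟩
  have hp : ∀ i, pt (K.bd G) T i = l (K.bl i) * (q i : M) := by
    intro i
    have h1 : T = fun j => l (K.bl j) * (U j : M) := funext hT
    rw [h1, K.pt_bsmul G l (fun j => (U j : M)), hqM]
  have hK : Algebra.trdeg k0 (resI rm0 (K.rt k0 (pt (K.bd G) T))) ≤ dd :=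
    trdeg_resI rm0 (K.rt k0 (pt (K.bd G) T)) dd htr
  have hc : K.Nz (fun j => φ (U j)) := fun i => ⟨J i, hJb i, hJ i⟩
  have hP0 : K.Nz (pt (K.bd G) (fun j => φ (U j))) := pt_neB K G hG _ hc
  have hr : ∀ i j, K.bl i = K.bl j →
      pt (K.bd G) (fun j => φ (U j)) i / pt (K.bd G) (fun j => φ (U j)) j ∈
      resI rm0 (K.rt k0 (pt (K.bd G) T)) := by
    intro i j hij
    by_cases hj : pt (K.bd G) (fun j => φ (U j)) j = 0
    · rw [hj, div_zero]
      exact (resI rm0 (K.rt k0 (pt (K.bd G) T))).zero_mem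
    · rw [← hqN j] at hj
      obtain ⟨a, ha1, ha2⟩ := U3_quot rm0 (q i) (q j) hj
      rw [mem_resI]
      refine ⟨a, ?_, ?_⟩
      · have h1 : (a : M) = pt (K.bd G) T i / pt (K.bd G) T j := by
          rw [ha1, hp i, hp j, hij, mul_div_mul_left _ _ (hl _)]
        rw [h1]
        exact K.div_mem_rt _ _ _ hij
      · rw [ha2, hqN i, hqN j]
  exact GPC K (resI rm0 (K.rt k0 (pt (K.bd G) T))) dd hK G hG (fun j => φ (U j)) hP0 hr S h0

private theorem U3_main (K : Bk n N s) (f : Fin (m + 2) → MvPolynomial (Fin N) k0)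
    {d : Fin s → ℕ} (hd : ∀ i, K.MH (f i) d) (G : Fin N → Fin N → B)
    (hG : AlgebraicIndependent k0 (fun q : Fin N × Fin N => G q.1 q.2))
    (rm0 : RMap k0 P φ) (rm : RMap B P φ) (T : Fin N → M) (l : Fin s → M) (hl : ∀ i, l i ≠ 0)
    (U : Fin N → P) (hT : ∀ j, T j = l (K.bl j) * (U j : M)) (J : Fin s → Fin N)
    (hJb : ∀ i, K.bl (J i) = i)
    (hJ : ∀ i, φ (U (J i)) ≠ 0) (E : ℕ) (S : Finset (Fin N)) (hS : S.card ≤ E + s)
    (h0 : ∀ j, j ∉ S → φ (U j) = 0) (γ : M) (z : Fin (m + 2) → P)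
    (hz : ∀ i, (z i : M) = γ * fe f (pt (K.bd G) T) i) :
    Algebra.trdeg B (rat B (fun i => φ (z i))) ≤ E := by
  obtain ⟨δ, h2, h3⟩ := U3_cnt K G hG rm0 rm T l hl U hT J hJb hJ n
    (K.trdeg_rt_le (pt (K.bd G) T)) S h0
  have h4 := K.card
  have h5 : (δ : Cardinal) ≤ (E : Cardinal) := by
    have : δ ≤ E := by omega
    exact_mod_cast this
  refine ((U3_mono ?_).trans h2).trans h5
  refine (rat_base (k0 := k0) fun i => φ (z i)).trans (adjoin.mono B _ _ ?_)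
  have hE : rat k0 (fun i => (z i : M)) ≤ K.rt k0 (pt (K.bd G) T) := by
    have h3 : (fun i => (z i : M)) = fun i => γ * fe f (pt (K.bd G) T) i := funext hz
    rw [h3]
    exact (rat_smul_le γ (fe f (pt (K.bd G) T))).trans (K.rat_fe_le f hd (pt (K.bd G) T))
  exact rat_resI rm0 z (K.rt k0 (pt (K.bd G) T)) hE

/-- the vector normalised in every block -/
private theorem U3_norm (K : Bk n N s) (rm : RMap B P φ) (T : Fin N → M) (hT : K.Nz T) :
    ∃ (l : Fin s → M) (U : Fin N → P) (J : Fin s → Fin N), (∀ i, l i ≠ 0) ∧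
      (∀ j, T j = l (K.bl j) * (U j : M)) ∧ (∀ i, K.bl (J i) = i) ∧ ∀ i, φ (U (J i)) ≠ 0 := by
  obtain ⟨J, hJb, hJ0, hP⟩ := K.exists_nm P T hT
  refine ⟨fun i => T (J i), fun j => ⟨K.nm J T j, hP j⟩, J, hJ0, ?_, hJb, ?_⟩
  · intro j
    exact (K.nm_mul J T hJ0 j).symm
  · intro i
    have h1 : (⟨K.nm J T (J i), hP (J i)⟩ : P) = 1 := Subtype.ext (K.nm_J J hJb T hJ0 i)
    show φ ⟨K.nm J T (J i), hP (J i)⟩ ≠ 0
    rw [h1, map_one]
    exact one_ne_zero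

/-- The path at infinity. `T' = D⁻¹ S`, `S`, `D S` have the supports `A'`, `A0`, `A` of the residues; `A' ≤ A0 ≤ A` (`supp_infB` for `(T', S)` and
`(S, D S)`), `|A0| ≥ N - m` (`U3_cnt` with `dd = m`), so one of `|A'|`, `|A|` is at most `E + s` (`supp_card3`). -/
theorem path_inf8 (K : Bk n N s) (f : Fin (m + 2) → MvPolynomial (Fin N) k0) {d : Fin s → ℕ}
    (hd : ∀ i, K.MH (f i) d) (G : Fin N → Fin N → B)
    (hG : AlgebraicIndependent k0 (fun q : Fin N × Fin N => G q.1 q.2))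
    (rm0 : RMap k0 P φ) (rm : RMap B P φ) (ε h : M) (hε0 : ε ≠ 0)
    (hh : (1 + h) * (1 + ε) = 1)
    (hε : P.valuation ε⁻¹ < 1) (T : Fin N → M) (hT : K.Nz T)
    (htr : Algebra.trdeg k0 (K.rt k0 (pt (K.bd G) T)) ≤ m) (α β : M) (x y : Fin (m + 2) → P)
    (hx : ∀ i, (x i : M) = α * fe f (pt (K.bd G) (K.dg h T)) i)
    (hy : ∀ i, (y i : M) = β * fe f (pt (K.bd G) (K.dg ε T)) i) (E : ℕ) (hE : m ≤ 2 * E) :
    Algebra.trdeg B (rat B (fun i => φ (x i))) ≤ E ∨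
      Algebra.trdeg B (rat B (fun i => φ (y i))) ≤ E := by
  have hh1 : 1 + h ≠ 0 := left_ne_zero_of_mul_eq_one hh
  have hε1 : 1 + ε ≠ 0 := right_ne_zero_of_mul_eq_one hh
  have hNz : ∀ e : M, 1 + e ≠ 0 → K.Nz (K.dg e T) := by
    intro e he i
    obtain ⟨j, hj, hj0⟩ := hT i
    exact ⟨j, hj, mul_ne_zero (pow_ne_zero _ he) hj0⟩
  obtain ⟨l1, U1, J1, hl1, hU1, hJb1, hJ1⟩ := U3_norm K rm (K.dg h T) (hNz h hh1)
  obtain ⟨l0, U0, J0, hl0, hU0, hJb0, hJ0⟩ := U3_norm K rm T hT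
  obtain ⟨l2, U2, J2, hl2, hU2, hJb2, hJ2⟩ := U3_norm K rm (K.dg ε T) (hNz ε hε1)
  obtain ⟨r1, hr1, hr1'⟩ := supp_infB (φ := φ) rm.zero K ε (fun i => l0 i / l1 i)
    (fun i => div_ne_zero (hl0 i) (hl1 i)) hε hε0 U1 U0 (fun j => by
      have h1 : K.dg h T j = (1 + h) ^ (K.wt j) * T j := rfl
      rw [hU1 j, hU0 j] at h1
      show l0 (K.bl j) / l1 (K.bl j) * (U0 j : M) = _
      rw [div_mul_eq_mul_div, div_eq_iff (hl1 _)]
      have h2 : (1 + ε) ^ (K.wt j) * (U1 j : M) * l1 (K.bl j) =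
          (1 + ε) ^ (K.wt j) * (l1 (K.bl j) * (U1 j : M)) := by ring
      rw [h2, h1, ← mul_assoc, ← mul_pow, mul_comm (1 + ε), hh, one_pow, one_mul])
  obtain ⟨r2, hr2, hr2'⟩ := supp_infB (φ := φ) rm.zero K ε (fun i => l2 i / l0 i)
    (fun i => div_ne_zero (hl2 i) (hl0 i)) hε hε0 U0 U2 (fun j => by
      have h1 : K.dg ε T j = (1 + ε) ^ (K.wt j) * T j := rfl
      rw [hU2 j, hU0 j] at h1
      show l2 (K.bl j) / l0 (K.bl j) * (U2 j : M) = _
      rw [div_mul_eq_mul_div, div_eq_iff (hl0 _), h1]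
      ring)
  obtain ⟨δ, -, hδ⟩ := U3_cnt K G hG rm0 rm T l0 hl0 U0 hU0 J0 hJb0 hJ0 m htr
    (Finset.univ.filter fun j => r1 (K.bl j) ≤ K.wt j ∧ K.wt j ≤ r2 (K.bl j)) (by
      intro j hj
      by_contra h2
      exact hj (Finset.mem_filter.2 ⟨Finset.mem_univ j, hr1' j h2, hr2 j h2⟩))
  have h12 : ∀ i, r1 i ≤ r2 i := by
    intro i
    have h1 := hr1' _ (hJ0 i)
    have h2 := hr2 _ (hJ0 i)
    rw [hJb0] at h1 h2
    exact h1.trans h2
  rcases supp_card3 K r1 r2 h12 (by omega) E hE with h3 | h3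
  · left
    refine U3_main K f hd G hG rm0 rm (K.dg h T) l1 hl1 U1 hU1 J1 hJb1 hJ1 E
      (Finset.univ.filter fun j => K.wt j ≤ r1 (K.bl j)) h3 ?_ α x hx
    intro j hj
    by_contra h2
    exact hj (Finset.mem_filter.2 ⟨Finset.mem_univ j, hr1 j h2⟩)
  · right
    refine U3_main K f hd G hG rm0 rm (K.dg ε T) l2 hl2 U2 hU2 J2 hJb2 hJ2 E
      (Finset.univ.filter fun j => r2 (K.bl j) ≤ K.wt j) h3 ?_ β y hy
    intro j hj
    by_contra h2
    exact hj (Finset.mem_filter.2 ⟨Finset.mem_univ j, hr2' j h2⟩)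

end MP2619.Q6
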