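import Pool.Agent.Lib.MP_2619d0_ag.Q8.TDefs

/-!
# Theorem Q8: the source over all small fields of constants
-/

set_option autoImplicit false

namespace MP2619.Q6

open IntermediateField MP2619.R MP2619.N Pool.Agent.Lib.MP_2619d0_ag Pool.Agent.Lib.MP_2619d0_ag.T
  MP2619.Q5

/-- The point of the source exists over all fields `k0 ≤ B ≤ ℂ` which contain a finite set `cof` of constants. -/
def Bk.SrcAll {m n N s : ℕ} (K : Bk n N s) (f : Fin (m + 2) → MvPolynomial (Fin N) ℂ) : Prop :=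
  ∀ w : ℂ, w ^ 2 + w + 1 = 0 → ∃ cof : Set ℂ, cof.Finite ∧ ∀ (k0 B : Type) [Field k0] [Field B]
    [Algebra k0 B] [Algebra B ℂ] [Algebra k0 ℂ] [IsScalarTower k0 B ℂ],
    (∀ c ∈ cof, ∃ b : k0, algebraMap k0 ℂ b = c) →
    ∀ (f0 : Fin (m + 2) → MvPolynomial (Fin N) k0),
      (∀ i, MvPolynomial.map (algebraMap k0 ℂ) (f0 i) = f i) →
    ∀ (wB : B), algebraMap B ℂ wB = w →
    ∃ (Q : Type) (_ : Field Q) (_ : Algebra k0 Q) (_ : Algebra B Q) (_ : IsScalarTower k0 B Q)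
      (p : Fin N → Q), K.Src f0 wB p

end MP2619.Q6
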