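import Pool.Agent.Lib.MP_2619d0_ag.Q6.L3
import Pool.Agent.Lib.MP_2619d0_ag.Q6.L6
import Pool.Agent.Lib.MP_2619d0_ag.TTop

/-!
Row q8-L8a: the form of a generic point is prime
-/

set_option autoImplicit false

namespace MP2619.Q6

open MvPolynomial MP2619.R MP2619.N Pool.Agent.Lib.MP_2619d0_ag
  Pool.Agent.Lib.MP_2619d0_ag.T MP2619.T MP2619.Q5

universe u

private theorem L8a_eval {n k : ℕ} {G : MvPolynomial (Fin n) ℂ} (hG : G.IsHomogeneous k)
    {L : Type u} [Field L] [Algebra ℂ L] (x : Fin n → L) :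
    aeval (fun i => (Polynomial.X : Polynomial L) * Polynomial.C (x i)) G =
      Polynomial.X ^ k * Polynomial.C (aeval x G) := by
  rw [aeval_smul_hom hG]
  congr 1
  have h := MvPolynomial.aeval_algebraMap_apply (Polynomial L) x G
  simp only [Polynomial.algebraMap_eq] at h
  exact h

private theorem L8a_coeff {n : ℕ} (G : MvPolynomial (Fin n) ℂ)
    {L : Type u} [Field L] [Algebra ℂ L] (x : Fin n → L) (d : ℕ)
    (hd : d ∈ Finset.range (G.totalDegree + 1))
    (h : aeval (fun i => (Polynomial.X : Polynomial L) * Polynomial.C (x i)) G = 0) :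
    aeval x (homogeneousComponent d G) = 0 := by
  have h3 : ∑ i ∈ Finset.range (G.totalDegree + 1),
      (Polynomial.X : Polynomial L) ^ i * Polynomial.C (aeval x (homogeneousComponent i G)) = 0 := by
    rw [← h]
    conv_rhs => rw [← MvPolynomial.sum_homogeneousComponent G]
    rw [map_sum]
    refine Finset.sum_congr rfl fun i _ => ?_
    rw [L8a_eval (homogeneousComponent_isHomogeneous i G)]
  have h5 := congrArg (fun q : Polynomial L => q.coeff d) h3
  simp only [Polynomial.finsetSum_coeff, Polynomial.coeff_zero] at h5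
  rw [Finset.sum_eq_single d] at h5
  · rw [Polynomial.coeff_mul_C, Polynomial.coeff_X_pow, if_pos rfl, one_mul] at h5
    exact h5
  · intro i _ hi
    rw [Polynomial.coeff_mul_C, Polynomial.coeff_X_pow, if_neg (Ne.symm hi), zero_mul]
  · intro h6
    exact absurd hd h6

/-- Let `Ψ : MvPolynomial (Fin (D + 4)) ℂ →ₐ[ℂ] Polynomial L`, `X i ↦ C (x i) * X`. For `G` homogeneous of degree `k`,
`Ψ G = C (aeval x G) * X ^ k`; so the coefficient of `X ^ k` in `Ψ G` is `aeval x (homogeneousComponent k G)` for every `G`, and by `HG`: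
`Ψ G = 0 ↔ F ∣ G` (`→`: `sum_homogeneousComponent`, as in `st_hdom` in TOdd; `←`: `Ψ F = C (aeval x F) * X ^ 3 = 0`). The rest as at the end of `prime_F` (Q6/L3). -/
theorem prime_HG {D : ℕ} {F : MvPolynomial (Fin (D + 4)) ℂ} (hF : VG F) {L : Type u} [Field L]
    [Algebra ℂ L] (x : Fin (D + 4) → L) (hx : HG F x) : Prime F := by
  have key : ∀ G : MvPolynomial (Fin (D + 4)) ℂ,
      aeval (fun i => (Polynomial.X : Polynomial L) * Polynomial.C (x i)) G = 0 ↔ F ∣ G := by
    intro G
    constructor
    · intro h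
      rw [← MvPolynomial.sum_homogeneousComponent G]
      refine Finset.dvd_sum fun d hd => ?_
      exact (hx d _ (homogeneousComponent_isHomogeneous d G)).1 (L8a_coeff G x d hd h)
    · rintro ⟨H, rfl⟩
      rw [map_mul, L8a_eval hF.1, (hx 3 F hF.1).2 dvd_rfl, map_zero, mul_zero, zero_mul]
  refine ⟨?_, ?_, ?_⟩
  · intro h
    exact coeff_three hF 0 (by rw [h, coeff_zero])
  · intro hu
    have h1 := (key 1).2 hu.dvd
    rw [map_one] at h1
    exact one_ne_zero h1
  · intro G H h
    rw [← key, ← key, ← mul_eq_zero, ← map_mul, key]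
    exact h

end MP2619.Q6
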