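import Pool.Agent.Lib.MP_2619d0_ag.Q5.L2c
import Pool.Agent.Lib.MP_2619d0_ag.Q6.L2b
import Pool.Agent.Lib.MP_2619d0_ag.Q7.L7
import Pool.Agent.Lib.MP_2619d0_ag.Q7.T6

/-!
Row q8-L8b: a model of the field of a point in Type
-/

set_option autoImplicit false

namespace MP2619.Q6

open MvPolynomial MP2619.R MP2619.N Pool.Agent.Lib.MP_2619d0_ag
  Pool.Agent.Lib.MP_2619d0_ag.T MP2619.T MP2619.Q5

universe u

/-- `S = MvPolynomial (Fin N) ℂ ⧸ RingHom.ker (aeval p)`, `Q = FractionRing S`, `ι` = the lift of `Ideal.kerLiftAlg` (injective), `p' j` = the class of `X j`. -/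
theorem exists_model {N : ℕ} {L : Type u} [Field L] [Algebra ℂ L] (p : Fin N → L) :
    ∃ (Q : Type) (_ : Field Q) (_ : Algebra ℂ Q) (ι : Q →ₐ[ℂ] L) (p' : Fin N → Q),
      (∀ j, ι (p' j) = p j) ∧ IntermediateField.adjoin ℂ (Set.range p') = ⊤ := by
  let g : MvPolynomial (Fin N) ℂ →ₐ[ℂ] L := aeval p
  have hP : (RingHom.ker g).IsPrime := RingHom.ker_isPrime g
  have hdom : IsDomain (MvPolynomial (Fin N) ℂ ⧸ RingHom.ker g) := Ideal.Quotient.isDomain _
  let h : (MvPolynomial (Fin N) ℂ ⧸ RingHom.ker g) →ₐ[ℂ] L := Ideal.kerLiftAlg g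
  have hinj : Function.Injective h := Ideal.kerLiftAlg_injective g
  let S := MvPolynomial (Fin N) ℂ ⧸ RingHom.ker g
  let ι : FractionRing S →ₐ[ℂ] L := IsFractionRing.liftAlgHom (K := FractionRing S) hinj
  have hι : ∀ a : S, ι (algebraMap S (FractionRing S) a) = h a := fun a =>
    IsFractionRing.lift_algebraMap hinj a
  refine ⟨FractionRing S, inferInstance, inferInstance, ι,
    fun j => algebraMap S _ (Ideal.Quotient.mk _ (X j)), fun j => ?_, ?_⟩
  · rw [hι]
    change Ideal.kerLiftAlg g (Ideal.Quotient.mk _ (X j)) = p j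
    rw [Ideal.kerLiftAlg_mk]
    exact aeval_X _ _
  · set v : Fin N → FractionRing S := fun j => algebraMap S _ (Ideal.Quotient.mk _ (X j)) with hv
    have h1 : ∀ a : MvPolynomial (Fin N) ℂ,
        algebraMap S (FractionRing S) (Ideal.Quotient.mk _ a) ∈
          IntermediateField.adjoin ℂ (Set.range v) := by
      intro a
      induction a using MvPolynomial.induction_on with
      | C c =>
        have h2 : algebraMap S (FractionRing S) (Ideal.Quotient.mk _ (C c)) =
            algebraMap ℂ (FractionRing S) c := by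
          rw [IsScalarTower.algebraMap_apply ℂ S (FractionRing S)]
          rfl
        rw [h2]
        exact IntermediateField.algebraMap_mem _ _
      | add p q hp hq => rw [map_add, map_add]; exact add_mem hp hq
      | mul_X p i hp =>
        rw [map_mul, map_mul]
        exact mul_mem hp (IntermediateField.subset_adjoin _ _ ⟨i, rfl⟩)
    refine eq_top_iff.2 fun x _ => ?_
    obtain ⟨a, b, _, rfl⟩ := IsFractionRing.div_surjective (A := S) x
    obtain ⟨a, rfl⟩ := Ideal.Quotient.mk_surjective a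
    obtain ⟨b, rfl⟩ := Ideal.Quotient.mk_surjective b
    exact div_mem (h1 a) (h1 b)

/-- the values of forms at elements of a field -/
private theorem L8b_mem {L : Type u} [Field L] [Algebra ℂ L] (E : IntermediateField ℂ L) {n : ℕ}
    (y : Fin n → L) (hy : ∀ i, y i ∈ E) (G : MvPolynomial (Fin n) ℂ) : aeval y G ∈ E := by
  have h1 : aeval (fun i => algebraMap E L (⟨y i, hy i⟩ : E)) G =
      algebraMap E L (aeval (fun i => (⟨y i, hy i⟩ : E)) G) :=
    MvPolynomial.aeval_algebraMap_apply L (fun i => (⟨y i, hy i⟩ : E)) G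
  have h2 : aeval y G = algebraMap E L (aeval (fun i => (⟨y i, hy i⟩ : E)) G) := h1
  rw [h2]
  exact (aeval (fun i => (⟨y i, hy i⟩ : E)) G).2

/-- `J i` a coordinate of the block `i` with `p (J i) ≠ 0`, `p1 j = (p (J (bl j)))⁻¹ * p j` (`K.mh_smul` (Q7/L7): `fe f p1 = c • fe f p`, `c ≠ 0`; so `HG` (`HG_smul`) and
the same `ratioField` (`ratioField_smul'`)), `exists_model` for `p1`. `E = adjoin ℂ (range p1)` (in `L`) contains the ratio field (all `fe f p1 i` are in `E`), so `[E : rat]` divides `[L : rat]`, odd;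
`E ≃ₐ Q` by `ι`; `finrank_rat_equiv`, `HG_equiv` (Q5/L2c), see the proof of `exists_ratE` (Q6/L2b). -/
theorem exists_src0 {D n N s : ℕ} (K : Bk n N s) {F : MvPolynomial (Fin (D + 4)) ℂ} (hF : VG F)
    {e : Fin s → ℕ} (f : Fin (D + 4) → MvPolynomial (Fin N) ℂ) (hd : ∀ i, K.MH (f i) e)
    {L : Type u} [Field L] [Algebra ℂ L] (p : Fin N → L) (hp : ∀ i, ∃ j, K.bl j = i ∧ p j ≠ 0)
    (hx : HG F (fun j => aeval p (f j)))
    (hodd : Odd (Module.finrank (ratioField (fun j => aeval p (f j))) L)) :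
    ∃ (Q : Type) (_ : Field Q) (_ : Algebra ℂ Q) (p' : Fin N → Q), K.Nz p' ∧
      IntermediateField.adjoin ℂ (Set.range p') = ⊤ ∧ HG F (fun j => aeval p' (f j)) ∧
      Odd (Module.finrank (rat ℂ (fun j => aeval p' (f j))) Q) := by
  classical
  choose J hJ hJ0 using hp
  let p1 : Fin N → L := fun j => (p (J (K.bl j)))⁻¹ * p j
  have hcc : ∏ i, (p (J i))⁻¹ ^ e i ≠ 0 :=
    Finset.prod_ne_zero_iff.2 fun i _ => pow_ne_zero _ (inv_ne_zero (hJ0 i))
  have hf1 : (fun i => aeval p1 (f i)) = fun i => (∏ i, (p (J i))⁻¹ ^ e i) * aeval p (f i) :=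
    funext fun i => K.mh_smul (hd i) (fun i => (p (J i))⁻¹) p
  have hx1 : HG F (fun j => aeval p1 (f j)) := by
    rw [hf1]
    exact HG_smul hx _ hcc
  have hodd1 : Odd (Module.finrank (ratioField (fun j => aeval p1 (f j))) L) := by
    rw [hf1, ratioField_smul' _ hcc]
    exact hodd
  obtain ⟨Q, _, _, ι, p', hp', hgen⟩ := exists_model p1
  obtain ⟨E, hE⟩ : ∃ E : IntermediateField ℂ L, E = ι.fieldRange := ⟨_, rfl⟩
  have hmem : ∀ j, p1 j ∈ E := fun j => by
    rw [hE]
    exact ⟨p' j, hp' j⟩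
  have hle : ratioField (fun j => aeval p1 (f j)) ≤ E := by
    unfold ratioField
    rw [IntermediateField.adjoin_le_iff]
    rintro _ ⟨i, j, rfl⟩
    exact div_mem (L8b_mem E _ hmem _) (L8b_mem E _ hmem _)
  let y : Fin (D + 4) → E := fun j => aeval (fun l => (⟨p1 l, hmem l⟩ : E)) (f j)
  have hy : (fun j => algebraMap E L (y j)) = fun j => aeval p1 (f j) := by
    funext j
    exact (MvPolynomial.aeval_algebraMap_apply L (fun l => (⟨p1 l, hmem l⟩ : E)) (f j)).symm
  have hl : IntermediateField.lift (rat ℂ y) = ratioField (fun j => aeval p1 (f j)) := by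
    rw [← hy]
    unfold rat
    rw [IntermediateField.lift_adjoin]
    unfold ratioField
    congr 1
    ext z
    constructor
    · rintro ⟨_, ⟨i, j, rfl⟩, rfl⟩
      exact ⟨i, j, rfl⟩
    · rintro ⟨i, j, rfl⟩
      exact ⟨y i / y j, ⟨i, j, rfl⟩, rfl⟩
  have hoddE : Odd (Module.finrank (rat ℂ y) E) := by
    have h8 : Module.finrank (rat ℂ y) E *
        Module.finrank E L = Module.finrank (ratioField (fun j => aeval p1 (f j))) L := by
      rw [← hl]
      have h9 := Module.finrank_mul_finrank (rat ℂ y) E L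
      rw [h9]
      exact Algebra.finrank_eq_of_equiv_equiv
        (IntermediateField.liftAlgEquiv (rat ℂ y)).toRingEquiv (RingEquiv.refl L) (by
          ext x
          rfl)
    rw [← h8] at hodd1
    exact (Nat.odd_mul.1 hodd1).1
  -- the isomorphism
  obtain ⟨ψ, hψ⟩ : ∃ ψ : E ≃ₐ[ℂ] Q, ∀ q, ι (ψ q) = algebraMap E L q := by
    subst hE
    refine ⟨(AlgEquiv.ofInjectiveField ι).symm, fun q => ?_⟩
    have h1 := (AlgEquiv.ofInjectiveField ι).apply_symm_apply q
    have h2 := congrArg (algebraMap ι.fieldRange L) h1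
    exact h2
  have hψy : (fun i => ψ (y i)) = fun j => aeval p' (f j) := by
    funext j
    apply ι.injective
    show ι (ψ (y j)) = ι (aeval p' (f j))
    rw [hψ]
    have h1 := congrFun hy j
    rw [h1]
    have h2 := MvPolynomial.comp_aeval_apply p' ι (f j)
    rw [h2]
    congr 2
    funext l
    exact (hp' l).symm
  refine ⟨Q, inferInstance, inferInstance, p', fun i => ⟨J i, hJ i, fun h => ?_⟩, hgen, ?_, ?_⟩
  · have h1 := hp' (J i)
    rw [h, map_zero] at h1
    have h2 : p1 (J i) = 1 := by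
      show (p (J (K.bl (J i))))⁻¹ * p (J i) = 1
      rw [hJ, inv_mul_cancel₀ (hJ0 i)]
    rw [h2] at h1
    exact zero_ne_one h1
  · rw [← hψy]
    refine HG_equiv ψ _ ?_
    refine HG_algebraMap (K := E) (L := L).1 ?_
    rw [hy]
    exact hx1
  · rw [← hψy, finrank_rat_equiv]
    exact hoddE

end MP2619.Q6
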