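import Pool.Agent.Lib.MP_2619d0_ag.Q6.L6

/-!
Row q8-L8c: the degree of a pair over the field of `zg`, general field
-/

set_option autoImplicit false

namespace MP2619.Q6

open MvPolynomial MP2619.R MP2619.N Pool.Agent.Lib.MP_2619d0_ag
  Pool.Agent.Lib.MP_2619d0_ag.T MP2619.T MP2619.Q5

/-- The vector `zg` plus a multiple of the basis vector is `(α + β) X`. -/
private theorem L8c_zg {D : ℕ} {Ω : Type} [Field Ω] [Algebra ℂ Ω] (α β : Ω) (X : Fin (D + 4) → Ω)
    (w : ℂ) (a i : Fin (D + 4)) :
    zg w (fun i => α * X i) (fun i => β * X i) (Pi.single a 1) i +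
      (if i = a then (1 - algebraMap ℂ Ω w) * (α * X a) else 0) = (α + β) * X i := by
  by_cases h : i = a
  · subst h
    simp only [zg, Pi.single_eq_same, if_true]
    have h1 : (1 : ZMod 3).val = 1 := rfl
    rw [h1, pow_one]
    ring
  · simp only [zg, if_neg h, Pi.single_eq_of_ne h, ZMod.val_zero, pow_zero, map_one, one_mul,
      add_zero]
    ring

open IntermediateField in
/-- the degree over the field generated by `zg` and the multiple -/
private theorem L8c_deg {D : ℕ} {Q Ω : Type} [Field Q] [Algebra ℂ Q] [Field Ω] [Algebra ℂ Ω]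
    [Algebra Q Ω] [IsScalarTower ℂ Q Ω] (v : Fin 2 → Ω) (hv : AlgebraicIndependent Q v)
    (hgen : IntermediateField.adjoin Q (Set.range v) = ⊤) (X : Fin (D + 4) → Q) (a : Fin (D + 4))
    (hXa : X a ≠ 0) (w : ℂ) (hw : w ^ 2 + w + 1 = 0) (halg : Module.finrank (rat ℂ X) Q ≠ 0) :
    Module.finrank (adjoin (adjoin ℂ (Set.range (zg w (fun i => v 0 * algebraMap Q Ω (X i))
        (fun i => v 1 * algebraMap Q Ω (X i)) (Pi.single a 1))))
        ({(1 - algebraMap ℂ Ω w) * (v 0 * algebraMap Q Ω (X a))} : Set Ω)) Ω =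
      Module.finrank (rat ℂ X) Q := by
  have hXa' : algebraMap Q Ω (X a) ≠ 0 := fun h => hXa ((map_eq_zero _).1 h)
  have hrv : Set.range v = {v 0, v 1} := by
    ext y
    simp only [Set.mem_range, Fin.exists_fin_two, Set.mem_insert_iff, Set.mem_singleton_iff]
    constructor
    · rintro (h | h)
      · exact Or.inl h.symm
      · exact Or.inr h.symm
    · rintro (h | h)
      · exact Or.inl h.symm
      · exact Or.inr h.symm
  set u : Fin 2 → Ω := fun i => v i * algebraMap Q Ω (X a) with hu
  have hru : Set.range u = {v 0 * algebraMap Q Ω (X a), v 1 * algebraMap Q Ω (X a)} := by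
    ext y
    simp only [hu, Set.mem_range, Fin.exists_fin_two, Set.mem_insert_iff, Set.mem_singleton_iff]
    constructor
    · rintro (h | h)
      · exact Or.inl h.symm
      · exact Or.inr h.symm
    · rintro (h | h)
      · exact Or.inl h.symm
      · exact Or.inr h.symm
  have htop : adjoin Q (Set.range u) = ⊤ := by
    rw [eq_top_iff, ← hgen, adjoin_le_iff, hrv]
    have hXm : algebraMap Q Ω (X a) ∈ adjoin Q (Set.range u) :=
      (adjoin Q (Set.range u)).algebraMap_mem (X a)
    rintro y (rfl | hy)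
    · have h1 : v 0 * algebraMap Q Ω (X a) ∈ adjoin Q (Set.range u) := by
        refine subset_adjoin _ _ ?_
        rw [hru]
        exact Set.mem_insert _ _
      have h2 := div_mem h1 hXm
      rwa [mul_div_cancel_right₀ _ hXa'] at h2
    · rw [Set.mem_singleton_iff] at hy
      rw [hy]
      have h1 : v 1 * algebraMap Q Ω (X a) ∈ adjoin Q (Set.range u) := by
        refine subset_adjoin _ _ ?_
        rw [hru]
        exact Set.mem_insert_of_mem _ (Set.mem_singleton _)
      have h2 := div_mem h1 hXm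
      rwa [mul_div_cancel_right₀ _ hXa'] at h2
  have hf1 : ∀ E : IntermediateField Q Ω, E = ⊤ → Module.finrank E Ω = 1 := by
    rintro E rfl
    exact IntermediateField.finrank_top
  have hind : AlgebraicIndependent Q u := by
    refine (fin_iff_ind v u hv ?_).2 ?_
    · rw [hf1 _ hgen]
      exact one_ne_zero
    · rw [hf1 _ htop]
      exact one_ne_zero
  have hfd : FiniteDimensional (rat ℂ X) Q :=
    Module.finite_of_finrank_pos (Nat.pos_of_ne_zero halg)
  have hmain := finrank_adjoin_ind (K := rat ℂ X) (F := Q) (κ := Ω)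
    (Algebra.IsAlgebraic.of_finite _ _) u hind
  rw [hf1 _ htop, mul_one] at hmain
  rw [← hmain]
  -- comparison of the two fields
  set ζ := zg w (fun i => v 0 * algebraMap Q Ω (X i)) (fun i => v 1 * algebraMap Q Ω (X i))
    (Pi.single a 1) with hζ
  have hζa : ζ a = algebraMap ℂ Ω w * (v 0 * algebraMap Q Ω (X a)) +
      v 1 * algebraMap Q Ω (X a) := by
    rw [hζ]
    unfold zg
    rw [Pi.single_eq_same]
    have : ((1 : ZMod 3)).val = 1 := rfl
    rw [this, pow_one]
  have hζi : ∀ i, i ≠ a → ζ i = (v 0 + v 1) * algebraMap Q Ω (X i) := by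
    intro i hi
    rw [hζ]
    unfold zg
    rw [Pi.single_eq_of_ne hi]
    have : ((0 : ZMod 3)).val = 0 := rfl
    rw [this, pow_zero, map_one]
    ring
  have hw1 : 1 - algebraMap ℂ Ω w ≠ 0 := by
    intro h
    have h1 : w = 1 := by
      apply (algebraMap ℂ Ω).injective
      rw [map_one]
      exact (sub_eq_zero.1 h).symm
    rw [h1] at hw
    norm_num at hw
  have hab : v 0 + v 1 ≠ 0 := by
    intro h
    have h2 : (MvPolynomial.X 0 + MvPolynomial.X 1 : MvPolynomial (Fin 2) Q) = 0 := by
      apply (algebraicIndependent_iff_injective_aeval.1 hv)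
      rw [map_zero, map_add, MvPolynomial.aeval_X, MvPolynomial.aeval_X]
      exact h
    have h3 := congrArg (MvPolynomial.eval (fun i => if i = 0 then 1 else 0)) h2
    rw [map_add, MvPolynomial.eval_X, MvPolynomial.eval_X, map_zero, if_pos rfl,
      if_neg (by decide), add_zero] at h3
    exact one_ne_zero h3
  have hE : (adjoin (adjoin ℂ (Set.range ζ)) ({(1 - algebraMap ℂ Ω w) *
      (v 0 * algebraMap Q Ω (X a))} : Set Ω)).restrictScalars ℂ =
      (adjoin (rat ℂ X) (Set.range u)).restrictScalars ℂ := by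
    set E1 := (adjoin (rat ℂ X) (Set.range u)).restrictScalars ℂ with hE1
    have m1 : v 0 * algebraMap Q Ω (X a) ∈ E1 := by
      have : v 0 * algebraMap Q Ω (X a) ∈ adjoin (rat ℂ X) (Set.range u) := by
        refine subset_adjoin _ _ ?_
        rw [hru]
        exact Set.mem_insert _ _
      exact this
    have m2 : v 1 * algebraMap Q Ω (X a) ∈ E1 := by
      have : v 1 * algebraMap Q Ω (X a) ∈ adjoin (rat ℂ X) (Set.range u) := by
        refine subset_adjoin _ _ ?_
        rw [hru]
        exact Set.mem_insert_of_mem _ (Set.mem_singleton _)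
      exact this
    have m3 : ∀ i j, algebraMap Q Ω (X i) / algebraMap Q Ω (X j) ∈ E1 := by
      intro i j
      have h1 : X i / X j ∈ rat ℂ X := subset_adjoin _ _ ⟨i, j, rfl⟩
      have h2 : algebraMap (rat ℂ X) Ω ⟨X i / X j, h1⟩ ∈ adjoin (rat ℂ X) (Set.range u) :=
        (adjoin (rat ℂ X) (Set.range u)).algebraMap_mem _
      have h3 : algebraMap (rat ℂ X) Ω ⟨X i / X j, h1⟩ =
          algebraMap Q Ω (X i) / algebraMap Q Ω (X j) := by
        rw [← map_div₀]
        rfl
      rw [h3] at h2
      exact h2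
    rw [adjoin_adjoin_left]
    apply le_antisymm
    · rw [adjoin_le_iff]
      rintro y (⟨i, rfl⟩ | hy)
      · by_cases hi : i = a
        · subst hi
          rw [SetLike.mem_coe, hζa]
          exact add_mem (mul_mem (E1.algebraMap_mem w) m1) m2
        · rw [SetLike.mem_coe, hζi i hi]
          have h1 : (v 0 + v 1) * algebraMap Q Ω (X i) = (v 0 * algebraMap Q Ω (X a) +
              v 1 * algebraMap Q Ω (X a)) * (algebraMap Q Ω (X i) / algebraMap Q Ω (X a)) := by
            field_simp
          rw [h1]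
          exact mul_mem (add_mem m1 m2) (m3 i a)
      · rw [Set.mem_singleton_iff] at hy
        rw [hy]
        exact mul_mem (sub_mem (one_mem _) (E1.algebraMap_mem w)) m1
    · set E2 := adjoin ℂ (Set.range ζ ∪ {(1 - algebraMap ℂ Ω w) *
        (v 0 * algebraMap Q Ω (X a))}) with hE2
      have n0 : (1 - algebraMap ℂ Ω w) * (v 0 * algebraMap Q Ω (X a)) ∈ E2 :=
        subset_adjoin _ _ (Or.inr rfl)
      have nz : ∀ i, ζ i ∈ E2 := fun i => subset_adjoin _ _ (Or.inl ⟨i, rfl⟩)
      have n1 : v 0 * algebraMap Q Ω (X a) ∈ E2 := by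
        have h1 := div_mem n0 (sub_mem (one_mem E2) (E2.algebraMap_mem w))
        rwa [mul_div_cancel_left₀ _ hw1] at h1
      have n2 : v 1 * algebraMap Q Ω (X a) ∈ E2 := by
        have h1 := sub_mem (nz a) (mul_mem (E2.algebraMap_mem w) n1)
        rwa [hζa, add_sub_cancel_left] at h1
      have n3 : ∀ i, algebraMap Q Ω (X i) / algebraMap Q Ω (X a) ∈ E2 := by
        intro i
        by_cases hi : i = a
        · subst hi
          rw [div_self hXa']
          exact one_mem _
        · have h1 := div_mem (nz i) (add_mem n1 n2)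
          rw [hζi i hi, ← add_mul, mul_div_mul_left _ _ hab] at h1
          exact h1
      have n4 : ∀ i j, algebraMap Q Ω (X i) / algebraMap Q Ω (X j) ∈ E2 := by
        intro i j
        have h1 := div_mem (n3 i) (n3 j)
        rw [div_div_div_cancel_right₀ hXa'] at h1
        exact h1
      have n5 : ∀ r : rat ℂ X, algebraMap (rat ℂ X) Ω r ∈ E2 := by
        intro r
        have h1 : ((rat ℂ X).map (IsScalarTower.toAlgHom ℂ Q Ω)) ≤ E2 := by
          unfold rat
          rw [adjoin_map, adjoin_le_iff]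
          rintro _ ⟨_, ⟨i, j, rfl⟩, rfl⟩
          rw [SetLike.mem_coe, map_div₀]
          exact n4 i j
        exact h1 ⟨r.1, r.2, rfl⟩
      intro x hx
      have hx' : x ∈ adjoin (rat ℂ X) (Set.range u) := hx
      clear hx
      induction hx' using adjoin_induction with
      | mem y hy =>
        rw [hru] at hy
        rcases hy with rfl | hy
        · exact n1
        · rw [Set.mem_singleton_iff] at hy
          rw [hy]
          exact n2
      | algebraMap r => exact n5 r
      | add x y hx hy h1 h2 => exact add_mem h1 h2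
      | inv x hx h1 => exact inv_mem h1
      | mul x y hx hy h1 h2 => exact mul_mem h1 h2
  change Module.finrank ((adjoin (adjoin ℂ (Set.range ζ)) ({(1 - algebraMap ℂ Ω w) *
    (v 0 * algebraMap Q Ω (X a))} : Set Ω)).restrictScalars ℂ) Ω = _
  rw [hE]
  rfl

/-- `pr_one` (Q6/L6) with an arbitrary field `Q` instead of `adjoin ℂ (range t)`. Copy of `deg_L5` (Q6/L5; `Kt` becomes `Q`, `α = v 0`, `β = v 1`, `L5_ind`, `L5_top` are the hypotheses) and of `pr_one`. For `fin_iff_ind` a
transcendence basis is needed: `(v 0, v 1, r)` with `r` the `D + 2` ratios `X i / X 0` of `MP2619.CUB.ratios_indep` (see how it is used in Q3, TOdd, Q6), `Q` is finite over `rat ℂ X`, which is finite over `ℂ(r)`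
(the last ratio satisfies a cubic equation: `cubic_int` or `coeff_three`); or use only transcendence degrees: `trdeg ℂ Ω = trdeg ℂ Q + 2 = D + 4` and `Ω` algebraic over `adjoin ℂ (range ζ)`. -/
theorem pr_gen {D : ℕ} {F : MvPolynomial (Fin (D + 4)) ℂ} (hF : VG F) (hP : Prime F)
    {Q Ω : Type} [Field Q] [Algebra ℂ Q] [Field Ω] [Algebra ℂ Ω] [Algebra Q Ω] [IsScalarTower ℂ Q Ω]
    (v : Fin 2 → Ω) (hv : AlgebraicIndependent Q v)
    (hgen : IntermediateField.adjoin Q (Set.range v) = ⊤) (X : Fin (D + 4) → Q) (hX : HG F X)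
    (hodd : Odd (Module.finrank (rat ℂ X) Q)) (w : ℂ) (hw : w ^ 2 + w + 1 = 0) (a : Fin (D + 4)) :
    Pr ℂ (zg w (fun i => v 0 * algebraMap Q Ω (X i)) (fun i => v 1 * algebraMap Q Ω (X i))
      (Pi.single a 1)) := by
  have hc := coeff_three hF a
  have hXa := HG_ne hF X hX a
  have hdeg := L8c_deg v hv hgen X a hXa w hw hodd.pos.ne'
  set ζ : Fin (D + 4) → Ω := zg w (fun i => v 0 * algebraMap Q Ω (X i))
    (fun i => v 1 * algebraMap Q Ω (X i)) (Pi.single a 1) with hζ
  set c : Ω := (1 - algebraMap ℂ Ω w) * (v 0 * algebraMap Q Ω (X a)) with hc'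
  have h0 : MvPolynomial.aeval (fun i => ζ i + if i = a then c else 0) F = 0 := by
    have h1 : (fun i => ζ i + if i = a then c else 0) =
        fun i => (v 0 + v 1) * algebraMap Q Ω (X i) := by
      funext i
      exact L8c_zg (v 0) (v 1) (fun i => algebraMap Q Ω (X i)) w a i
    have h2 : MvPolynomial.aeval (fun i => algebraMap Q Ω (X i)) F = 0 := by
      have h3 : MvPolynomial.aeval X F = 0 := (hX 3 F hF.1).2 dvd_rfl
      have h4 := MvPolynomial.aeval_algebraMap_apply Ω X F
      rw [h3, map_zero] at h4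
      exact h4
    rw [h1, aeval_smul_hom hF.1, h2, mul_zero]
  have hint := cubic_int hF.1 hc c h0
  have hfd : FiniteDimensional (IntermediateField.adjoin ℂ (Set.range ζ))
      (IntermediateField.adjoin (IntermediateField.adjoin ℂ (Set.range ζ)) ({c} : Set Ω)) :=
    IntermediateField.adjoin.finiteDimensional hint
  have hmul := Module.finrank_mul_finrank (IntermediateField.adjoin ℂ (Set.range ζ))
    (IntermediateField.adjoin (IntermediateField.adjoin ℂ (Set.range ζ)) ({c} : Set Ω)) Ω
  have hne : Module.finrank (IntermediateField.adjoin ℂ (Set.range ζ)) Ω ≠ 0 := by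
    rw [← hmul, hdeg]
    exact mul_ne_zero Module.finrank_pos.ne' hodd.pos.ne'
  have hind : AlgebraicIndependent ℂ ζ := by
    have hr := MP2619.CUB.ratios_indep (m := D + 2) hF X hX
    have h5 := (hr.sumElim_comp hv).lift_cardinalMk_le_trdeg
    have h6 : FiniteDimensional (IntermediateField.adjoin ℂ (Set.range ζ)) Ω :=
      Module.finite_of_finrank_pos (Nat.pos_of_ne_zero hne)
    have h7 : Algebra.IsAlgebraic (IntermediateField.adjoin ℂ (Set.range ζ)) Ω :=
      Algebra.IsAlgebraic.of_finite _ _
    have h8 : Algebra.IsAlgebraic (Algebra.adjoin ℂ (Set.range ζ)) Ω :=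
      IntermediateField.isAlgebraic_adjoin_iff_top.mp h7
    have h9 : Cardinal.lift.{0} (Cardinal.mk (Fin (D + 4))) ≤
        Cardinal.lift.{0} (Algebra.trdeg ℂ Ω) := by
      refine le_trans (le_of_eq ?_) h5
      simp only [Cardinal.mk_fin, Cardinal.mk_sum, Cardinal.lift_natCast, Cardinal.lift_add]
      norm_cast
      ring
    exact (Algebra.IsAlgebraic.isTranscendenceBasis_of_lift_le_trdeg_of_finite ℂ ζ h9).1
  refine ⟨hind, ?_⟩
  rw [← hmul, hdeg, cubic_deg hP hF.1 hc hind c h0]
  exact Odd.mul (by decide) hodd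

end MP2619.Q6
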