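import Pool.Agent.Lib.MP_2619d0_ag.R.A8

/-!
Row q8-L8d: descent of the degree to small fields of constants
-/

set_option autoImplicit false

namespace MP2619.Q6

open IntermediateField MP2619.R

/-- Finitely many constants are needed for an element (`adjoin_induction`). -/
theorem const_mem {Ω : Type} [Field Ω] [Algebra ℂ Ω] (S : Set Ω) (z : Ω) (hz : z ∈ adjoin ℂ S) :
    ∃ cof : Set ℂ, cof.Finite ∧ ∀ (B : Type) [Field B] [Algebra B ℂ] [Algebra B Ω]
      [IsScalarTower B ℂ Ω], (∀ c ∈ cof, ∃ b : B, algebraMap B ℂ b = c) → z ∈ adjoin B S := by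
  induction hz using adjoin_induction with
  | mem x hx => exact ⟨∅, Set.finite_empty, fun B _ _ _ _ _ => subset_adjoin B S hx⟩
  | algebraMap c =>
    refine ⟨{c}, Set.finite_singleton c, fun B _ _ _ _ h => ?_⟩
    obtain ⟨b, hb⟩ := h c rfl
    rw [← hb, ← IsScalarTower.algebraMap_apply B ℂ Ω]
    exact IntermediateField.algebraMap_mem _ _
  | add x y _ _ ihx ihy =>
    obtain ⟨c1, f1, h1⟩ := ihx
    obtain ⟨c2, f2, h2⟩ := ihy
    refine ⟨c1 ∪ c2, f1.union f2, fun B _ _ _ _ h => ?_⟩
    exact add_mem (h1 B fun c hc => h c (Or.inl hc)) (h2 B fun c hc => h c (Or.inr hc))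
  | inv x _ ih =>
    obtain ⟨c1, f1, h1⟩ := ih
    exact ⟨c1, f1, fun B _ _ _ _ h => inv_mem (h1 B h)⟩
  | mul x y _ _ ihx ihy =>
    obtain ⟨c1, f1, h1⟩ := ihx
    obtain ⟨c2, f2, h2⟩ := ihy
    refine ⟨c1 ∪ c2, f1.union f2, fun B _ _ _ _ h => ?_⟩
    exact mul_mem (h1 B fun c hc => h c (Or.inl hc)) (h2 B fun c hc => h c (Or.inr hc))

private theorem L8d_const {Ω : Type} [Field Ω] [Algebra ℂ Ω] {ι : Type} [Finite ι] (S : Set Ω)
    (z : ι → Ω) (hz : ∀ i, z i ∈ adjoin ℂ S) :
    ∃ cof : Set ℂ, cof.Finite ∧ ∀ (B : Type) [Field B] [Algebra B ℂ] [Algebra B Ω]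
      [IsScalarTower B ℂ Ω], (∀ c ∈ cof, ∃ b : B, algebraMap B ℂ b = c) →
        ∀ i, z i ∈ adjoin B S := by
  choose cof h1 h2 using fun i => const_mem S (z i) (hz i)
  refine ⟨⋃ i, cof i, Set.finite_iUnion h1, fun B _ _ _ _ h i => h2 i B fun c hc => ?_⟩
  exact h c (Set.mem_iUnion.2 ⟨i, hc⟩)

/-- The degree over a small field of constants. -/
private theorem L8d_deg {Ω : Type} [Field Ω] [Algebra ℂ Ω] {r n : ℕ} (s : Fin r → Ω)
    (u : Fin n → Ω) (θ : Ω) (hint : IsIntegral (adjoin ℂ (Set.range u)) θ)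
    (B : Type) [Field B] [Algebra B ℂ] [Algebra B Ω] [IsScalarTower B ℂ Ω]
    (hu : ∀ i, u i ∈ adjoin B (Set.range s)) (hθ : θ ∈ adjoin B (Set.range s))
    (hs : ∀ j, s j ∈ adjoin B (Set.range u ∪ {θ}))
    (hg : ∀ m, ((minpoly (adjoin ℂ (Set.range u)) θ).coeff m : Ω) ∈ adjoin B (Set.range u)) :
    Module.finrank (adjoin B (Set.range fun i => (⟨u i, hu i⟩ : adjoin B (Set.range s))))
      (adjoin B (Set.range s)) = (minpoly (adjoin ℂ (Set.range u)) θ).natDegree := by
  obtain ⟨u', hu'⟩ : ∃ u' : Fin n → adjoin B (Set.range s), u' = fun i => ⟨u i, hu i⟩ := ⟨_, rfl⟩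
  rw [← hu']
  obtain ⟨θ', hθ'⟩ : ∃ θ' : adjoin B (Set.range s), θ' = ⟨θ, hθ⟩ := ⟨_, rfl⟩
  have hval : ∀ x : adjoin B (Set.range s), (adjoin B (Set.range s)).val x = x.1 := fun _ => rfl
  -- the small field of constants in the big one
  have hmap : (adjoin B (Set.range u')).map (adjoin B (Set.range s)).val =
      adjoin B (Set.range u) := by
    rw [adjoin_map, ← Set.range_comp]
    congr 1
    rw [hu']
    rfl
  have hle : adjoin B (Set.range u) ≤ (adjoin ℂ (Set.range u)).restrictScalars B := by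
    rw [adjoin_le_iff]
    exact subset_adjoin ℂ (Set.range u)
  have hmem : ∀ x : adjoin B (Set.range u'), (x.1.1 : Ω) ∈ adjoin ℂ (Set.range u) := by
    intro x
    apply hle
    rw [← hmap]
    exact ⟨x.1, x.2, rfl⟩
  let φ : adjoin B (Set.range u') →+* adjoin ℂ (Set.range u) :=
    ((algebraMap (adjoin B (Set.range s)) Ω).comp
      (algebraMap (adjoin B (Set.range u')) (adjoin B (Set.range s)))).codRestrict
      (adjoin ℂ (Set.range u)).toSubring hmem
  have hφ : ∀ x, (φ x : Ω) = x.1.1 := fun _ => rfl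
  -- the coefficients
  have hlift : minpoly (adjoin ℂ (Set.range u)) θ ∈ Polynomial.lifts φ := by
    rw [Polynomial.lifts_iff_coeff_lifts]
    intro m
    have h1 := hg m
    rw [← hmap] at h1
    obtain ⟨y, hy, hy2⟩ := h1
    refine ⟨⟨y, hy⟩, ?_⟩
    apply Subtype.ext
    rw [hφ]
    exact hy2
  obtain ⟨q, hq1, hq2, hq3⟩ :=
    Polynomial.lifts_and_natDegree_eq_and_monic hlift (minpoly.monic hint)
  have hcomp : (algebraMap (adjoin ℂ (Set.range u)) Ω).comp φ =
      ((adjoin B (Set.range s)).val : adjoin B (Set.range s) →+* Ω).comp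
        (algebraMap (adjoin B (Set.range u')) (adjoin B (Set.range s))) := by
    ext x
    rfl
  have haev : ∀ p : Polynomial (adjoin B (Set.range u')),
      ((Polynomial.aeval θ' p : adjoin B (Set.range s)) : Ω) = Polynomial.aeval θ (p.map φ) := by
    intro p
    rw [Polynomial.aeval_def, Polynomial.aeval_def, Polynomial.eval₂_map, hcomp, ← hval]
    rw [show ((adjoin B (Set.range s)).val (Polynomial.eval₂
      (algebraMap (adjoin B (Set.range u')) (adjoin B (Set.range s))) θ' p)) =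
      ((adjoin B (Set.range s)).val : adjoin B (Set.range s) →+* Ω) (Polynomial.eval₂
      (algebraMap (adjoin B (Set.range u')) (adjoin B (Set.range s))) θ' p) from rfl,
      Polynomial.hom_eval₂]
    congr 1
    rw [hθ']
    rfl
  have hroot : Polynomial.aeval θ' q = 0 := by
    apply Subtype.ext
    rw [haev, hq1, minpoly.aeval]
    rfl
  have hint' : IsIntegral (adjoin B (Set.range u')) θ' := ⟨q, hq3, hroot⟩
  have hdeg : (minpoly (adjoin B (Set.range u')) θ').natDegree =
      (minpoly (adjoin ℂ (Set.range u)) θ).natDegree := by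
    apply le_antisymm
    · rw [← hq2]
      exact Polynomial.natDegree_le_natDegree (minpoly.min _ _ hq3 hroot)
    · have h1 : (minpoly (adjoin B (Set.range u')) θ').map φ ≠ 0 := by
        rw [Ne, Polynomial.map_eq_zero_iff φ.injective]
        exact minpoly.ne_zero hint'
      have h2 : Polynomial.aeval θ ((minpoly (adjoin B (Set.range u')) θ').map φ) = 0 := by
        rw [← haev, minpoly.aeval]
        rfl
      have h3 := Polynomial.natDegree_le_natDegree (minpoly.degree_le_of_ne_zero _ _ h1 h2)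
      rwa [Polynomial.natDegree_map_eq_of_injective φ.injective] at h3
  -- generation
  have htop : adjoin (adjoin B (Set.range u')) ({θ'} : Set (adjoin B (Set.range s))) = ⊤ := by
    obtain ⟨W, hW⟩ : ∃ W : IntermediateField B (adjoin B (Set.range s)),
      W = (adjoin (adjoin B (Set.range u'))
        ({θ'} : Set (adjoin B (Set.range s)))).restrictScalars B := ⟨_, rfl⟩
    have hWm : ∀ x, x ∈ W ↔ x ∈ adjoin (adjoin B (Set.range u'))
        ({θ'} : Set (adjoin B (Set.range s))) := by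
      intro x
      rw [hW]
      exact Iff.rfl
    have hWu : ∀ i, u' i ∈ W := by
      intro i
      rw [hWm]
      exact IntermediateField.algebraMap_mem _
        (⟨u' i, subset_adjoin B _ ⟨i, rfl⟩⟩ : adjoin B (Set.range u'))
    have hWθ : θ' ∈ W := by
      rw [hWm]
      exact mem_adjoin_simple_self _ _
    have h1 : adjoin B (Set.range u ∪ {θ}) ≤ W.map (adjoin B (Set.range s)).val := by
      rw [adjoin_le_iff]
      rintro x (⟨i, rfl⟩ | hx)
      · refine ⟨u' i, hWu i, ?_⟩
        rw [hu']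
        rfl
      · rw [Set.mem_singleton_iff] at hx
        rw [hx]
        refine ⟨θ', hWθ, ?_⟩
        rw [hθ']
        rfl
    have h2 : adjoin B (Set.range s) ≤ W.map (adjoin B (Set.range s)).val := by
      rw [adjoin_le_iff]
      rintro x ⟨j, rfl⟩
      exact h1 (hs j)
    rw [eq_top_iff]
    intro x _
    obtain ⟨y, hy, hy2⟩ := h2 x.2
    have h3 : y = x := Subtype.ext hy2
    rw [← hWm, ← h3]
    exact hy
  rw [← hdeg, ← adjoin.finrank hint', htop, finrank_top']

/-- Let `k = adjoin ℂ (range u)`, `Ω = k(θ)` (`Field.exists_primitive_element`), `g = minpoly k θ`, of degree `d = [Ω : k]`. `cof` = the constants (`const_mem`) of: the coefficients of `g` (in `adjoin ℂ (range u)`);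
`θ`, `u i` (in `adjoin ℂ (range s)`); `s j` (in `adjoin ℂ (range u ∪ {θ})`). Over `B`: `adjoin B (range s) = adjoin B (range u ∪ {θ}) = kB(θ)`, `kB = adjoin B (range u)`, and the minimal polynomial of `θ` over `kB`
has degree `d`: `g` has coefficients in `kB`, and the minimal polynomial over `kB` gives one over `k`. -/
theorem descent {Ω : Type} [Field Ω] [Algebra ℂ Ω] {r n : ℕ} (s : Fin r → Ω) (u : Fin n → Ω)
    (hs : adjoin ℂ (Set.range s) = ⊤) (hu : Pr ℂ u) :
    ∃ cof : Set ℂ, cof.Finite ∧ ∀ (B : Type) [Field B] [Algebra B ℂ] [Algebra B Ω]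
      [IsScalarTower B ℂ Ω], (∀ c ∈ cof, ∃ b : B, algebraMap B ℂ b = c) →
        ∃ h : ∀ i, u i ∈ adjoin B (Set.range s),
          Pr B (fun i => (⟨u i, h i⟩ : adjoin B (Set.range s))) := by
  have hfd : FiniteDimensional (adjoin ℂ (Set.range u)) Ω :=
    Module.finite_of_finrank_pos hu.2.pos
  obtain ⟨θ, hθ⟩ := Field.exists_primitive_element (adjoin ℂ (Set.range u)) Ω
  have hint : IsIntegral (adjoin ℂ (Set.range u)) θ := IsIntegral.of_finite _ _
  have hd : (minpoly (adjoin ℂ (Set.range u)) θ).natDegree =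
      Module.finrank (adjoin ℂ (Set.range u)) Ω := by
    rw [← adjoin.finrank hint, hθ, finrank_top']
  have hall : ∀ x : Ω, x ∈ adjoin ℂ (Set.range s) := fun x => by rw [hs]; exact mem_top
  have htop2 : ∀ x : Ω, x ∈ adjoin ℂ (Set.range u ∪ {θ}) := by
    intro x
    rw [← adjoin_adjoin_left]
    have h1 : x ∈ adjoin (adjoin ℂ (Set.range u)) ({θ} : Set Ω) := by
      rw [hθ]
      exact mem_top
    exact h1
  obtain ⟨c1, f1, h1⟩ := L8d_const (Set.range s) u (fun i => hall _)
  obtain ⟨c2, f2, h2⟩ := const_mem (Set.range s) θ (hall _)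
  obtain ⟨c3, f3, h3⟩ := L8d_const (Set.range u ∪ {θ}) s (fun i => htop2 _)
  obtain ⟨c4, f4, h4⟩ := L8d_const (Set.range u)
    (fun m : Fin ((minpoly (adjoin ℂ (Set.range u)) θ).natDegree + 1) =>
      ((minpoly (adjoin ℂ (Set.range u)) θ).coeff m : Ω)) (fun m => SetLike.coe_mem _)
  refine ⟨c1 ∪ (c2 ∪ (c3 ∪ c4)), f1.union (f2.union (f3.union f4)), fun B _ _ _ _ h => ?_⟩
  have g1 := h1 B fun c hc => h c (Or.inl hc)
  have g2 := h2 B fun c hc => h c (Or.inr (Or.inl hc))
  have g3 := h3 B fun c hc => h c (Or.inr (Or.inr (Or.inl hc)))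
  have g4 := h4 B fun c hc => h c (Or.inr (Or.inr (Or.inr hc)))
  refine ⟨g1, ?_, ?_⟩
  · have e1 : AlgebraicIndependent B u :=
      hu.1.restrictScalars (algebraMap B ℂ).injective
    have e2 : u = (adjoin B (Set.range s)).val ∘
        (fun i => (⟨u i, g1 i⟩ : adjoin B (Set.range s))) := rfl
    rw [e2] at e1
    exact (AlgHom.algebraicIndependent_iff (adjoin B (Set.range s)).val
      (adjoin B (Set.range s)).val.injective).1 e1
  · rw [L8d_deg s u θ hint B g1 g2 g3 ?_, hd]
    · exact hu.2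
    · intro m
      by_cases hm : m < (minpoly (adjoin ℂ (Set.range u)) θ).natDegree + 1
      · exact g4 ⟨m, hm⟩
      · rw [Polynomial.coeff_eq_zero_of_natDegree_lt (by omega)]
        exact zero_mem _

end MP2619.Q6
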