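import Pool.Agent.Lib.MP_2619d0_ag.Q8.TDefs
import Pool.Agent.Lib.MP_2619d0_ag.Q8.L8a
import Pool.Agent.Lib.MP_2619d0_ag.Q8.L8b
import Pool.Agent.Lib.MP_2619d0_ag.Q8.L8c
import Pool.Agent.Lib.MP_2619d0_ag.Q8.L8d

/-!
Row q8-L8e: the source point over small fields
-/

set_option autoImplicit false

namespace MP2619.Q6

open MvPolynomial MP2619.R MP2619.N Pool.Agent.Lib.MP_2619d0_ag
  Pool.Agent.Lib.MP_2619d0_ag.T MP2619.T MP2619.Q5

universe u

/-- rational functions -/
theorem exists_rat (n : ℕ) (k : Type) [Field k] :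
    ∃ (M : Type) (_ : Field M) (_ : Algebra k M) (v : Fin n → M), AlgebraicIndependent k v ∧
      IntermediateField.adjoin k (Set.range v) = ⊤ := by
  have h := (MvPolynomial.algebraicIndependent_X (Fin n) k).map'
    (f := IsScalarTower.toAlgHom k (MvPolynomial (Fin n) k)
      (FractionRing (MvPolynomial (Fin n) k)))
    (IsFractionRing.injective (MvPolynomial (Fin n) k)
      (FractionRing (MvPolynomial (Fin n) k)))
  refine ⟨FractionRing (MvPolynomial (Fin n) k), inferInstance, inferInstance,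
    fun i => algebraMap (MvPolynomial (Fin n) k) (FractionRing (MvPolynomial (Fin n) k))
      (MvPolynomial.X i), h, ?_⟩
  set v : Fin n → FractionRing (MvPolynomial (Fin n) k) :=
    fun i => algebraMap (MvPolynomial (Fin n) k) (FractionRing (MvPolynomial (Fin n) k))
      (MvPolynomial.X i) with hv
  have h1 : ∀ a : MvPolynomial (Fin n) k,
      algebraMap (MvPolynomial (Fin n) k) (FractionRing (MvPolynomial (Fin n) k)) a ∈
        IntermediateField.adjoin k (Set.range v) := by
    intro a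
    induction a using MvPolynomial.induction_on with
    | C c =>
      have h2 : algebraMap (MvPolynomial (Fin n) k) (FractionRing (MvPolynomial (Fin n) k))
          (MvPolynomial.C c) = algebraMap k _ c := by
        rw [IsScalarTower.algebraMap_apply k (MvPolynomial (Fin n) k)
          (FractionRing (MvPolynomial (Fin n) k))]
        rfl
      rw [h2]
      exact IntermediateField.algebraMap_mem _ _
    | add p q hp hq => rw [map_add]; exact add_mem hp hq
    | mul_X p i hp =>
      rw [map_mul]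
      exact mul_mem hp (IntermediateField.subset_adjoin _ _ ⟨i, rfl⟩)
  refine eq_top_iff.2 fun x _ => ?_
  obtain ⟨a, b, _, rfl⟩ := IsFractionRing.div_surjective (A := MvPolynomial (Fin n) k) x
  exact div_mem (h1 a) (h1 b)

/-- embeddings of fields of rational functions -/
theorem exists_emb {k E E' : Type} [Field k] [Field E] [Field E'] [Algebra k E] [Algebra k E']
    {n : ℕ} (v : Fin n → E) (v' : Fin n → E') (hv : AlgebraicIndependent k v)
    (hv' : AlgebraicIndependent k v') (hgen : IntermediateField.adjoin k (Set.range v) = ⊤) :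
    ∃ ψ : E →ₐ[k] E', ∀ i, ψ (v i) = v' i := by
  let g : FractionRing (MvPolynomial (Fin n) k) ≃ₐ[k] E :=
    (hv.aevalEquivField.trans (IntermediateField.equivOfEq hgen)).trans
      IntermediateField.topEquiv
  let g' : FractionRing (MvPolynomial (Fin n) k) →ₐ[k] E' :=
    (IntermediateField.adjoin k (Set.range v')).val.comp (hv'.aevalEquivField : _ →ₐ[k] _)
  have hg : ∀ i, g (algebraMap (MvPolynomial (Fin n) k) _ (X i)) = v i := by
    intro i
    have h1 : ((hv.aevalEquivField (algebraMap (MvPolynomial (Fin n) k) _ (X i)) :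
        IntermediateField.adjoin k (Set.range v)) : E) = aeval v (X i) :=
      hv.aevalEquivField_algebraMap_apply_coe (X i)
    rw [aeval_X] at h1
    exact h1
  have hg' : ∀ i, g' (algebraMap (MvPolynomial (Fin n) k) _ (X i)) = v' i := by
    intro i
    have h1 : ((hv'.aevalEquivField (algebraMap (MvPolynomial (Fin n) k) _ (X i)) :
        IntermediateField.adjoin k (Set.range v')) : E') = aeval v' (X i) :=
      hv'.aevalEquivField_algebraMap_apply_coe (X i)
    rw [aeval_X] at h1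
    exact h1
  refine ⟨g'.comp (g.symm : E →ₐ[k] _), fun i => ?_⟩
  rw [← hg i]
  show g' (g.symm (g _)) = _
  rw [AlgEquiv.symm_apply_apply, hg' i]

/-- odd degree and isomorphisms -/
theorem Pr_equiv {k : Type} {M1 : Type} {M2 : Type} [Field k] [Field M1] [Field M2]
    [Algebra k M1] [Algebra k M2] (e : M2 ≃ₐ[k] M1) {n : ℕ} (u : Fin n → M2) (h : Pr k u) :
    Pr k (fun i => e (u i)) := by
  refine ⟨?_, ?_⟩
  · exact AlgebraicIndependent.map' h.1 (f := (e : M2 →ₐ[k] M1)) e.injective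
  · have h1 : (IntermediateField.adjoin k (Set.range u)).map (e : M2 →ₐ[k] M1) =
        IntermediateField.adjoin k (Set.range (fun i => e (u i))) := by
      rw [IntermediateField.adjoin_map]
      congr 1
      ext y
      simp
    have h2 : Module.finrank (IntermediateField.adjoin k (Set.range u)) M2 =
        Module.finrank ((IntermediateField.adjoin k (Set.range u)).map (e : M2 →ₐ[k] M1)) M1 := by
      refine Algebra.finrank_eq_of_equiv_equiv
        (((IntermediateField.adjoin k (Set.range u)).equivMap (e : M2 →ₐ[k] M1)) : _ ≃+* _)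
        (e : M2 ≃+* M1) ?_
      ext x
      rfl
    rw [← h1, ← h2]
    exact h.2

/-- the transcendence degree of `M` -/
theorem Pr_trdeg {k : Type} {M : Type} [Field k] [Field M] [Algebra k M] {n : ℕ} (u : Fin n → M)
    (h : Pr k u) : Algebra.trdeg k M = n := by
  have h0 : Module.finrank (IntermediateField.adjoin k (Set.range u)) M ≠ 0 := fun h1 => by
    have := h.2
    rw [h1] at this
    exact absurd this (by decide)
  have hfd : FiniteDimensional (IntermediateField.adjoin k (Set.range u)) M :=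
    Module.finite_of_finrank_pos (Nat.pos_of_ne_zero h0)
  have halgF : Algebra.IsAlgebraic (IntermediateField.adjoin k (Set.range u)) M :=
    Algebra.IsAlgebraic.of_finite _ _
  have hub : IsTranscendenceBasis k u :=
    h.1.isTranscendenceBasis_iff_isAlgebraic.mpr
      (IntermediateField.isAlgebraic_adjoin_iff_top.mp halgF)
  have htr := hub.lift_cardinalMk_eq_trdeg
  rw [Cardinal.mk_fin, Cardinal.lift_natCast, Cardinal.lift_id] at htr
  exact htr.symm

/-- `trdeg Q + 2 = trdeg Ω` -/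
theorem trdeg_two {B Q Ω : Type} [Field B] [Field Q] [Field Ω] [Algebra B Q] [Algebra Q Ω]
    [Algebra B Ω] [IsScalarTower B Q Ω] (v : Fin 2 → Ω) (hv : AlgebraicIndependent Q v) {m : ℕ}
    (h : Algebra.trdeg B Ω = ((m + 2 : ℕ) : Cardinal)) : Algebra.trdeg B Q ≤ (m : Cardinal) := by
  have h1 := trdeg_add_eq B Q (A := Ω)
  have h2 : ((2 : ℕ) : Cardinal) ≤ Algebra.trdeg Q Ω := by
    have h3 := hv.cardinalMk_le_trdeg
    rwa [Cardinal.mk_fin] at h3
  have h4 : Algebra.trdeg B Q + ((2 : ℕ) : Cardinal) ≤ ((m : ℕ) : Cardinal) + ((2 : ℕ) : Cardinal) := by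
    rw [← Nat.cast_add, ← h, ← h1]
    exact add_le_add_right h2 _
  exact (Cardinal.add_le_add_iff_of_lt_aleph0 (Cardinal.natCast_lt_aleph0)).1 h4

section

variable {D n N s : ℕ} {f : Fin (D + 4) → MvPolynomial (Fin N) ℂ}
  {Q0 : Type} [Field Q0] [Algebra ℂ Q0] {p' : Fin N → Q0}
  {Ω1 : Type} [Field Ω1] [Algebra ℂ Ω1] [Algebra Q0 Ω1] [IsScalarTower ℂ Q0 Ω1]

/-- the conclusion of `descent` for the generators `v1`, `p'` -/
def DS (B : Type) [Field B] [Algebra B ℂ] [Algebra B Ω1] (f : Fin (D + 4) → MvPolynomial (Fin N) ℂ)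
    (w : ℂ) (p' : Fin N → Q0) (v1 : Fin 2 → Ω1) (a : Fin (D + 4)) : Prop :=
  ∃ h : ∀ i, zg w (fun i => v1 0 * algebraMap Q0 Ω1 (aeval p' (f i)))
      (fun i => v1 1 * algebraMap Q0 Ω1 (aeval p' (f i))) (Pi.single a 1) i ∈
        IntermediateField.adjoin B (Set.range (Fin.append v1 (fun j => algebraMap Q0 Ω1 (p' j)))),
    Pr B (fun i => (⟨_, h i⟩ :
      IntermediateField.adjoin B (Set.range (Fin.append v1 (fun j => algebraMap Q0 Ω1 (p' j))))))

variable {B : Type} [Field B] [Algebra B ℂ] [Algebra B Q0] [IsScalarTower B ℂ Q0]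
  [Algebra B Ω1] [IsScalarTower B ℂ Ω1] [IsScalarTower B Q0 Ω1]

theorem gen_src (p' : Fin N → Q0) : IntermediateField.adjoin B (Set.range
    (fun j => (⟨p' j, IntermediateField.subset_adjoin _ _ ⟨j, rfl⟩⟩ :
      IntermediateField.adjoin B (Set.range p')))) = ⊤ := by
  apply IntermediateField.lift_injective (IntermediateField.adjoin B (Set.range p'))
  rw [IntermediateField.lift_adjoin, IntermediateField.lift_top]
  change IntermediateField.adjoin B _ = IntermediateField.adjoin B (Set.range p')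
  congr 1
  ext z
  constructor
  · rintro ⟨_, ⟨i, rfl⟩, rfl⟩
    exact ⟨i, rfl⟩
  · rintro ⟨i, rfl⟩
    exact ⟨_, ⟨i, rfl⟩, rfl⟩

/-- `pr` in `Src` -/
theorem pr_src (v1 : Fin 2 → Ω1) (hv1 : AlgebraicIndependent Q0 v1)
    (fB : Fin (D + 4) → MvPolynomial (Fin N) B)
    (hfB : ∀ i, MvPolynomial.map (algebraMap B ℂ) (fB i) = f i) (w : ℂ) (wB : B)
    (hwB : algebraMap B ℂ wB = w) (a : Fin (D + 4)) (hD : DS B f w p' v1 a)
    (Q : IntermediateField B Q0) (hQ : Q = IntermediateField.adjoin B (Set.range p'))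
    (q : Fin N → Q) (hq : ∀ j, (q j : Q0) = p' j)
    (Ω : Type) [Field Ω] [Algebra Q Ω] [Algebra B Ω] [IsScalarTower B Q Ω] (v : Fin 2 → Ω)
    (hv : AlgebraicIndependent Q v)
    (hgen : IntermediateField.adjoin Q (Set.range v) = ⊤) :
    Pr B (zg wB (fun i => v 0 * algebraMap Q Ω (aeval q (fB i)))
      (fun i => v 1 * algebraMap Q Ω (aeval q (fB i))) (Pi.single a 1)) := by
  obtain ⟨h, hPr⟩ := hD
  have t2 : IsScalarTower B Q Ω1 := IsScalarTower.of_algebraMap_eq fun b => by
    rw [IsScalarTower.algebraMap_apply B Q0 Ω1]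
    rfl
  have hv1Q : AlgebraicIndependent Q v1 := hv1.restrictScalars (algebraMap Q Q0).injective
  obtain ⟨ψ, hψ⟩ := exists_emb v v1 hv hv1Q hgen
  set E := IntermediateField.adjoin B
    (Set.range (Fin.append v1 (fun j => algebraMap Q0 Ω1 (p' j)))) with hE
  have hv1E : ∀ i, v1 i ∈ E := fun i =>
    IntermediateField.subset_adjoin _ _ ⟨Fin.castAdd N i, Fin.append_left _ _ i⟩
  have hpE : ∀ j, algebraMap Q0 Ω1 (p' j) ∈ E := fun j =>
    IntermediateField.subset_adjoin _ _ ⟨Fin.natAdd 2 j, Fin.append_right _ _ j⟩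
  have hQE : ∀ q : Q, algebraMap Q Ω1 q ∈ E := by
    intro q
    have h1 : Q ≤ E.comap (IsScalarTower.toAlgHom B Q0 Ω1) := by
      rw [hQ, IntermediateField.adjoin_le_iff]
      rintro _ ⟨j, rfl⟩
      exact hpE j
    exact h1 q.2
  have hψE : ∀ x : Ω, ψ x ∈ E := by
    intro x
    have hx : x ∈ IntermediateField.adjoin Q (Set.range v) := by
      rw [hgen]
      exact IntermediateField.mem_top
    induction hx using IntermediateField.adjoin_induction with
    | mem y hy =>
      obtain ⟨i, rfl⟩ := hy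
      rw [hψ]
      exact hv1E i
    | algebraMap q =>
      rw [AlgHom.commutes]
      exact hQE q
    | add x y _ _ hx hy =>
      rw [map_add]
      exact add_mem hx hy
    | inv x _ hx =>
      rw [map_inv₀]
      exact inv_mem hx
    | mul x y _ _ hx hy =>
      rw [map_mul]
      exact mul_mem hx hy
  let ψE : Ω →ₐ[B] E := (ψ.restrictScalars B).codRestrict E.toSubalgebra hψE
  have hψE1 : ∀ x, ((ψE x : E) : Ω1) = ψ x := fun _ => rfl
  have hsurj : Function.Surjective ψE := by
    have h1 : E ≤ (ψ.restrictScalars B).fieldRange := by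
      rw [hE, IntermediateField.adjoin_le_iff]
      rintro _ ⟨i, rfl⟩
      refine Fin.addCases (fun i => ?_) (fun j => ?_) i
      · rw [Fin.append_left]
        exact ⟨v i, hψ i⟩
      · rw [Fin.append_right]
        refine ⟨algebraMap Q Ω (q j), ?_⟩
        have h2 : ψ (algebraMap Q Ω (q j)) = algebraMap Q Ω1 (q j) := ψ.commutes _
        have h3 : algebraMap Q Ω1 (q j) = algebraMap Q0 Ω1 (q j : Q0) := rfl
        rw [hq] at h3
        exact h2.trans h3
    intro y
    obtain ⟨x, hx⟩ := h1 y.2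
    exact ⟨x, Subtype.ext hx⟩
  let e : Ω ≃ₐ[B] E := AlgEquiv.ofBijective ψE ⟨ψE.injective, hsurj⟩
  have h1 := Pr_equiv e.symm _ hPr
  have h2 : (fun i => e.symm (⟨_, h i⟩ : E)) =
      zg wB (fun i => v 0 * algebraMap Q Ω (aeval q (fB i)))
        (fun i => v 1 * algebraMap Q Ω (aeval q (fB i))) (Pi.single a 1) := by
    funext i
    rw [AlgEquiv.symm_apply_eq]
    apply Subtype.ext
    have h3 : ∀ i, ψ (algebraMap Q Ω (aeval q (fB i))) = algebraMap Q0 Ω1 (aeval p' (f i)) := by
      intro i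
      rw [AlgHom.commutes]
      show algebraMap Q0 Ω1 (algebraMap Q Q0 _) = _
      congr 1
      rw [← hfB i, MvPolynomial.aeval_map_algebraMap,
        ← MvPolynomial.aeval_algebraMap_apply (A := Q) Q0]
      congr 2
      funext j
      exact hq j
    have h4 : ∀ c : B, ψ (algebraMap B Ω c) = algebraMap B Ω1 c := fun c =>
      (ψ.restrictScalars B).commutes c
    have h5 : algebraMap B Ω1 wB = algebraMap ℂ Ω1 w := by
      rw [← hwB, ← IsScalarTower.algebraMap_apply B ℂ Ω1]
    have h6 : ψ (zg wB (fun i => v 0 * algebraMap Q Ω (aeval q (fB i)))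
        (fun i => v 1 * algebraMap Q Ω (aeval q (fB i))) (Pi.single a 1) i) =
        zg w (fun i => v1 0 * algebraMap Q0 Ω1 (aeval p' (f i)))
          (fun i => v1 1 * algebraMap Q0 Ω1 (aeval p' (f i))) (Pi.single a 1) i := by
      unfold zg
      rw [map_add, map_mul, map_mul, map_mul, h3, h4, hψ, hψ, map_pow, map_pow, h5]
    exact h6.symm
  rw [h2] at h1
  exact h1

theorem tr_src (v1 : Fin 2 → Ω1) (hv1 : AlgebraicIndependent Q0 v1)
    (fB : Fin (D + 4) → MvPolynomial (Fin N) B)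
    (hfB : ∀ i, MvPolynomial.map (algebraMap B ℂ) (fB i) = f i) (w : ℂ) (wB : B)
    (hwB : algebraMap B ℂ wB = w) (a : Fin (D + 4)) (hD : DS B f w p' v1 a) :
    Algebra.trdeg B (IntermediateField.adjoin B (Set.range p')) ≤ ((D + 2 : ℕ) : Cardinal) := by
  obtain ⟨Q, hQ⟩ : ∃ Q : IntermediateField B Q0, Q = IntermediateField.adjoin B (Set.range p') :=
    ⟨_, rfl⟩
  rw [← hQ]
  have hm : ∀ j, p' j ∈ Q := fun j => by
    rw [hQ]
    exact IntermediateField.subset_adjoin _ _ ⟨j, rfl⟩
  obtain ⟨Ω, iF, iA, v, hv, hgen⟩ := exists_rat 2 Q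
  let _ : Algebra B Ω := ((algebraMap Q Ω).comp (algebraMap B Q)).toAlgebra
  have t1 : IsScalarTower B Q Ω := IsScalarTower.of_algebraMap_eq fun _ => rfl
  have h1 := pr_src v1 hv1 fB hfB w wB hwB a hD Q hQ (fun j => ⟨p' j, hm j⟩) (fun _ => rfl)
    Ω v hv hgen
  exact trdeg_two v hv (Pr_trdeg _ h1)

end

theorem exists_src {D n N s : ℕ} (K : Bk n N s) {F : MvPolynomial (Fin (D + 4)) ℂ} (hF : VG F)
    {e : Fin s → ℕ} (f : Fin (D + 4) → MvPolynomial (Fin N) ℂ) (hd : ∀ i, K.MH (f i) e)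
    {L : Type u} [Field L] [Algebra ℂ L] (p : Fin N → L) (hp : ∀ i, ∃ j, K.bl j = i ∧ p j ≠ 0)
    (hx : HG F (fun j => aeval p (f j)))
    (hodd : Odd (Module.finrank (ratioField (fun j => aeval p (f j))) L)) (w : ℂ)
    (hw : w ^ 2 + w + 1 = 0) :
    ∃ cof : Set ℂ, cof.Finite ∧ ∀ (k0 B : Type) [Field k0] [Field B] [Algebra k0 B]
      [Algebra B ℂ] [Algebra k0 ℂ] [IsScalarTower k0 B ℂ],
      (∀ c ∈ cof, ∃ b : k0, algebraMap k0 ℂ b = c) →
      ∀ (f0 : Fin (D + 4) → MvPolynomial (Fin N) k0),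
        (∀ i, MvPolynomial.map (algebraMap k0 ℂ) (f0 i) = f i) →
      ∀ (wB : B), algebraMap B ℂ wB = w →
      ∃ (Q : Type) (_ : Field Q) (_ : Algebra k0 Q) (_ : Algebra B Q) (_ : IsScalarTower k0 B Q)
        (p' : Fin N → Q), K.Src (m := D + 2) f0 wB p' := by
  classical
  obtain ⟨Q0, _, _, p', hp', hgen', hx', hodd'⟩ := exists_src0 K hF f hd p hp hx hodd
  have hP : Prime F := prime_HG hF _ hx'
  obtain ⟨Ω1, _, _, v1, hv1, hg1⟩ := exists_rat 2 Q0
  let _ : Algebra ℂ Ω1 := ((algebraMap Q0 Ω1).comp (algebraMap ℂ Q0)).toAlgebra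
  have t0 : IsScalarTower ℂ Q0 Ω1 := IsScalarTower.of_algebraMap_eq fun _ => rfl
  have hs : IntermediateField.adjoin ℂ
      (Set.range (Fin.append v1 (fun j => algebraMap Q0 Ω1 (p' j)))) = ⊤ := by
    set E := IntermediateField.adjoin ℂ
      (Set.range (Fin.append v1 (fun j => algebraMap Q0 Ω1 (p' j)))) with hE
    have hv1E : ∀ i, v1 i ∈ E := fun i =>
      IntermediateField.subset_adjoin _ _ ⟨Fin.castAdd N i, Fin.append_left _ _ i⟩
    have hpE : ∀ j, algebraMap Q0 Ω1 (p' j) ∈ E := fun j =>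
      IntermediateField.subset_adjoin _ _ ⟨Fin.natAdd 2 j, Fin.append_right _ _ j⟩
    have hQE : ∀ q : Q0, algebraMap Q0 Ω1 q ∈ E := by
      intro q
      have h1 : (⊤ : IntermediateField ℂ Q0) ≤ E.comap (IsScalarTower.toAlgHom ℂ Q0 Ω1) := by
        rw [← hgen', IntermediateField.adjoin_le_iff]
        rintro _ ⟨j, rfl⟩
        exact hpE j
      exact h1 IntermediateField.mem_top
    rw [eq_top_iff]
    intro x _
    have hx : x ∈ IntermediateField.adjoin Q0 (Set.range v1) := by
      rw [hg1]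
      exact IntermediateField.mem_top
    induction hx using IntermediateField.adjoin_induction with
    | mem y hy =>
      obtain ⟨i, rfl⟩ := hy
      exact hv1E i
    | algebraMap q => exact hQE q
    | add x y _ _ hx hy => exact add_mem (hx trivial) (hy trivial)
    | inv x _ hx => exact inv_mem (hx trivial)
    | mul x y _ _ hx hy => exact mul_mem (hx trivial) (hy trivial)
  have hdes : ∀ a : Fin (D + 4), ∃ cof : Set ℂ, cof.Finite ∧ ∀ (B : Type) [Field B] [Algebra B ℂ]
      [Algebra B Ω1] [IsScalarTower B ℂ Ω1],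
      (∀ c ∈ cof, ∃ b : B, algebraMap B ℂ b = c) → DS B f w p' v1 a := by
    intro a
    have h1 := pr_gen hF hP v1 hv1 hg1 _ hx' hodd' w hw a
    obtain ⟨cof, hcf, hc⟩ := descent _ _ hs h1
    refine ⟨cof, hcf, fun B _ _ _ _ hB => ?_⟩
    exact hc B hB
  choose cof hcf hcof using hdes
  refine ⟨insert w (⋃ a, cof a), (Set.finite_iUnion hcf).insert w, ?_⟩
  intro k0 B _ _ _ _ _ _ hk0 f0 hf0 wB hwB
  let _ : Algebra B Q0 := ((algebraMap ℂ Q0).comp (algebraMap B ℂ)).toAlgebra
  let _ : Algebra k0 Q0 := ((algebraMap ℂ Q0).comp (algebraMap k0 ℂ)).toAlgebra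
  let _ : Algebra B Ω1 := ((algebraMap ℂ Ω1).comp (algebraMap B ℂ)).toAlgebra
  let _ : Algebra k0 Ω1 := ((algebraMap ℂ Ω1).comp (algebraMap k0 ℂ)).toAlgebra
  have t1 : IsScalarTower B ℂ Q0 := IsScalarTower.of_algebraMap_eq fun _ => rfl
  have t2 : IsScalarTower k0 ℂ Q0 := IsScalarTower.of_algebraMap_eq fun _ => rfl
  have t3 : IsScalarTower B ℂ Ω1 := IsScalarTower.of_algebraMap_eq fun _ => rfl
  have t4 : IsScalarTower k0 ℂ Ω1 := IsScalarTower.of_algebraMap_eq fun _ => rfl
  have t5 : IsScalarTower B Q0 Ω1 := IsScalarTower.of_algebraMap_eq fun _ => rfl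
  have t6 : IsScalarTower k0 Q0 Ω1 := IsScalarTower.of_algebraMap_eq fun _ => rfl
  have t7 : IsScalarTower k0 B Q0 := IsScalarTower.of_algebraMap_eq fun c => by
    show algebraMap ℂ Q0 (algebraMap k0 ℂ c) = algebraMap ℂ Q0 (algebraMap B ℂ (algebraMap k0 B c))
    rw [← IsScalarTower.algebraMap_apply k0 B ℂ]
  obtain ⟨wk, hwk⟩ := hk0 w (Set.mem_insert _ _)
  have hDk : ∀ a, DS k0 f w p' v1 a := fun a =>
    hcof a k0 fun c hc => hk0 c (Set.mem_insert_of_mem _ (Set.mem_iUnion.2 ⟨a, hc⟩))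
  have hDB : ∀ a, DS B f w p' v1 a := fun a =>
    hcof a B fun c hc => by
      obtain ⟨b, hb⟩ := hk0 c (Set.mem_insert_of_mem _ (Set.mem_iUnion.2 ⟨a, hc⟩))
      exact ⟨algebraMap k0 B b, by rw [← IsScalarTower.algebraMap_apply k0 B ℂ, hb]⟩
  have hfB : ∀ i, MvPolynomial.map (algebraMap B ℂ) (MvPolynomial.map (algebraMap k0 B) (f0 i)) =
      f i := by
    intro i
    rw [MvPolynomial.map_map, ← IsScalarTower.algebraMap_eq k0 B ℂ, hf0]
  refine ⟨IntermediateField.adjoin B (Set.range p'), inferInstance, inferInstance, inferInstance,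
    inferInstance, fun j => ⟨p' j, IntermediateField.subset_adjoin _ _ ⟨j, rfl⟩⟩, ?_⟩
  refine ⟨?_, gen_src p', ?_, ?_, ?_⟩
  · intro i
    obtain ⟨j, hj, hj0⟩ := hp' i
    exact ⟨j, hj, fun h => hj0 (congrArg Subtype.val h)⟩
  · exact tr_src v1 hv1 (fun i => MvPolynomial.map (algebraMap k0 B) (f0 i)) hfB w wB hwB 0 (hDB 0)
  · refine le_trans ?_ (tr_src v1 hv1 f0 hf0 w wk hwk 0 (hDk 0))
    set Q := IntermediateField.adjoin B (Set.range p') with hQ
    have t8 : IsScalarTower k0 Q Q0 := IsScalarTower.of_algebraMap_eq fun _ => rfl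
    have h1 : ∀ x : K.rt k0 (fun j => (⟨p' j, IntermediateField.subset_adjoin _ _ ⟨j, rfl⟩⟩ : Q)),
        algebraMap Q Q0 x.1 ∈ IntermediateField.adjoin k0 (Set.range p') := by
      intro x
      have h2 : K.rt k0 (fun j => (⟨p' j, IntermediateField.subset_adjoin _ _ ⟨j, rfl⟩⟩ : Q)) ≤
          (IntermediateField.adjoin k0 (Set.range p')).comap (IsScalarTower.toAlgHom k0 Q Q0) := by
        refine K.rt_le _ _ fun i j _ => ?_
        exact div_mem (IntermediateField.subset_adjoin _ _ ⟨i, rfl⟩)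
          (IntermediateField.subset_adjoin _ _ ⟨j, rfl⟩)
      exact h2 x.2
    let g : K.rt k0 (fun j => (⟨p' j, IntermediateField.subset_adjoin _ _ ⟨j, rfl⟩⟩ : Q)) →ₐ[k0]
        IntermediateField.adjoin k0 (Set.range p') :=
      ((IsScalarTower.toAlgHom k0 Q Q0).comp (IntermediateField.val _)).codRestrict
        (IntermediateField.adjoin k0 (Set.range p')).toSubalgebra h1
    exact _root_.trdeg_le_of_injective g g.injective
  · intro Ω _ _ _ _ α β hv hgen a
    have hr : Set.range ![α, β] = {α, β} := by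
      rw [Matrix.range_cons, Matrix.range_cons, Matrix.range_empty, Set.union_empty]
      rfl
    rw [← hr] at hgen
    have h1 := pr_src v1 hv1 (fun i => MvPolynomial.map (algebraMap k0 B) (f0 i)) hfB w wB hwB a
      (hDB a) _ rfl (fun j => ⟨p' j, IntermediateField.subset_adjoin _ _ ⟨j, rfl⟩⟩) (fun _ => rfl)
      Ω ![α, β] hv hgen
    simp only [MvPolynomial.aeval_map_algebraMap] at h1
    exact h1

end MP2619.Q6
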