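import Pool.Agent.Lib.MP_2619d0_ag.Q8.M13
import Pool.Agent.Lib.MP_2619d0_ag.Q8.L8e
import Pool.Agent.Lib.MP_2619d0_ag.Q8.VRed
import Pool.Agent.Lib.MP_2619d0_ag.Q6.RE
import Pool.Agent.Lib.MP_2619d0_ag.Q7.N5a
import Pool.Agent.Lib.MP_2619d0_ag.Q7.N5
import Pool.Agent.Lib.MP_2619d0_ag.CUB.Stable2

/-!
# Theorem Q8: points of products of projective spaces of any dimension
-/

set_option autoImplicit false

namespace MP2619.Q6

open MvPolynomial MP2619.R MP2619.N Pool.Agent.Lib.MP_2619d0_ag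
  Pool.Agent.Lib.MP_2619d0_ag.T MP2619.T MP2619.Q5

universe u

/-- the source of any dimension, simple base points -/
theorem q8_simple {q n N s : ℕ} (K : Bk n N s)
    {F : MvPolynomial (Fin (2 * q + 2 + 4)) ℂ} (hF : VG F)
    (f : Fin (2 * q + 2 + 4) → MvPolynomial (Fin N) ℂ)
    {e : Fin s → ℕ} (hd : ∀ i, K.MH (f i) e) (h0 : aeval f F = 0) (hm : K.MultC f)
    {L : Type u} [Field L] [Algebra ℂ L] (p : Fin N → L) (hp : ∀ i, ∃ j, K.bl j = i ∧ p j ≠ 0)
    (hx : HG F (fun j => aeval p (f j))) :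
    ¬ Odd (Module.finrank (ratioField (fun j => aeval p (f j))) L) := by
  intro hodd
  exact q8_core (mm := 2 * q + 2 + 2) K (RE_holds q) (by omega) (q + 2) (by omega) hF f hd h0 hm
    (fun k0 _ _ f0 h => mult1_of_CB K f0 h)
    (fun w hw => exists_src (D := 2 * q + 2) K hF f hd p hp hx hodd w hw)

/-- cubic forms, any number of variables -/
theorem cubic_any {m N : ℕ} (hm : 4 ≤ m) {F : MvPolynomial (Fin (m+1+1)) ℂ} (hF : VG F)
    (f : Fin (m+1+1) → MvPolynomial (Fin N) ℂ) {e : ℕ} (he : e ≤ 3)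
    (hd : ∀ i, (f i).IsHomogeneous e) (h0 : aeval f F = 0) {L : Type u} [Field L] [Algebra ℂ L]
    (p : Fin N → L) (hx : HG F (fun j => aeval p (f j))) :
    ¬ Odd (Module.finrank (ratioField (fun j => aeval p (f j))) L) := by
  intro hodd
  obtain ⟨E, hE⟩ : ∃ E : IntermediateField ℂ L, E = ⊥ := ⟨_, rfl⟩
  let φ : Fin (m+1+1) → MvPolynomial (Fin N) E := fun j => MvPolynomial.map (algebraMap ℂ E) (f j)
  have hev : (fun j => aeval p (φ j)) = fun j => aeval p (f j) := by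
    funext j
    exact MvPolynomial.aeval_map_algebraMap _ _ _
  have hφ0 : aeval φ F = 0 := by
    have h1 := MvPolynomial.comp_aeval_apply (R := ℂ) (f := f)
      (MvPolynomial.mapAlgHom (σ := Fin N) (Algebra.ofId ℂ E)) F
    rw [h0, map_zero] at h1
    exact h1.symm
  have htr : Algebra.trdeg ℂ E ≤ ((0 : ℕ) : Cardinal.{u}) := by
    rw [hE]
    have h1 : Algebra.IsAlgebraic ℂ (⊥ : IntermediateField ℂ L) := inferInstance
    rw [_root_.trdeg_eq_zero_iff.2 h1]
    simp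
  have h := MP2619.CUB.stable_fam (E := E) hF he φ (fun j => (hd j).map _) hφ0 p
    (by rw [hev]; exact hx) htr (by omega : 3 * 0 + 4 ≤ m) (r := 0) Fin.elim0
    (algebraicIndependent_empty_type_iff.2 (FaithfulSMul.algebraMap_injective _ _))
  rw [Set.range_eq_empty, IntermediateField.adjoin_empty, IntermediateField.finrank_bot'] at h
  rw [hev] at h
  exact h hodd

theorem q8_final {q n N s : ℕ} (K : Bk n N s) (ha : ∀ i, ∃ j, K.bl j = i ∧ K.wt j ≠ 0)
    {F : MvPolynomial (Fin (2 * q + 2 + 4)) ℂ} (hF : VG F)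
    (f : Fin (2 * q + 2 + 4) → MvPolynomial (Fin N) ℂ)
    {e : Fin s → ℕ} (hd : ∀ i, K.MH (f i) e) (h0 : aeval f F = 0)
    (hc : K.MultC f ∨ ∑ i, e i ≤ 3 ∨ (n = 2 * q + 2 + 2 ∧ ∑ i, e i ≤ 4))
    {L : Type u} [Field L] [Algebra ℂ L] (p : Fin N → L) (hp : ∀ i, ∃ j, K.bl j = i ∧ p j ≠ 0)
    (hx : HG F (fun j => aeval p (f j))) {r : ℕ} (v : Fin r → L)
    (hv : AlgebraicIndependent (ratioField (fun j => aeval p (f j))) v) :
    ¬ Odd (Module.finrank (IntermediateField.adjoin (ratioField (fun j => aeval p (f j)))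
      (Set.range v)) L) := by
  refine v_red (m := 2 * q + 2 + 2) K hF f (fun L _ _ p hp hx => ?_) p hp hx v hv
  by_cases hm : K.MultC f
  · exact q8_simple K hF f hd h0 hm p hp hx
  rcases hc with h | h | ⟨h, h'⟩
  · exact absurd h hm
  · exact cubic_any (m := 2 * q + 2 + 2) (by omega) hF f h (fun i => (hd i).hom) h0 p hx
  · subst h
    exact K.low (by omega) ha hF f hd h' h0 hm p hx

end MP2619.Q6
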