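import Pool.Agent.Lib.MP_2619d0_ag.Q8.TDefs
import Pool.Agent.Lib.MP_2619d0_ag.Q8.L8a
import Pool.Agent.Lib.MP_2619d0_ag.Q8.L8b
import Pool.Agent.Lib.MP_2619d0_ag.Q8.L8c
import Pool.Agent.Lib.MP_2619d0_ag.Q8.L8d
import Pool.Agent.Lib.MP_2619d0_ag.Q8.L8e

/-!
Row q8-L8f: the source point over small fields, with its embedding in `L`
-/

set_option autoImplicit false

namespace MP2619.Q6

open MvPolynomial MP2619.R MP2619.N Pool.Agent.Lib.MP_2619d0_ag
  Pool.Agent.Lib.MP_2619d0_ag.T MP2619.T MP2619.Q5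

universe u

/-- the values of forms at elements of a field -/
private theorem L8f_mem {L : Type u} [Field L] [Algebra ℂ L] (E : IntermediateField ℂ L) {n : ℕ}
    (y : Fin n → L) (hy : ∀ i, y i ∈ E) (G : MvPolynomial (Fin n) ℂ) : aeval y G ∈ E := by
  have h1 : aeval (fun i => algebraMap E L (⟨y i, hy i⟩ : E)) G =
      algebraMap E L (aeval (fun i => (⟨y i, hy i⟩ : E)) G) :=
    MvPolynomial.aeval_algebraMap_apply L (fun i => (⟨y i, hy i⟩ : E)) G
  have h2 : aeval y G = algebraMap E L (aeval (fun i => (⟨y i, hy i⟩ : E)) G) := h1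
  rw [h2]
  exact (aeval (fun i => (⟨y i, hy i⟩ : E)) G).2

/-- `exists_src0` with the embedding -/
theorem exists_src0f {D n N s : ℕ} (K : Bk n N s) {F : MvPolynomial (Fin (D + 4)) ℂ} (hF : VG F)
    {e : Fin s → ℕ} (f : Fin (D + 4) → MvPolynomial (Fin N) ℂ) (hd : ∀ i, K.MH (f i) e)
    {L : Type u} [Field L] [Algebra ℂ L] (p : Fin N → L) (J : Fin s → Fin N)
    (hJ : ∀ i, K.bl (J i) = i) (hJ0 : ∀ i, p (J i) ≠ 0)
    (hx : HG F (fun j => aeval p (f j)))
    (hodd : Odd (Module.finrank (ratioField (fun j => aeval p (f j))) L)) :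
    ∃ (Q : Type) (_ : Field Q) (_ : Algebra ℂ Q) (p' : Fin N → Q) (ι : Q →ₐ[ℂ] L), K.Nz p' ∧
      (∀ j, ι (p' j) = (p (J (K.bl j)))⁻¹ * p j) ∧
      IntermediateField.adjoin ℂ (Set.range p') = ⊤ ∧ HG F (fun j => aeval p' (f j)) ∧
      Odd (Module.finrank (rat ℂ (fun j => aeval p' (f j))) Q) := by
  classical
  let p1 : Fin N → L := fun j => (p (J (K.bl j)))⁻¹ * p j
  have hcc : ∏ i, (p (J i))⁻¹ ^ e i ≠ 0 :=
    Finset.prod_ne_zero_iff.2 fun i _ => pow_ne_zero _ (inv_ne_zero (hJ0 i))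
  have hf1 : (fun i => aeval p1 (f i)) = fun i => (∏ i, (p (J i))⁻¹ ^ e i) * aeval p (f i) :=
    funext fun i => K.mh_smul (hd i) (fun i => (p (J i))⁻¹) p
  have hx1 : HG F (fun j => aeval p1 (f j)) := by
    rw [hf1]
    exact HG_smul hx _ hcc
  have hodd1 : Odd (Module.finrank (ratioField (fun j => aeval p1 (f j))) L) := by
    rw [hf1, ratioField_smul' _ hcc]
    exact hodd
  obtain ⟨Q, _, _, ι, p', hp', hgen⟩ := exists_model p1
  obtain ⟨E, hE⟩ : ∃ E : IntermediateField ℂ L, E = ι.fieldRange := ⟨_, rfl⟩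
  have hmem : ∀ j, p1 j ∈ E := fun j => by
    rw [hE]
    exact ⟨p' j, hp' j⟩
  have hle : ratioField (fun j => aeval p1 (f j)) ≤ E := by
    unfold ratioField
    rw [IntermediateField.adjoin_le_iff]
    rintro _ ⟨i, j, rfl⟩
    exact div_mem (L8f_mem E _ hmem _) (L8f_mem E _ hmem _)
  let y : Fin (D + 4) → E := fun j => aeval (fun l => (⟨p1 l, hmem l⟩ : E)) (f j)
  have hy : (fun j => algebraMap E L (y j)) = fun j => aeval p1 (f j) := by
    funext j
    exact (MvPolynomial.aeval_algebraMap_apply L (fun l => (⟨p1 l, hmem l⟩ : E)) (f j)).symm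
  have hl : IntermediateField.lift (rat ℂ y) = ratioField (fun j => aeval p1 (f j)) := by
    rw [← hy]
    unfold rat
    rw [IntermediateField.lift_adjoin]
    unfold ratioField
    congr 1
    ext z
    constructor
    · rintro ⟨_, ⟨i, j, rfl⟩, rfl⟩
      exact ⟨i, j, rfl⟩
    · rintro ⟨i, j, rfl⟩
      exact ⟨y i / y j, ⟨i, j, rfl⟩, rfl⟩
  have hoddE : Odd (Module.finrank (rat ℂ y) E) := by
    have h8 : Module.finrank (rat ℂ y) E *
        Module.finrank E L = Module.finrank (ratioField (fun j => aeval p1 (f j))) L := by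
      rw [← hl]
      have h9 := Module.finrank_mul_finrank (rat ℂ y) E L
      rw [h9]
      exact Algebra.finrank_eq_of_equiv_equiv
        (IntermediateField.liftAlgEquiv (rat ℂ y)).toRingEquiv (RingEquiv.refl L) (by
          ext x
          rfl)
    rw [← h8] at hodd1
    exact (Nat.odd_mul.1 hodd1).1
  -- the isomorphism
  obtain ⟨ψ, hψ⟩ : ∃ ψ : E ≃ₐ[ℂ] Q, ∀ q, ι (ψ q) = algebraMap E L q := by
    subst hE
    refine ⟨(AlgEquiv.ofInjectiveField ι).symm, fun q => ?_⟩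
    have h1 := (AlgEquiv.ofInjectiveField ι).apply_symm_apply q
    have h2 := congrArg (algebraMap ι.fieldRange L) h1
    exact h2
  have hψy : (fun i => ψ (y i)) = fun j => aeval p' (f j) := by
    funext j
    apply ι.injective
    show ι (ψ (y j)) = ι (aeval p' (f j))
    rw [hψ]
    have h1 := congrFun hy j
    rw [h1]
    have h2 := MvPolynomial.comp_aeval_apply p' ι (f j)
    rw [h2]
    congr 2
    funext l
    exact (hp' l).symm
  refine ⟨Q, inferInstance, inferInstance, p', ι, fun i => ⟨J i, hJ i, fun h => ?_⟩, hp', hgen,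
    ?_, ?_⟩
  · have h1 := hp' (J i)
    rw [h, map_zero] at h1
    have h2 : p1 (J i) = 1 := by
      show (p (J (K.bl (J i))))⁻¹ * p (J i) = 1
      rw [hJ, inv_mul_cancel₀ (hJ0 i)]
    rw [h2] at h1
    exact zero_ne_one h1
  · rw [← hψy]
    refine HG_equiv ψ _ ?_
    refine HG_algebraMap (K := E) (L := L).1 ?_
    rw [hy]
    exact hx1
  · rw [← hψy, finrank_rat_equiv]
    exact hoddE

/-- `exists_src` with the embedding -/
theorem exists_srcf {D n N s : ℕ} (K : Bk n N s) {F : MvPolynomial (Fin (D + 4)) ℂ} (hF : VG F)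
    {e : Fin s → ℕ} (f : Fin (D + 4) → MvPolynomial (Fin N) ℂ) (hd : ∀ i, K.MH (f i) e)
    {L : Type u} [Field L] [Algebra ℂ L] (p : Fin N → L) (J : Fin s → Fin N)
    (hJ : ∀ i, K.bl (J i) = i) (hJ0 : ∀ i, p (J i) ≠ 0)
    (hx : HG F (fun j => aeval p (f j)))
    (hodd : Odd (Module.finrank (ratioField (fun j => aeval p (f j))) L)) (w : ℂ)
    (hw : w ^ 2 + w + 1 = 0) :
    ∃ cof : Set ℂ, cof.Finite ∧ ∀ (k0 B : Type) [Field k0] [Field B] [Algebra k0 B]
      [Algebra B ℂ] [Algebra k0 ℂ] [IsScalarTower k0 B ℂ],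
      (∀ c ∈ cof, ∃ b : k0, algebraMap k0 ℂ b = c) →
      ∀ (f0 : Fin (D + 4) → MvPolynomial (Fin N) k0),
        (∀ i, MvPolynomial.map (algebraMap k0 ℂ) (f0 i) = f i) →
      ∀ (wB : B), algebraMap B ℂ wB = w →
      ∃ (Q : Type) (_ : Field Q) (_ : Algebra k0 Q) (_ : Algebra B Q) (_ : IsScalarTower k0 B Q)
        (p' : Fin N → Q) (ι : Q →+* L), K.Src (m := D + 2) f0 wB p' ∧
          (∀ b : B, ι (algebraMap B Q b) = algebraMap ℂ L (algebraMap B ℂ b)) ∧
          ∀ j, ι (p' j) = (p (J (K.bl j)))⁻¹ * p j := by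
  classical
  obtain ⟨Q0, _, _, p', ι0, hp', hι0, hgen', hx', hodd'⟩ :=
    exists_src0f K hF f hd p J hJ hJ0 hx hodd
  have hP : Prime F := prime_HG hF _ hx'
  obtain ⟨Ω1, _, _, v1, hv1, hg1⟩ := exists_rat 2 Q0
  let _ : Algebra ℂ Ω1 := ((algebraMap Q0 Ω1).comp (algebraMap ℂ Q0)).toAlgebra
  have t0 : IsScalarTower ℂ Q0 Ω1 := IsScalarTower.of_algebraMap_eq fun _ => rfl
  have hs : IntermediateField.adjoin ℂ
      (Set.range (Fin.append v1 (fun j => algebraMap Q0 Ω1 (p' j)))) = ⊤ := by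
    set E := IntermediateField.adjoin ℂ
      (Set.range (Fin.append v1 (fun j => algebraMap Q0 Ω1 (p' j)))) with hE
    have hv1E : ∀ i, v1 i ∈ E := fun i =>
      IntermediateField.subset_adjoin _ _ ⟨Fin.castAdd N i, Fin.append_left _ _ i⟩
    have hpE : ∀ j, algebraMap Q0 Ω1 (p' j) ∈ E := fun j =>
      IntermediateField.subset_adjoin _ _ ⟨Fin.natAdd 2 j, Fin.append_right _ _ j⟩
    have hQE : ∀ q : Q0, algebraMap Q0 Ω1 q ∈ E := by
      intro q
      have h1 : (⊤ : IntermediateField ℂ Q0) ≤ E.comap (IsScalarTower.toAlgHom ℂ Q0 Ω1) := by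
        rw [← hgen', IntermediateField.adjoin_le_iff]
        rintro _ ⟨j, rfl⟩
        exact hpE j
      exact h1 IntermediateField.mem_top
    rw [eq_top_iff]
    intro x _
    have hx : x ∈ IntermediateField.adjoin Q0 (Set.range v1) := by
      rw [hg1]
      exact IntermediateField.mem_top
    induction hx using IntermediateField.adjoin_induction with
    | mem y hy =>
      obtain ⟨i, rfl⟩ := hy
      exact hv1E i
    | algebraMap q => exact hQE q
    | add x y _ _ hx hy => exact add_mem (hx trivial) (hy trivial)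
    | inv x _ hx => exact inv_mem (hx trivial)
    | mul x y _ _ hx hy => exact mul_mem (hx trivial) (hy trivial)
  have hdes : ∀ a : Fin (D + 4), ∃ cof : Set ℂ, cof.Finite ∧ ∀ (B : Type) [Field B] [Algebra B ℂ]
      [Algebra B Ω1] [IsScalarTower B ℂ Ω1],
      (∀ c ∈ cof, ∃ b : B, algebraMap B ℂ b = c) → DS B f w p' v1 a := by
    intro a
    have h1 := pr_gen hF hP v1 hv1 hg1 _ hx' hodd' w hw a
    obtain ⟨cof, hcf, hc⟩ := descent _ _ hs h1
    refine ⟨cof, hcf, fun B _ _ _ _ hB => ?_⟩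
    exact hc B hB
  choose cof hcf hcof using hdes
  refine ⟨insert w (⋃ a, cof a), (Set.finite_iUnion hcf).insert w, ?_⟩
  intro k0 B _ _ _ _ _ _ hk0 f0 hf0 wB hwB
  let _ : Algebra B Q0 := ((algebraMap ℂ Q0).comp (algebraMap B ℂ)).toAlgebra
  let _ : Algebra k0 Q0 := ((algebraMap ℂ Q0).comp (algebraMap k0 ℂ)).toAlgebra
  let _ : Algebra B Ω1 := ((algebraMap ℂ Ω1).comp (algebraMap B ℂ)).toAlgebra
  let _ : Algebra k0 Ω1 := ((algebraMap ℂ Ω1).comp (algebraMap k0 ℂ)).toAlgebra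
  have t1 : IsScalarTower B ℂ Q0 := IsScalarTower.of_algebraMap_eq fun _ => rfl
  have t2 : IsScalarTower k0 ℂ Q0 := IsScalarTower.of_algebraMap_eq fun _ => rfl
  have t3 : IsScalarTower B ℂ Ω1 := IsScalarTower.of_algebraMap_eq fun _ => rfl
  have t4 : IsScalarTower k0 ℂ Ω1 := IsScalarTower.of_algebraMap_eq fun _ => rfl
  have t5 : IsScalarTower B Q0 Ω1 := IsScalarTower.of_algebraMap_eq fun _ => rfl
  have t6 : IsScalarTower k0 Q0 Ω1 := IsScalarTower.of_algebraMap_eq fun _ => rfl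
  have t7 : IsScalarTower k0 B Q0 := IsScalarTower.of_algebraMap_eq fun c => by
    show algebraMap ℂ Q0 (algebraMap k0 ℂ c) = algebraMap ℂ Q0 (algebraMap B ℂ (algebraMap k0 B c))
    rw [← IsScalarTower.algebraMap_apply k0 B ℂ]
  obtain ⟨wk, hwk⟩ := hk0 w (Set.mem_insert _ _)
  have hDk : ∀ a, DS k0 f w p' v1 a := fun a =>
    hcof a k0 fun c hc => hk0 c (Set.mem_insert_of_mem _ (Set.mem_iUnion.2 ⟨a, hc⟩))
  have hDB : ∀ a, DS B f w p' v1 a := fun a =>
    hcof a B fun c hc => by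
      obtain ⟨b, hb⟩ := hk0 c (Set.mem_insert_of_mem _ (Set.mem_iUnion.2 ⟨a, hc⟩))
      exact ⟨algebraMap k0 B b, by rw [← IsScalarTower.algebraMap_apply k0 B ℂ, hb]⟩
  have hfB : ∀ i, MvPolynomial.map (algebraMap B ℂ) (MvPolynomial.map (algebraMap k0 B) (f0 i)) =
      f i := by
    intro i
    rw [MvPolynomial.map_map, ← IsScalarTower.algebraMap_eq k0 B ℂ, hf0]
  refine ⟨IntermediateField.adjoin B (Set.range p'), inferInstance, inferInstance, inferInstance,
    inferInstance, fun j => ⟨p' j, IntermediateField.subset_adjoin _ _ ⟨j, rfl⟩⟩,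
    (ι0 : Q0 →+* L).comp (IntermediateField.adjoin B (Set.range p')).val.toRingHom, ?_, ?_, ?_⟩
  rotate_left
  · intro b
    have h1 : ι0 (algebraMap ℂ Q0 (algebraMap B ℂ b)) = algebraMap ℂ L (algebraMap B ℂ b) :=
      ι0.commutes _
    exact h1
  · exact hι0
  refine ⟨?_, gen_src p', ?_, ?_, ?_⟩
  · intro i
    obtain ⟨j, hj, hj0⟩ := hp' i
    exact ⟨j, hj, fun h => hj0 (congrArg Subtype.val h)⟩
  · exact tr_src v1 hv1 (fun i => MvPolynomial.map (algebraMap k0 B) (f0 i)) hfB w wB hwB 0 (hDB 0)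
  · refine le_trans ?_ (tr_src v1 hv1 f0 hf0 w wk hwk 0 (hDk 0))
    set Q := IntermediateField.adjoin B (Set.range p') with hQ
    have t8 : IsScalarTower k0 Q Q0 := IsScalarTower.of_algebraMap_eq fun _ => rfl
    have h1 : ∀ x : K.rt k0 (fun j => (⟨p' j, IntermediateField.subset_adjoin _ _ ⟨j, rfl⟩⟩ : Q)),
        algebraMap Q Q0 x.1 ∈ IntermediateField.adjoin k0 (Set.range p') := by
      intro x
      have h2 : K.rt k0 (fun j => (⟨p' j, IntermediateField.subset_adjoin _ _ ⟨j, rfl⟩⟩ : Q)) ≤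
          (IntermediateField.adjoin k0 (Set.range p')).comap (IsScalarTower.toAlgHom k0 Q Q0) := by
        refine K.rt_le _ _ fun i j _ => ?_
        exact div_mem (IntermediateField.subset_adjoin _ _ ⟨i, rfl⟩)
          (IntermediateField.subset_adjoin _ _ ⟨j, rfl⟩)
      exact h2 x.2
    let g : K.rt k0 (fun j => (⟨p' j, IntermediateField.subset_adjoin _ _ ⟨j, rfl⟩⟩ : Q)) →ₐ[k0]
        IntermediateField.adjoin k0 (Set.range p') :=
      ((IsScalarTower.toAlgHom k0 Q Q0).comp (IntermediateField.val _)).codRestrict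
        (IntermediateField.adjoin k0 (Set.range p')).toSubalgebra h1
    exact _root_.trdeg_le_of_injective g g.injective
  · intro Ω _ _ _ _ α β hv hgen a
    have hr : Set.range ![α, β] = {α, β} := by
      rw [Matrix.range_cons, Matrix.range_cons, Matrix.range_empty, Set.union_empty]
      rfl
    rw [← hr] at hgen
    have h1 := pr_src v1 hv1 (fun i => MvPolynomial.map (algebraMap k0 B) (f0 i)) hfB w wB hwB a
      (hDB a) _ rfl (fun j => ⟨p' j, IntermediateField.subset_adjoin _ _ ⟨j, rfl⟩⟩) (fun _ => rfl)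
      Ω ![α, β] hv hgen
    simp only [MvPolynomial.aeval_map_algebraMap] at h1
    exact h1

end MP2619.Q6
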