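import Pool.Agent.Lib.MP_2619d0_ag.Q8.M13V
import Pool.Agent.Lib.MP_2619d0_ag.Q8.L8f

/-!
Theorem Q8, closure version: from the complex numbers to all extensions
-/

set_option autoImplicit false

namespace MP2619.Q6

universe u

open scoped NNReal
open IntermediateField MP2619.R MP2619.N Pool.Agent.Lib.MP_2619d0_ag Pool.Agent.Lib.MP_2619d0_ag.T
  MP2619.T MP2619.Q5

/-- at every complex point of the closure of `p` some derivative of order at most one of some `f i` is not zero -/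
def Bk.MultCV {m N s : ℕ} (K : Bk m N s) {n : ℕ} (f : Fin n → MvPolynomial (Fin N) ℂ)
    {L : Type u} [Field L] [Algebra ℂ L] (p : Fin N → L) : Prop :=
  ∀ P0 : Fin N → ℂ, K.Nz P0 → (∀ (g : MvPolynomial (Fin N) ℂ) (d : Fin s → ℕ), K.MH g d →
      MvPolynomial.aeval p g = 0 → MvPolynomial.aeval P0 g = 0) →
    ∃ (i : Fin n) (d : Fin N →₀ ℕ), d.degree ≤ 1 ∧
      MvPolynomial.coeff d (MvPolynomial.aeval
        (fun j => MvPolynomial.C (P0 j) + MvPolynomial.X j : Fin N → MvPolynomial (Fin N) ℂ)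
        (f i)) ≠ 0

private theorem N5V_lift {K : Type} [Field K] [Algebra K ℂ] {n : ℕ} (p : MvPolynomial (Fin n) ℂ)
    (h : ∀ m, ∃ c : K, algebraMap K ℂ c = MvPolynomial.coeff m p) :
    ∃ q : MvPolynomial (Fin n) K, MvPolynomial.map (algebraMap K ℂ) q = p := by
  have h1 : p ∈ Set.range (MvPolynomial.map (σ := Fin n) (algebraMap K ℂ)) := by
    rw [MvPolynomial.mem_range_map_iff_coeffs_subset]
    intro x hx
    rw [Finset.mem_coe, MvPolynomial.mem_coeffs_iff] at hx
    obtain ⟨m, hm, rfl⟩ := hx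
    exact h m
  exact h1

/-- finitely many equations of `p` imply all of them -/
theorem rel_gens {m N s : ℕ} (K : Bk m N s) {L : Type u} [Field L] [Algebra ℂ L] (p : Fin N → L) :
    ∃ cof : Set ℂ, cof.Finite ∧ ∀ (k0 : Type) [Field k0] [Algebra k0 ℂ],
      (∀ c ∈ cof, ∃ b : k0, algebraMap k0 ℂ b = c) → ∀ P : Fin N → ℂ,
      (∀ (g : MvPolynomial (Fin N) k0) (d : Fin s → ℕ), K.MH g d →
        MvPolynomial.aeval p (MvPolynomial.map (algebraMap k0 ℂ) g) = 0 →
          MvPolynomial.aeval P g = 0) →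
      ∀ (g : MvPolynomial (Fin N) ℂ) (d : Fin s → ℕ), K.MH g d →
        MvPolynomial.aeval p g = 0 → MvPolynomial.aeval P g = 0 := by
  classical
  obtain ⟨R, hR⟩ : ∃ R : Set (MvPolynomial (Fin N) ℂ), R = {g | ∃ d : Fin s → ℕ, K.MH g d ∧
      MvPolynomial.aeval p g = 0} := ⟨_, rfl⟩
  have hfg : (Ideal.span R).FG := IsNoetherian.noetherian _
  obtain ⟨S, hS, hspan⟩ := (Submodule.fg_span_iff_fg_span_finset_subset R).1 hfg
  refine ⟨insert 0 (⋃ g ∈ S, ((g.support.image fun d => MvPolynomial.coeff d g : Finset ℂ) :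
    Set ℂ)), ?_, ?_⟩
  · refine Set.Finite.insert _ ?_
    exact Set.Finite.biUnion (Finset.finite_toSet S) fun g _ => Finset.finite_toSet _
  · intro k0 _ _ hk0 P hP g d hg h0
    -- the generators vanish at `P`
    have h1 : ∀ g ∈ S, MvPolynomial.aeval P g = 0 := by
      intro g hgS
      have h2 : g ∈ R := hS hgS
      rw [hR] at h2
      obtain ⟨d, hgd, hg0⟩ := h2
      obtain ⟨g0, hg0'⟩ := N5V_lift (K := k0) g fun m => by
        by_cases h : MvPolynomial.coeff m g = 0
        · exact ⟨0, by rw [h, map_zero]⟩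
        · refine hk0 _ (Or.inr (Set.mem_iUnion₂.2 ⟨g, hgS, ?_⟩))
          rw [Finset.mem_coe, Finset.mem_image]
          exact ⟨m, MvPolynomial.mem_support_iff.2 h, rfl⟩
      have h3 := hP g0 d (by
        intro m hm
        refine hgd m ?_
        rw [← hg0', MvPolynomial.coeff_map]
        exact fun h => hm ((map_eq_zero _).1 h)) (by rw [hg0']; exact hg0)
      rw [← hg0', MvPolynomial.aeval_map_algebraMap]
      exact h3
    have h2 : Ideal.span R ≤ RingHom.ker (MvPolynomial.aeval P :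
        MvPolynomial (Fin N) ℂ →ₐ[ℂ] ℂ) := by
      have h3 : Ideal.span R = Ideal.span (S : Set (MvPolynomial (Fin N) ℂ)) := hspan
      rw [h3, Ideal.span_le]
      intro g hg
      exact h1 g hg
    have h3 : g ∈ R := by
      rw [hR]
      exact ⟨d, hg, h0⟩
    exact h2 (Ideal.subset_span h3)

private theorem N5V_map {N : ℕ} {k A B : Type} [Field k] [CommRing A] [CommRing B] [Algebra k A]
    [Algebra k B] (φ : A →ₐ[k] B) (P : Fin N → A) (p : MvPolynomial (Fin N) k) :
    MvPolynomial.map (φ : A →+* B) (MvPolynomial.aeval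
      (fun j => MvPolynomial.C (P j) + MvPolynomial.X j : Fin N → MvPolynomial (Fin N) A) p) =
      MvPolynomial.aeval
        (fun j => MvPolynomial.C (φ (P j)) + MvPolynomial.X j : Fin N → MvPolynomial (Fin N) B)
        p := by
  have h : (MvPolynomial.mapAlgHom φ).comp (MvPolynomial.aeval
      (fun j => MvPolynomial.C (P j) + MvPolynomial.X j : Fin N → MvPolynomial (Fin N) A)) =
      (MvPolynomial.aeval
        (fun j => MvPolynomial.C (φ (P j)) + MvPolynomial.X j : Fin N → MvPolynomial (Fin N) B) :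
        MvPolynomial (Fin N) k →ₐ[k] MvPolynomial (Fin N) B) := by
    apply MvPolynomial.algHom_ext
    intro j
    simp [MvPolynomial.mapAlgHom_apply]
  exact DFunLike.congr_fun h p

private theorem N5V_hom {k A : Type} [Field k] [CommRing A] [Nontrivial A] [Algebra k A]
    [Algebra.FiniteType k A] [Algebra k ℂ] : Nonempty (A →ₐ[k] ℂ) := by
  obtain ⟨m, hm⟩ := Ideal.exists_maximal A
  let _ : Field (A ⧸ m) := Ideal.Quotient.field m
  have hft : Algebra.FiniteType k (A ⧸ m) :=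
    Algebra.FiniteType.of_surjective (Ideal.Quotient.mkₐ k m) (Ideal.Quotient.mkₐ_surjective k m)
  have hfin : Module.Finite k (A ⧸ m) := finite_of_finite_type_of_isJacobsonRing k (A ⧸ m)
  have halg : Algebra.IsAlgebraic k (A ⧸ m) := Algebra.IsAlgebraic.of_finite k (A ⧸ m)
  exact ⟨(IsAlgClosed.lift : (A ⧸ m) →ₐ[k] ℂ).comp (Ideal.Quotient.mkₐ k m)⟩

/-- `mult1_of_CB` for the points of the closure -/
theorem mult1V_of_CB {m N s : ℕ} (K : Bk m N s) {k0 Q : Type} [Field k0] [Algebra k0 ℂ] [Field Q]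
    [Algebra k0 Q] {n : ℕ} (f0 : Fin n → MvPolynomial (Fin N) k0) (p' : Fin N → Q)
    {L : Type u} [Field L] [Algebra ℂ L] (p : Fin N → L)
    (hrel : ∀ (g : MvPolynomial (Fin N) k0) (d : Fin s → ℕ), K.MH g d →
      MvPolynomial.aeval p (MvPolynomial.map (algebraMap k0 ℂ) g) = 0 →
        MvPolynomial.aeval p' g = 0)
    (hgen : ∀ P : Fin N → ℂ,
      (∀ (g : MvPolynomial (Fin N) k0) (d : Fin s → ℕ), K.MH g d →
        MvPolynomial.aeval p (MvPolynomial.map (algebraMap k0 ℂ) g) = 0 →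
          MvPolynomial.aeval P g = 0) →
      ∀ (g : MvPolynomial (Fin N) ℂ) (d : Fin s → ℕ), K.MH g d →
        MvPolynomial.aeval p g = 0 → MvPolynomial.aeval P g = 0)
    (h : K.MultCV (fun i => MvPolynomial.map (algebraMap k0 ℂ) (f0 i)) p) : K.Mult1V f0 p' := by
  classical
  intro κ _ _ P0 hP0 hsp
  choose J hJ hJ0 using hP0
  let A : Subalgebra k0 κ := Algebra.adjoin k0 (Set.range P0 ∪ Set.range fun i => (P0 (J i))⁻¹)
  have hP : ∀ j, P0 j ∈ A := fun j => Algebra.subset_adjoin (Or.inl ⟨j, rfl⟩)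
  have hQ : ∀ i, (P0 (J i))⁻¹ ∈ A := fun i => Algebra.subset_adjoin (Or.inr ⟨i, rfl⟩)
  have hft : Algebra.FiniteType k0 A :=
    A.fg_iff_finiteType.1 (Subalgebra.fg_def.2
      ⟨_, (Set.finite_range P0).union (Set.finite_range _), rfl⟩)
  obtain ⟨g⟩ : Nonempty (A →ₐ[k0] ℂ) := N5V_hom
  let PA : Fin N → A := fun j => ⟨P0 j, hP j⟩
  have hP1 : K.Nz (fun j => g (PA j)) := by
    intro i
    refine ⟨J i, hJ i, fun h0 => ?_⟩
    have h1 : PA (J i) * (⟨(P0 (J i))⁻¹, hQ i⟩ : A) = 1 := Subtype.ext (mul_inv_cancel₀ (hJ0 i))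
    have h2 := congrArg g h1
    rw [map_mul, map_one, show g (PA (J i)) = 0 from h0, zero_mul] at h2
    exact zero_ne_one h2
  have hcl : ∀ (g' : MvPolynomial (Fin N) ℂ) (d : Fin s → ℕ), K.MH g' d →
      MvPolynomial.aeval p g' = 0 → MvPolynomial.aeval (fun j => g (PA j)) g' = 0 := by
    refine hgen _ fun g0 d hg0 h0 => ?_
    have h1 := hsp g0 d hg0 (hrel g0 d hg0 h0)
    have h2 : MvPolynomial.aeval PA g0 = 0 := by
      have h3 := MvPolynomial.comp_aeval_apply PA A.val g0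
      apply Subtype.ext
      exact h3.trans h1
    have h3 := MvPolynomial.comp_aeval_apply PA g g0
    rw [h2, map_zero] at h3
    exact h3.symm
  obtain ⟨i, m, hm, hc⟩ := h _ hP1 hcl
  refine ⟨i, m, hm, fun h0 => hc ?_⟩
  have e1 := N5V_map g PA (f0 i)
  have e2 := N5V_map A.val PA (f0 i)
  have h1 : MvPolynomial.coeff m (MvPolynomial.aeval
      (fun j => MvPolynomial.C (PA j) + MvPolynomial.X j : Fin N → MvPolynomial (Fin N) A)
      (f0 i)) = 0 := by
    have h2 := congrArg (MvPolynomial.coeff m) e2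
    rw [MvPolynomial.coeff_map] at h2
    exact Subtype.ext (h2.trans h0)
  rw [MvPolynomial.aeval_map_algebraMap, ← e1, MvPolynomial.coeff_map, h1, map_zero]

/-- the source with the equations of `p` -/
theorem srcAllV {D n N s : ℕ} (K : Bk n N s) {F : MvPolynomial (Fin (D + 4)) ℂ} (hF : VG F)
    {e : Fin s → ℕ} (f : Fin (D + 4) → MvPolynomial (Fin N) ℂ) (hd : ∀ i, K.MH (f i) e)
    {L : Type u} [Field L] [Algebra ℂ L] (p : Fin N → L) (hp : ∀ i, ∃ j, K.bl j = i ∧ p j ≠ 0)
    (hx : HG F (fun j => MvPolynomial.aeval p (f j)))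
    (hodd : Odd (Module.finrank (ratioField (fun j => MvPolynomial.aeval p (f j))) L)) :
    K.SrcAllV (m := D + 2) f p := by
  intro w hw
  choose J hJ hJ0 using hp
  obtain ⟨cof, hcf, hc⟩ := exists_srcf K hF f hd p J hJ hJ0 hx hodd w hw
  refine ⟨cof, hcf, ?_⟩
  intro k0 B _ _ _ _ _ _ hk0 f0 hf0 wB hwB
  obtain ⟨Q, _, _, _, _, p', ι, hs, hι, hιp⟩ := hc k0 B hk0 f0 hf0 wB hwB
  refine ⟨Q, inferInstance, inferInstance, inferInstance, inferInstance, p', hs, ?_⟩
  intro g d hg h0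
  apply ι.injective
  rw [map_zero]
  -- `ι` at the value of the form
  have h1 : ι (MvPolynomial.aeval p' g) =
      MvPolynomial.aeval (fun j => (p (J (K.bl j)))⁻¹ * p j)
        (MvPolynomial.map (algebraMap k0 ℂ) g) := by
    rw [MvPolynomial.aeval_def, MvPolynomial.aeval_def, MvPolynomial.eval₂_map,
      MvPolynomial.hom_eval₂]
    congr 1
    · ext c
      have h2 := hι (algebraMap k0 B c)
      rw [← IsScalarTower.algebraMap_apply k0 B Q, ← IsScalarTower.algebraMap_apply k0 B ℂ] at h2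
      exact h2
    · funext j
      exact hιp j
  have hg' : K.MH (MvPolynomial.map (algebraMap k0 ℂ) g) d := by
    intro m hm
    refine hg m fun h => hm ?_
    rw [MvPolynomial.coeff_map, h, map_zero]
  have h2 := K.mh_smul hg' (fun i => (p (J i))⁻¹) p
  rw [h1, h2, h0, mul_zero]

end MP2619.Q6
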