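import Pool.Agent.Lib.MP_2619d0_ag.Q5.G1
import Pool.Agent.Lib.MP_2619d0_ag.Q5.G2
import Pool.Agent.Lib.MP_2619d0_ag.Q6.T21
import Pool.Agent.Lib.MP_2619d0_ag.Q6.C6
import Pool.Agent.Lib.MP_2619d0_ag.Q8.T0

/-!
Row q8-T7: not a base point
-/

set_option autoImplicit false

namespace MP2619.Q6

open scoped NNReal
open IntermediateField MP2619.R MP2619.N Pool.Agent.Lib.MP_2619d0_ag Pool.Agent.Lib.MP_2619d0_ag.T
  MP2619.Q5

variable {k0 B M L : Type} [Field k0] [Field B] [Field M] [Field L]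
  [Algebra k0 B] [Algebra k0 M] [Algebra k0 L]
  [Algebra B M] [Algebra B L] [IsScalarTower k0 B M] [IsScalarTower k0 B L] {m n N s : ℕ}
  {K : Bk n N s} {f : Fin (m + 2) → MvPolynomial (Fin N) k0} {G : Fin N → Fin N → B} {ε ε' : M}
  {S : Fin N → M} {α β : M} {σ : M ≃ₐ[B] M} {P : ValuationSubring M} {φ : P →+* L}
  {x y : Fin (m + 2) → P} {w : B} {a : Fin (m + 2)}

private theorem T7E_fe (K : Bk n N s) (rm : RMap B P φ) (G : Fin N → Fin N → B) (T : Fin N → P)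
    (e : P) (he : φ e = 0) :
    ∃ X : Fin (m + 2) → P,
      (∀ i, (X i : M) = fe f (K.pS G (fun j => (T j : M)) (e : M)) i) ∧
      ∀ i, φ (X i) = fe f (pt (K.bd G) (fun j => φ (T j))) i := by
  let T' : Fin N → P := fun j => (1 + e) ^ (K.wt j) * T j
  have hT' : ∀ j, (T' j : M) = K.dg (e : M) (fun j => (T j : M)) j := fun j => rfl
  have hT'' : ∀ j, φ (T' j) = φ (T j) := fun j => by
    show φ ((1 + e) ^ (K.wt j) * T j) = φ (T j)
    rw [map_mul, map_pow, map_add, map_one, he, add_zero, one_pow, one_mul]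
  choose p hp hp' using fun i => pt_res rm (K.bd G) T' i
  have rm0 : RMap k0 P φ := rm.restrict
  choose X hX hX' using fun i => fe_res f rm0 p i
  refine ⟨X, fun i => ?_, fun i => ?_⟩
  · rw [hX i]
    congr 1
    funext j
    rw [hp j]
    rfl
  · rw [hX' i]
    congr 1
    funext j
    rw [hp' j]
    congr 1
    funext l
    exact hT'' l

private theorem T7E_mono {K1 K2 : IntermediateField B L} (h : K1 ≤ K2) :
    Algebra.trdeg B K1 ≤ Algebra.trdeg B K2 :=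
  trdeg_le_of_injective (IntermediateField.inclusion h) (IntermediateField.inclusion_injective h)

private theorem T7E_rat {l : ℕ} (E : IntermediateField B L) (c : L) (x X : Fin l → L)
    (hx : ∀ i, x i = c * X i) (hX : ∀ i, X i ∈ E) : rat B x ≤ E := by
  have e1 : x = fun i => c * X i := funext hx
  rw [e1]
  refine (rat_smul_le c X).trans ?_
  unfold rat
  rw [IntermediateField.adjoin_le_iff]
  rintro _ ⟨i, j, rfl⟩
  exact div_mem (hX i) (hX j)

/-- one factor is in `P` -/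
private theorem T7E_fac (rm : RMap B P φ) (c : M) (X x : P) (h : (x : M) = c * (X : M))
    (hX : φ X ≠ 0) : c ∈ P := by
  have h1 : P.valuation (X : M) = 1 :=
    le_antisymm ((P.valuation_le_one_iff _).2 X.2) (not_lt.1 fun h => hX ((rm.zero _).2 h))
  rw [← P.valuation_le_one_iff]
  have h2 := (P.valuation_le_one_iff _).2 x.2
  rw [h, map_mul, h1, mul_one] at h2
  exact h2

/-- `τ j` = residue of `U j = K.nm J S j`, `P0 = pt (K.bd G) τ`, `f(P0) ≠ 0`. `QS = adjoin B (range S)` contains all `U j` (`trdeg ≤ m` by `E.tr`), so `resI rm QS` contains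
all `τ j` and `f(P0)`. (1) `x = α' f(pt (K.bd G) (K.dg ε' U))`, `α' = α ∏ S(J l)^d l` (`K.fe_dg_nm` with `h = ε'`), so `x̄` is a multiple of `f(P0)` (`res_par`, `fe_res`; `1 + ε'` has the residue
`1`), and `ȳ` too. So `rat B x̄ ⊔ rat B ȳ ≤ rat B (f(P0)) ≤ resI rm QS`; by `trdeg_rat_rat` (C6) and `E.ind`: `¬ trdeg B (resI rm QS) ≤ D`. `triv8` (Q8/T0): `QS ⊆ P`, the `S (J i)` are
units. (2) some `f i (P0) ≠ 0` and `x i ∈ P`, so `α' ∈ P`, `α ∈ P`; in the same way `β ∈ P`. (3) `E2 = adjoin B (range S ∪ {α, β})`, `trdeg ≤ m + 2` (twice `trdeg_insert8`). `x̄ i` is the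
residue of `α f(pt (K.bd G) S) i ∈ E2`, `ȳ i` the residue of `β f(pt (K.bd G) S) i`, so all `zg .. i` (`m + 2` independent elements) are in `resI rm E2`:
`¬ trdeg B (resI rm E2) ≤ m + 1`. `triv8`. (Models: Q6/T7.lean, T21.lean.) -/
theorem esc_main8 (D : ℕ) (hm : m = D + 1) (E : K.Esc8 f G ε ε' S α β σ P φ x y w a)
    (J : Fin s → Fin N) (hJ : ∀ i, K.bl (J i) = i) (hJ0 : ∀ i, S (J i) ≠ 0)
    (hT : ∀ j, K.nm J S j ∈ P)
    (hne : fe f (pt (K.bd G) (fun j => φ ⟨_, hT j⟩)) ≠ 0) :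
    ∀ b ∈ adjoin B (Set.range S ∪ {α, β}), b ∈ P := by
  classical
  obtain ⟨d, hd⟩ := E.hom
  have rm := E.rm
  have hz : ∀ a : P, P.valuation (a : M) < 1 → φ a = 0 := fun a ha => (rm.zero a).2 ha
  set QS : IntermediateField B M := adjoin B (Set.range S) with hQS
  have hSm : ∀ j, S j ∈ QS := fun j => subset_adjoin _ _ ⟨j, rfl⟩
  have hUm : ∀ j, K.nm J S j ∈ QS := fun j => div_mem (hSm _) (hSm _)
  have hfm : ∀ (E1 : IntermediateField B L) (τ : Fin N → L), (∀ j, τ j ∈ E1) →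
      ∀ i, fe f (pt (K.bd G) τ) i ∈ E1 := by
    intro E1 τ hτ i
    have h1 := fe_mem f (E1.restrictScalars k0) (pt (K.bd G) τ)
      (fun j => (IntermediateField.mem_restrictScalars k0).2 (pt_mem E1 (K.bd G) _ hτ j)) i
    exact (IntermediateField.mem_restrictScalars k0).1 h1
  have hτ : ∀ j, φ ⟨K.nm J S j, hT j⟩ ∈ resI rm QS := fun j =>
    (mem_resI rm _ _).2 ⟨_, hUm j, rfl⟩
  -- step 1
  have hpA : ∀ (h : M) (i : Fin (m + 2)), fe f (K.pS G S h) i = (∏ l, S (J l) ^ d l) *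
      fe f (K.pS G (K.nm J S) h) i := fun h i => K.fe_dg_nm f hd G J S hJ0 h i
  have hεP : ε ∈ P := (P.valuation_le_one_iff _).1 E.eps.le
  have hεP' : ε' ∈ P := (P.valuation_le_one_iff _).1 E.eps'.le
  obtain ⟨X1, hX1, hX1'⟩ := T7E_fe (f := f) K rm G (fun j => ⟨K.nm J S j, hT j⟩) ⟨ε', hεP'⟩
    (hz _ E.eps')
  obtain ⟨Y1, hY1, hY1'⟩ := T7E_fe (f := f) K rm G (fun j => ⟨K.nm J S j, hT j⟩) ⟨ε, hεP⟩
    (hz _ E.eps)
  obtain ⟨i1, hi1⟩ : ∃ i, fe f (pt (K.bd G) (fun j => φ ⟨_, hT j⟩)) i ≠ 0 := by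
    by_contra hcon
    exact hne (funext fun i => not_not.1 fun h => hcon ⟨i, h⟩)
  obtain ⟨c0, hc0⟩ := res_par rm x X1 (α * ∏ l, S (J l) ^ d l) (fun i => by
    rw [E.x_eq, hpA, hX1, mul_assoc]) ⟨i1, by rw [hX1']; exact hi1⟩
  obtain ⟨c1, hc1⟩ := res_par rm y Y1 (β * ∏ l, S (J l) ^ d l) (fun i => by
    rw [E.y_eq, hpA, hY1, mul_assoc]) ⟨i1, by rw [hY1']; exact hi1⟩
  have hratx : rat B (fun i => φ (x i)) ≤ resI rm QS :=
    T7E_rat _ c0 _ (fun i => fe f (pt (K.bd G) (fun j => φ ⟨_, hT j⟩)) i)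
      (fun i => by rw [hc0, hX1']) (hfm _ _ hτ)
  have hraty : rat B (fun i => φ (y i)) ≤ resI rm QS :=
    T7E_rat _ c1 _ (fun i => fe f (pt (K.bd G) (fun j => φ ⟨_, hT j⟩)) i)
      (fun i => by rw [hc1, hY1']) (hfm _ _ hτ)
  have htr : ¬ Algebra.trdeg B (resI rm QS) ≤ D := fun h =>
    trdeg_rat_rat D (by omega) w _ _ _ ((T7E_mono (sup_le hratx hraty)).trans h) E.ind
  obtain ⟨hQP, hQu⟩ := triv8 rm QS D (by rw [← hm]; exact E.tr) htr
  -- step 2
  have hSP : ∀ j, S j ∈ P := fun j => hQP _ (hSm j)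
  have hφj : ∀ i, φ ⟨S (J i), hSP (J i)⟩ ≠ 0 := fun i h => by
    have h1 := (rm.zero ⟨S (J i), hSP (J i)⟩).1 h
    rw [hQu _ (hSm _) (hJ0 i)] at h1
    exact lt_irrefl _ h1
  have hpt : pt (K.bd G) (fun j => φ ⟨S j, hSP j⟩) =
      fun i => φ ⟨S (J (K.bl i)), hSP (J (K.bl i))⟩ * pt (K.bd G) (fun j => φ ⟨_, hT j⟩) i := by
    rw [← K.pt_bsmul G (fun i => φ ⟨S (J i), hSP (J i)⟩)]
    congr 1
    funext j
    have e : (⟨S j, hSP j⟩ : P) = ⟨S (J (K.bl j)), hSP (J (K.bl j))⟩ * ⟨_, hT j⟩ :=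
      Subtype.ext (K.nm_mul J S hJ0 j).symm
    rw [e, map_mul]
  have hfe : fe f (pt (K.bd G) (fun j => φ ⟨S j, hSP j⟩)) i1 ≠ 0 := by
    rw [hpt, K.fe_bsmul f hd (fun i => φ ⟨S (J i), hSP (J i)⟩)]
    exact mul_ne_zero (Finset.prod_ne_zero_iff.2 fun l _ => pow_ne_zero _ (hφj l)) hi1
  obtain ⟨X, hX, hX'⟩ := T7E_fe (f := f) K rm G (fun j => ⟨S j, hSP j⟩) ⟨ε', hεP'⟩ (hz _ E.eps')
  obtain ⟨Y, hY, hY'⟩ := T7E_fe (f := f) K rm G (fun j => ⟨S j, hSP j⟩) ⟨ε, hεP⟩ (hz _ E.eps)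
  obtain ⟨Z, hZ, hZ'⟩ := T7E_fe (f := f) K rm G (fun j => ⟨S j, hSP j⟩) 0 (map_zero φ)
  have hxX : ∀ i, (x i : M) = α * (X i : M) := fun i => by rw [E.x_eq, hX]
  have hyY : ∀ i, (y i : M) = β * (Y i : M) := fun i => by rw [E.y_eq, hY]
  have hαP : α ∈ P := T7E_fac rm α (X i1) (x i1) (hxX i1) (by rw [hX']; exact hfe)
  have hβP : β ∈ P := T7E_fac rm β (Y i1) (y i1) (hyY i1) (by rw [hY']; exact hfe)
  -- step 3
  have hset : Set.range S ∪ {α, β} = insert α (insert β (Set.range S)) := by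
    ext z
    simp only [Set.mem_union, Set.mem_insert_iff, Set.mem_singleton_iff]
    tauto
  set E2 : IntermediateField B M := adjoin B (Set.range S ∪ {α, β}) with hE2
  have htr2 : Algebra.trdeg B E2 ≤ (m + 1 + 1 : ℕ) := by
    rw [hE2, hset]
    exact trdeg_insert8 _ α (m + 1) (trdeg_insert8 _ β m E.tr)
  have hSE : ∀ j, S j ∈ E2 := fun j => subset_adjoin _ _ (Or.inl ⟨j, rfl⟩)
  have hαE : α ∈ E2 := subset_adjoin _ _ (Or.inr (Or.inl rfl))
  have hβE : β ∈ E2 := subset_adjoin _ _ (Or.inr (Or.inr rfl))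
  have hZE : ∀ i, (Z i : M) ∈ E2 := by
    intro i
    have h1 := fe_mem f (E2.restrictScalars k0) (K.pS G S 0)
      (fun j => (IntermediateField.mem_restrictScalars k0).2
        (pt_mem E2 (K.bd G) _ (fun l => by
          rw [K.dg_zero]
          exact hSE l) j)) i
    rw [hZ i]
    exact (IntermediateField.mem_restrictScalars k0).1 h1
  have hxr : ∀ i, φ (x i) ∈ resI rm E2 := by
    intro i
    refine (mem_resI rm _ _).2 ⟨⟨α, hαP⟩ * Z i, ?_, ?_⟩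
    · exact mul_mem hαE (hZE i)
    · have h1 : x i = ⟨α, hαP⟩ * X i := Subtype.ext (hxX i)
      rw [h1, map_mul, map_mul, hZ', hX']
  have hyr : ∀ i, φ (y i) ∈ resI rm E2 := by
    intro i
    refine (mem_resI rm _ _).2 ⟨⟨β, hβP⟩ * Z i, ?_, ?_⟩
    · exact mul_mem hβE (hZE i)
    · have h1 : y i = ⟨β, hβP⟩ * Y i := Subtype.ext (hyY i)
      rw [h1, map_mul, map_mul, hZ', hY']
  have hzr : ∀ i, zg w (fun i => φ (x i)) (fun i => φ (y i)) (Pi.single a 1) i ∈ resI rm E2 := by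
    intro i
    exact add_mem (mul_mem (IntermediateField.algebraMap_mem _ _) (hxr i)) (hyr i)
  have hn2 : ¬ Algebra.trdeg B (resI rm E2) ≤ (m + 1 : ℕ) := by
    intro h
    have hu : AlgebraicIndependent B
        (fun i => (⟨_, hzr i⟩ : resI rm E2)) := by
      refine AlgebraicIndependent.of_comp (resI rm E2).val ?_
      exact E.ind
    have h1 := hu.cardinalMk_le_trdeg.trans h
    rw [Cardinal.mk_fintype, Fintype.card_fin] at h1
    have h2 : m + 2 ≤ m + 1 := by exact_mod_cast h1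
    omega
  exact (triv8 rm E2 (m + 1) htr2 hn2).1

end MP2619.Q6
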