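import Pool.Agent.Lib.MP_2619d0_ag.TTop
import Pool.Agent.Lib.MP_2619d0_ag.Q7.T5

/-!
Theorem Q8: reduction of the case of `X × 𝔸^r` to `r = 0`, keeping the relations of the point
-/

set_option autoImplicit false

namespace MP2619.Q6

universe u

open MvPolynomial Pool.Agent.Lib.MP_2619d0_ag Pool.Agent.Lib.MP_2619d0_ag.T MP2619.T

/-- If no point of the source with generic image has an odd degree over `ℂ(X)`, then no point has an odd degree over `ℂ(X × 𝔸^r)`. -/
theorem v_red' {m n N s : ℕ} (K : Bk n N s) {F : MvPolynomial (Fin (m+1+1)) ℂ} (hF : VG F)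
    (f : Fin (m+1+1) → MvPolynomial (Fin N) ℂ)
    {L : Type u} [Field L] [Algebra ℂ L] (p : Fin N → L)
    (H : ∀ (L' : Type u) [Field L'] [Algebra ℂ L'] (p' : Fin N → L'),
      (∀ i, ∃ j, K.bl j = i ∧ p' j ≠ 0) → HG F (fun j => aeval p' (f j)) →
        (∀ g : MvPolynomial (Fin N) ℂ, aeval p g = 0 → aeval p' g = 0) →
        ¬ Odd (Module.finrank (ratioField (fun j => aeval p' (f j))) L'))
    (hp : ∀ i, ∃ j, K.bl j = i ∧ p j ≠ 0)
    (hx : HG F (fun j => aeval p (f j))) {r : ℕ} (v : Fin r → L)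
    (hv : AlgebraicIndependent (ratioField (fun j => aeval p (f j))) v) :
    ¬ Odd (Module.finrank (IntermediateField.adjoin (ratioField (fun j => aeval p (f j)))
      (Set.range v)) L) := by
  classical
  intro hodd
  obtain ⟨x, hxd⟩ : ∃ x : Fin (m+1+1) → L, x = fun j => aeval p (f j) := ⟨_, rfl⟩
  rw [← hxd] at hx
  have hx0 : x 0 ≠ 0 := HG_zero hF hx
  -- the function field of `X`
  obtain ⟨K0, hK0⟩ : ∃ K0 : IntermediateField ℂ L, K0 = ratioField (fun j => aeval p (f j)) :=
    ⟨_, rfl⟩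
  rw [← hK0] at hodd hv
  have hK0x : K0 = ratioField x := by rw [hK0, hxd]
  have hKC : CharZero K0 := charZero_of_injective_algebraMap (algebraMap ℂ K0).injective
  have hmem : ∀ j, x j / x 0 ∈ K0 := by
    intro j
    rw [hK0x]
    exact IntermediateField.subset_adjoin _ _ ⟨j, 0, rfl⟩
  let y : Fin (m+1+1) → K0 := fun j => ⟨x j / x 0, hmem j⟩
  choose jj hjj hjj0 using hp
  obtain ⟨q, hq⟩ : ∃ q : Fin N ⊕ Unit ⊕ Fin s → L,
    q = Sum.elim p (Sum.elim (fun _ => (x 0)⁻¹) (fun i => (p (jj i))⁻¹)) := ⟨_, rfl⟩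
  obtain ⟨L1, fL1, aL1, p1, hp1, hodd1⟩ := odd_spec (ι := Fin N ⊕ Unit ⊕ Fin s) r v hv hodd q
  let aC : Algebra ℂ L1 := ((algebraMap K0 L1).comp (algebraMap ℂ K0)).toAlgebra
  have tw : IsScalarTower ℂ K0 L1 := IsScalarTower.of_algebraMap_eq fun _ => rfl
  have hq1 : ∀ i, q (Sum.inl i) = p i := fun i => by rw [hq]; rfl
  have hq2 : q (Sum.inr (Sum.inl ())) = (x 0)⁻¹ := by rw [hq]; rfl
  have hq3 : ∀ i, q (Sum.inr (Sum.inr i)) = (p (jj i))⁻¹ := fun i => by rw [hq]; rfl
  -- no block of the new point is zero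
  have hp2 : ∀ i, ∃ j, K.bl j = i ∧ p1 (Sum.inl j) ≠ 0 := by
    intro i
    refine ⟨jj i, hjj i, fun h => ?_⟩
    have h1 := hp1 (X (Sum.inl (jj i)) * X (Sum.inr (Sum.inr i)) - 1) (by
      rw [map_sub, map_mul, aeval_X, aeval_X, map_one, hq1, hq3, mul_inv_cancel₀ (hjj0 i),
        sub_self])
    rw [map_sub, map_mul, aeval_X, aeval_X, map_one, h, zero_mul, zero_sub] at h1
    exact one_ne_zero (neg_eq_zero.1 h1)
  -- the relations
  have hrel : ∀ j, aeval (fun i => p1 (Sum.inl i)) (f j) * p1 (Sum.inr (Sum.inl ())) =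
      algebraMap K0 L1 (y j) := by
    intro j
    have h1 := hp1 (rename Sum.inl (MvPolynomial.map (algebraMap ℂ K0) (f j)) *
      X (Sum.inr (Sum.inl ())) - C (y j)) (by
        rw [map_sub, map_mul, aeval_X, aeval_C, aeval_rename, aeval_map_algebraMap, hq2]
        have h2 : (q ∘ Sum.inl) = p := funext hq1
        rw [h2]
        have h3 : aeval p (f j) = x j := by rw [hxd]
        rw [h3]
        change x j * (x 0)⁻¹ - x j / x 0 = 0
        rw [div_eq_mul_inv, sub_self])
    rw [map_sub, map_mul, aeval_X, aeval_C, aeval_rename, aeval_map_algebraMap, sub_eq_zero] at h1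
    exact h1
  set c := p1 (Sum.inr (Sum.inl ())) with hcd
  have hc0 : c ≠ 0 := by
    intro h
    have h1 := hrel 0
    rw [h, mul_zero] at h1
    have h2 : y 0 = 1 := Subtype.ext (div_self hx0)
    rw [h2, map_one] at h1
    exact zero_ne_one h1
  have hx1 : (fun j => aeval (fun i => p1 (Sum.inl i)) (f j)) =
      fun j => c⁻¹ * algebraMap K0 L1 (y j) := by
    funext j
    rw [← hrel j, mul_comm _ c, inv_mul_cancel_left₀ hc0]
  -- the generic point
  have hyL : HG F (fun j => algebraMap K0 L (y j)) := by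
    have h1 : (fun j => algebraMap K0 L (y j)) = (x 0)⁻¹ • x := by
      funext j
      change x j / x 0 = (x 0)⁻¹ * x j
      rw [div_eq_mul_inv, mul_comm]
    rw [h1]
    exact HG_smul hx _ (inv_ne_zero hx0)
  have hy : HG F y := HG_algebraMap.1 hyL
  have hy1 : HG F (fun j => algebraMap K0 L1 (y j)) := HG_algebraMap.2 hy
  have hg1 : HG F (fun j => aeval (fun i => p1 (Sum.inl i)) (f j)) := by
    rw [hx1]
    exact HG_smul hy1 _ (inv_ne_zero hc0)
  -- the degree
  have htop : IntermediateField.adjoin ℂ {z : K0 | ∃ i j, z = y i / y j} = ⊤ := by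
    apply IntermediateField.lift_injective K0
    rw [IntermediateField.lift_adjoin, IntermediateField.lift_top]
    refine Eq.trans ?_ hK0x.symm
    unfold ratioField
    congr 1
    ext z
    constructor
    · rintro ⟨_, ⟨i, j, rfl⟩, rfl⟩
      refine ⟨i, j, ?_⟩
      change x i / x 0 / (x j / x 0) = x i / x j
      rw [div_div_div_cancel_right₀ hx0]
    · rintro ⟨i, j, rfl⟩
      refine ⟨y i / y j, ⟨i, j, rfl⟩, ?_⟩
      change x i / x 0 / (x j / x 0) = x i / x j
      rw [div_div_div_cancel_right₀ hx0]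
  have hrf : ratioField (fun j => aeval (fun i => p1 (Sum.inl i)) (f j)) =
      (IsScalarTower.toAlgHom ℂ K0 L1).fieldRange := by
    rw [hx1, ratioField_smul' _ (inv_ne_zero hc0), AlgHom.fieldRange_eq_map, ← htop,
      IntermediateField.adjoin_map]
    unfold ratioField
    congr 1
    ext z
    constructor
    · rintro ⟨i, j, rfl⟩
      exact ⟨y i / y j, ⟨i, j, rfl⟩, by
        change algebraMap K0 L1 (y i / y j) = _
        rw [map_div₀]⟩
    · rintro ⟨_, ⟨i, j, rfl⟩, rfl⟩
      refine ⟨i, j, ?_⟩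
      change algebraMap K0 L1 (y i / y j) = _
      rw [map_div₀]
  have hfin : Module.finrank (ratioField (fun j => aeval (fun i => p1 (Sum.inl i)) (f j))) L1 =
      Module.finrank K0 L1 := by
    rw [hrf]
    symm
    exact Algebra.finrank_eq_of_equiv_equiv
      (AlgEquiv.ofInjectiveField (IsScalarTower.toAlgHom ℂ K0 L1)).toRingEquiv
      (RingEquiv.refl _) (by ext x; rfl)
  refine H L1 (fun i => p1 (Sum.inl i)) hp2 hg1 ?_ ?_
  · intro g hg
    have h1 := hp1 (rename Sum.inl (MvPolynomial.map (algebraMap ℂ K0) g)) (by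
      rw [aeval_rename, aeval_map_algebraMap]
      have h2 : (q ∘ Sum.inl) = p := funext hq1
      rw [h2]
      exact hg)
    rw [aeval_rename, aeval_map_algebraMap] at h1
    exact h1
  rw [hfin]
  exact hodd1

end MP2619.Q6
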