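import Pool.Agent.Lib.MP_2619d0_ag.Q8.V0

/-!
# Theorem Q11: finitely many double base points, definitions
-/

set_option autoImplicit false

namespace MP2619.Q6

open scoped NNReal
open IntermediateField MP2619.R MP2619.N Pool.Agent.Lib.MP_2619d0_ag Pool.Agent.Lib.MP_2619d0_ag.T
  MP2619.Q5

/-- some Taylor coefficient of order at most `r` of some `f i` at `P0` is not zero -/
def TayNe {N : ℕ} {k κ : Type} [Field k] [Field κ] [Algebra k κ] {n : ℕ} (r : ℕ)
    (f : Fin n → MvPolynomial (Fin N) k) (P0 : Fin N → κ) : Prop :=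
  ∃ (i : Fin n) (d : Fin N →₀ ℕ), d.degree ≤ r ∧
    MvPolynomial.coeff d (MvPolynomial.aeval
      (fun j => MvPolynomial.C (P0 j) + MvPolynomial.X j : Fin N → MvPolynomial (Fin N) κ)
      (f i)) ≠ 0

/-- at every point of the closure of `p` some derivative of order at most one is not zero, or the point is a point `b` over `k` at which some derivative of order at most two is not zero -/
def Bk.Mult2W {n N s : ℕ} (K : Bk n N s) {k M : Type} [Field k] [Field M] [Algebra k M] {r : ℕ}
    (f : Fin r → MvPolynomial (Fin N) k) (p : Fin N → M) : Prop :=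
  ∀ (κ : Type) [Field κ] [Algebra k κ] (P0 : Fin N → κ), K.Nz P0 → K.Sp k p P0 →
    TayNe 1 f P0 ∨ ∃ (b : Fin N → k) (c : Fin s → κ), K.Nz b ∧
      (∀ j, P0 j = c (K.bl j) * algebraMap k κ (b j)) ∧ TayNe 2 f b

end MP2619.Q6
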